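import Mathlib

set_option autoImplicit false

namespace Pool.Agent.H412Z.FL

section Gen
variable {A G : Type} [Group G]

/-- Value of a word. -/
def ev (val : A → G) (W : List A) : G := (W.map val).prod

@[simp] lemma ev_nil (val : A → G) : ev val [] = 1 := rfl
@[simp] lemma ev_cons (val : A → G) (s : A) (W : List A) :
    ev val (s :: W) = val s * ev val W := by simp [ev]
@[simp] lemma ev_append (val : A → G) (U W : List A) :
    ev val (U ++ W) = ev val U * ev val W := by simp [ev]

/-- Replace a subword of length at most `κ` by another one with the same value. -/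
def Step (val : A → G) (κ : ℕ) (u v : List A) : Prop :=
  ∃ a b x y : List A, u = a ++ x ++ b ∧ v = a ++ y ++ b ∧ x.length ≤ κ ∧ y.length ≤ κ ∧
    ev val x = ev val y

/-- Chains of steps through words of length at most `N`. -/
inductive Conn (val : A → G) (κ N : ℕ) : List A → List A → Prop
  | refl (u : List A) : u.length ≤ N → Conn val κ N u u
  | tail {u v w : List A} : Conn val κ N u v → Step val κ v w → w.length ≤ N → Conn val κ N u w

variable {val : A → G} {κ N M : ℕ} {u v w : List A}

lemma Step.symm (h : Step val κ u v) : Step val κ v u := by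
  obtain ⟨a, b, x, y, h1, h2, h3, h4, h5⟩ := h
  exact ⟨a, b, y, x, h2, h1, h4, h3, h5.symm⟩

lemma Conn.len_left (h : Conn val κ N u v) : u.length ≤ N := by
  induction h with
  | refl h => exact h
  | tail _ _ _ ih => exact ih

lemma Conn.len_right (h : Conn val κ N u v) : v.length ≤ N := by
  cases h with
  | refl h => exact h
  | tail _ _ h => exact h

lemma Conn.ev_eq (h : Conn val κ N u v) : ev val u = ev val v := by
  induction h with
  | refl h => rfl
  | tail _ hs _ ih =>
    obtain ⟨a, b, x, y, rfl, rfl, -, -, h5⟩ := hs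
    simp [ih, h5]

lemma Conn.trans (h1 : Conn val κ N u v) (h2 : Conn val κ N v w) : Conn val κ N u w := by
  induction h2 with
  | refl _ => exact h1
  | tail _ hs hl ih => exact ih.tail hs hl

lemma Conn.of_step (h : Step val κ u v) (hu : u.length ≤ N) (hv : v.length ≤ N) :
    Conn val κ N u v := (Conn.refl u hu).tail h hv

lemma Conn.symm (h : Conn val κ N u v) : Conn val κ N v u := by
  induction h with
  | refl h => exact .refl _ h
  | tail h1 hs hl ih => exact (Conn.of_step hs.symm hl h1.len_right).trans ih

lemma Conn.mono (h : Conn val κ N u v) (hN : N ≤ M) : Conn val κ M u v := by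
  induction h with
  | refl h => exact .refl _ (h.trans hN)
  | tail _ hs hl ih => exact ih.tail hs (hl.trans hN)

lemma Conn.left (a : List A) (h : Conn val κ N u v) (hN : N + a.length ≤ M) :
    Conn val κ M (a ++ u) (a ++ v) := by
  induction h with
  | refl h => exact .refl _ (by simp; omega)
  | tail _ hs hl ih =>
    obtain ⟨c, b, x, y, rfl, rfl, h3, h4, h5⟩ := hs
    exact ih.tail ⟨a ++ c, b, x, y, by simp, by simp, h3, h4, h5⟩
      (by rw [List.length_append]; omega)

lemma Conn.right (b : List A) (h : Conn val κ N u v) (hN : N + b.length ≤ M) :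
    Conn val κ M (u ++ b) (v ++ b) := by
  induction h with
  | refl h => exact .refl _ (by simp; omega)
  | tail _ hs hl ih =>
    obtain ⟨a, c, x, y, rfl, rfl, h3, h4, h5⟩ := hs
    exact ih.tail ⟨a, c ++ b, x, y, by simp, by simp, h3, h4, h5⟩
      (by rw [List.length_append]; omega)

lemma Conn.small (hu : u.length ≤ κ) (hv : v.length ≤ κ) (h : ev val u = ev val v)
    (hu' : u.length ≤ N) (hv' : v.length ≤ N) : Conn val κ N u v :=
  Conn.of_step ⟨[], [], u, v, by simp, by simp, hu, hv, h⟩ hu' hv'

lemma Conn.cast {u' v' : List A} (h : Conn val κ N u v) (h1 : u' = u) (h2 : v' = v) :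
    Conn val κ N u' v' := by subst h1 h2; exact h

instance : Trans (Conn val κ N) (Conn val κ N) (Conn val κ N) := ⟨Conn.trans⟩

lemma length_flatMap_le {A' : Type} (f : A → List A') (L : ℕ) (hf : ∀ s, (f s).length ≤ L)
    (W : List A) : (W.flatMap f).length ≤ W.length * L := by
  induction W with
  | nil => simp
  | cons s W ih =>
    rw [List.flatMap_cons, List.length_append, List.length_cons]
    have := hf s
    nlinarith

lemma ev_flatMap {A' G' : Type} [Group G'] (val' : A' → G') (φ : G →* G') (f : A → List A')
    (hf : ∀ s, ev val' (f s) = φ (val s)) (W : List A) :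
    ev val' (W.flatMap f) = φ (ev val W) := by
  induction W with
  | nil => simp
  | cons s W ih => simp [List.flatMap_cons, hf, ih]

lemma Conn.flatMap {A' G' : Type} [Group G'] (val' : A' → G') (φ : G →* G') (f : A → List A')
    (L κ' : ℕ) (hf : ∀ s, ev val' (f s) = φ (val s)) (hL : ∀ s, (f s).length ≤ L)
    (hκ : κ * L ≤ κ') (h : Conn val κ N u v) :
    Conn val' κ' (N * L) (u.flatMap f) (v.flatMap f) := by
  induction h with
  | refl h => exact .refl _ ((length_flatMap_le f L hL _).trans (Nat.mul_le_mul_right _ h))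
  | tail _ hs hl ih =>
    refine ih.tail ?_ ((length_flatMap_le f L hL _).trans (Nat.mul_le_mul_right _ hl))
    obtain ⟨a, b, x, y, rfl, rfl, h3, h4, h5⟩ := hs
    refine ⟨a.flatMap f, b.flatMap f, x.flatMap f, y.flatMap f, by simp, by simp, ?_, ?_, ?_⟩
    · exact (length_flatMap_le f L hL _).trans ((Nat.mul_le_mul_right _ h3).trans hκ)
    · exact (length_flatMap_le f L hL _).trans ((Nat.mul_le_mul_right _ h4).trans hκ)
    · rw [ev_flatMap val' φ f hf, ev_flatMap val' φ f hf, h5]

lemma ev_map (φ : G →* G) (f : A → A) (hf : ∀ s, val (f s) = φ (val s)) (W : List A) :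
    ev val (W.map f) = φ (ev val W) := by
  induction W with
  | nil => simp
  | cons s W ih => simp [hf, ih]

lemma Conn.map (φ : G →* G) (f : A → A) (hf : ∀ s, val (f s) = φ (val s))
    (h : Conn val κ N u v) : Conn val κ N (u.map f) (v.map f) := by
  induction h with
  | refl h => exact .refl _ (by simpa using h)
  | tail _ hs hl ih =>
    refine ih.tail ?_ (by simpa using hl)
    obtain ⟨a, b, x, y, rfl, rfl, h3, h4, h5⟩ := hs
    exact ⟨a.map f, b.map f, x.map f, y.map f, by simp, by simp, by simpa using h3,
      by simpa using h4, by rw [ev_map φ f hf, ev_map φ f hf, h5]⟩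

lemma ev_rev (f : A → A) (hf : ∀ s, val (f s) = (val s)⁻¹) (W : List A) :
    ev val (W.map f).reverse = (ev val W)⁻¹ := by
  induction W with
  | nil => simp
  | cons s W ih => simp only [List.map_cons, List.reverse_cons, ev_append, ih]; simp [hf]

lemma Conn.rev (f : A → A) (hf : ∀ s, val (f s) = (val s)⁻¹)
    (h : Conn val κ N u v) : Conn val κ N (u.map f).reverse (v.map f).reverse := by
  induction h with
  | refl h => exact .refl _ (by simpa using h)
  | tail _ hs hl ih =>
    refine ih.tail ?_ (by simpa using hl)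
    obtain ⟨a, b, x, y, rfl, rfl, h3, h4, h5⟩ := hs
    exact ⟨(b.map f).reverse, (a.map f).reverse, (x.map f).reverse, (y.map f).reverse, by simp,
      by simp, by simpa using h3, by simpa using h4, by rw [ev_rev f hf, ev_rev f hf, h5]⟩

lemma Conn.cancel (f : A → A) (hf : ∀ s, val (f s) = (val s)⁻¹) (hκ : 2 ≤ κ) (W : List A) :
    Conn val κ (2 * W.length) ((W.map f).reverse ++ W) [] := by
  induction W with
  | nil => exact .refl _ (by simp)
  | cons s W ih =>
    have h1 : Conn val κ 2 [f s, s] [] :=
      Conn.small (by simpa using hκ) (by simp) (by simp [hf]) (by simp) (by simp)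
    have h2 : Conn val κ (2 * (s :: W).length) ((W.map f).reverse ++ ([f s, s] ++ W))
        ((W.map f).reverse ++ ([] ++ W)) :=
      (h1.right W le_rfl).left _ (by simp; omega)
    exact (h2.cast (by simp) (by simp)).trans (ih.mono (by simp))

lemma sweep_nat (F : ℕ → List A) (n : ℕ) (h0 : (F 0).length ≤ N)
    (h : ∀ i, i < n → Conn val κ N (F i) (F (i + 1))) : Conn val κ N (F 0) (F n) := by
  induction n with
  | zero => exact .refl _ h0
  | succ n ih => exact (ih fun i hi => h i (by omega)).trans (h n (by omega))

lemma sweep (F : ℤ → List A) (x : ℤ) (h0 : (F 0).length ≤ N)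
    (h : ∀ i : ℤ, (0 ≤ i ∧ i < x) ∨ (x ≤ i ∧ i < 0) → Conn val κ N (F i) (F (i + 1))) :
    Conn val κ N (F 0) (F x) := by
  rcases le_total 0 x with hx | hx
  · obtain ⟨n, rfl⟩ := Int.eq_ofNat_of_zero_le hx
    exact sweep_nat (fun i => F i) n h0 fun i hi => by
      simpa using h i (Or.inl ⟨by omega, by omega⟩)
  · obtain ⟨n, rfl⟩ : ∃ n : ℕ, x = -(n : ℤ) := ⟨x.natAbs, by omega⟩
    have := sweep_nat (val := val) (κ := κ) (N := N) (fun i => F (-(i : ℤ))) n (by simpa using h0)
      fun i hi => by
        have := (h (-((i : ℤ) + 1)) (Or.inr ⟨by omega, by omega⟩)).symm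
        rw [show -((i : ℤ) + 1) + 1 = -(i : ℤ) by ring] at this
        simpa using this
    simpa using this

end Gen

end Pool.Agent.H412Z.FL
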