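import Pool.Agent.H412Z.FL9

set_option autoImplicit false
set_option linter.unusedSimpArgs false
set_option linter.unusedTactic false
set_option linter.unreachableTactic false

namespace Pool.Agent.H412Z.FL

lemma near (a b : ℤ) (k j : ℕ) (hb : 2 ^ k ≤ b.natAbs) (ha : a.natAbs < 2 ^ (k + j)) :
    ∃ x : ℤ, 2 * (a - x * b).natAbs ≤ b.natAbs ∧ x.natAbs ≤ 2 ^ j := by
  have hp : 0 < 2 ^ k := by positivity
  have hb0 : b ≠ 0 := by omega
  obtain ⟨x, hx⟩ : ∃ x : ℤ, 2 * (a - x * b).natAbs ≤ b.natAbs := by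
    have h1 := Int.emod_nonneg a hb0
    have h2 := Int.emod_lt a hb0
    have h3 := Int.mul_ediv_add_emod a b
    by_cases c : 2 * (a % b) ≤ b.natAbs
    · exact ⟨a / b, by rw [show a - a / b * b = a % b by linear_combination -h3]; omega⟩
    · rcases lt_or_gt_of_ne hb0 with d | d
      · exact ⟨a / b - 1, by
          rw [show a - (a / b - 1) * b = a % b + b by linear_combination -h3]; omega⟩
      · exact ⟨a / b + 1, by
          rw [show a - (a / b + 1) * b = a % b - b by linear_combination -h3]; omega⟩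
  refine ⟨x, hx, ?_⟩
  by_contra hc
  have h1 : (x * b).natAbs ≤ a.natAbs + (a - x * b).natAbs := by omega
  rw [Int.natAbs_mul] at h1
  have h2 : (2 ^ j + 1) * b.natAbs ≤ x.natAbs * b.natAbs := Nat.mul_le_mul_right _ (by omega)
  have h3 : 2 ^ j * 2 ^ k ≤ 2 ^ j * b.natAbs := Nat.mul_le_mul_left _ hb
  rw [pow_add, mul_comm] at ha
  rw [add_mul] at h2
  omega

lemma fQ_u_val (r : ℤ × ℤ) : (fQ.φ (u r)).1 = !![1, -r.2, 0; 0, 1, 0; 0, -r.1, 1] := by
  rw [fQ_val, ← u_neg]; rfl

lemma absV_G (r : ℤ × ℤ) : Abs Set.univ NG 100000000000000000000000 (fQ.w (U r)) :=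
  (absU (D := Set.univ) (C := 100000000000000000000) fQ r (by norm_num)
    (fun g _ => (length_NG g).trans (by omega)) (fun _ _ _ _ => trivial)
    (fun _ => NG_absP (by
      rw [lv_lt (by rw [fQ.ell_eq]; exact ell_unit In.e1)]; simp [mem_P, fQ_u_val]))
    (fun _ => NG_absP (by
      rw [lv_lt (by rw [fQ.ell_eq]; exact ell_unit In.e2)]; simp [mem_P, fQ_u_val]))).mono
    (by norm_num)

lemma absV_S (r : ℤ × ℤ) : Abs Set.univ NS 100000000000000000000000 (fQ.w (U r)) := by
  have key : ∀ δ, In 0 δ → Abs Set.univ NS 300000000000000000000 [lt (fQ.φ (u δ))] := by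
    intro δ hδ
    refine NS_abs (s := cs.φ (th.φ (u δ))) ?_ (by rw [cs.ell_eq, th.ell_eq]; exact ell_unit hδ)
    rw [mem_P, cs_val, th_eq, ← u_neg]
    exact ⟨rfl, rfl, rfl⟩
  exact (absU (D := Set.univ) (C := 300000000000000000000) fQ r (by norm_num)
    (fun g _ => (length_NS g).trans (by omega)) (fun _ _ _ _ => trivial)
    (fun _ => key _ In.e1) (fun _ => key _ In.e2)).mono (by norm_num)

lemma main_ind (k : ℕ) : ∀ (l : ℕ) (g : G), (g.1 1 0).natAbs < 2 ^ k → k ≤ l →
    (g.1 0 0).natAbs < 2 ^ l → (g.1 2 0).natAbs < 2 ^ l →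
    Cn (100000000000000000000000000 * (k + l) + 100000000000000000000000 * ell g)
      (NG g) (NS g) := by
  induction k with
  | zero =>
    intro l g h _ _ _
    exact (base (by omega)).mono (by omega)
  | succ k ih =>
    intro l g hb hkl ha hc
    rcases lt_or_ge (g.1 1 0).natAbs (2 ^ k) with c | c
    · exact (ih l g c (by omega) ha hc).mono (by omega)
    obtain ⟨j, rfl⟩ : ∃ j, l = k + j := ⟨l - k, by omega⟩
    obtain ⟨y, y1, y2⟩ := near _ _ k j c ha
    obtain ⟨x, x1, x2⟩ := near _ _ k j c hc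
    set g' := fQ.φ (u (x, y)) * g with hg'
    have e0 : g'.1 0 0 = g.1 0 0 - y * g.1 1 0 := by
      rw [hg', mul_ap, fQ_u_val]; simp; ring
    have e1 : g'.1 1 0 = g.1 1 0 := by rw [hg', mul_ap, fQ_u_val]; simp
    have e2 : g'.1 2 0 = g.1 2 0 - x * g.1 1 0 := by
      rw [hg', mul_ap, fQ_u_val]; simp; ring
    have lu : ell (u (x, y)) ≤ j + 1 := ell_u_le (by omega) (by
      have h1 : 2 ^ j ≤ 64 ^ j := Nat.pow_le_pow_left (by norm_num) _
      have h2 : 0 < 2 ^ j := by positivity
      simp only; omega)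
    have lu' : ell (u (-(x, y))) ≤ j + 1 := by rwa [u_neg, ell_inv]
    have lg' : ell g' ≤ j + 1 + ell g := by
      have := ell_mul (fQ.φ (u (x, y))) g
      rw [fQ.ell_eq, ← hg'] at this
      omega
    have lB := length_U (-(x, y))
    have eg : ev lv (fQ.w (U (-(x, y)))) * g' = g := by
      rw [fQ.ev_w, ev_U, u_neg, map_inv, hg', inv_mul_cancel_left]
    have c1 := (absV_G (-(x, y)) g' trivial).2
    have c2 := (absV_S (-(x, y)) g' trivial).2
    rw [eg] at c1 c2
    obtain ⟨s1, s2, s3⟩ := sg_inv_mul g'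
    obtain ⟨t1, t2, t3⟩ := sg_inv_mul (sg⁻¹ * g')
    have hp : 2 ^ (k + 1) = 2 * 2 ^ k := by ring
    have i1 := ih (k + 1) (sg⁻¹ * g') (by rw [s2, e2]; omega) (by omega) (by rw [s1, e1]; omega)
      (by rw [s3, e0]; omega)
    have i2 := ih (k + 1) (sg⁻¹ * (sg⁻¹ * g')) (by rw [t2, s3, e0]; omega) (by omega)
      (by rw [t1, s2, e2]; omega) (by rw [t3, s1, e1]; omega)
    have l1 := ell_sg_mul g'
    have l2 := ell_sg_mul (sg⁻¹ * g')
    have l3 := length_NG g'
    have c3 : Cn 3 ([lt sg] ++ ([lt sg] ++ [lt sg])) [] :=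
      small (by simp only [ev_append, ev_cons, ev_nil, lv_lt ell_sg]; decide) (by simp) (by simp)
        (by simp) (by simp)
    have e3 : sg⁻¹ * (sg⁻¹ * (sg⁻¹ * g')) = g' := by
      rw [← mul_assoc, ← mul_assoc, show sg⁻¹ * sg⁻¹ * sg⁻¹ = 1 by decide, one_mul]
    rw [NS, e3] at i2
    refine (c1.symm.mono (by (try simp only [List.length_append, List.length_cons, List.length_nil, List.length_replicate, length_winv, Sym.length_w]); omega)).trans (Conn.trans ?_ (c2.mono (by (try simp only [List.length_append, List.length_cons, List.length_nil, List.length_replicate, length_winv, Sym.length_w]); omega)))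
    refine Conn.left (N := 100000000000000000000000000 * (k + (k + 1)) +
      100000000000000000000000 * (ell g' + 2) + 3) _ (Conn.symm ?_) (by (try simp only [List.length_append, List.length_cons, List.length_nil, List.length_replicate, length_winv, Sym.length_w]); omega)
    refine (i1.left [lt sg] (by (try simp only [List.length_append, List.length_cons, List.length_nil, List.length_replicate, length_winv, Sym.length_w]); omega)).trans ?_
    refine ((i2.left [lt sg] le_rfl).left [lt sg] (by (try simp only [List.length_append, List.length_cons, List.length_nil, List.length_replicate, length_winv, Sym.length_w]); omega)).trans ?_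
    exact (c3.right (NG g') (by (try simp only [List.length_append, List.length_cons, List.length_nil, List.length_replicate, length_winv, Sym.length_w]); omega)).cast (by simp) (by simp)

lemma NG_absS : Abs Set.univ NG 10000000000000000000000000000 [lt sg] := fun g _ => by
  refine ⟨trivial, ?_⟩
  simp only [ev_cons, ev_nil, lv_lt ell_sg, mul_one]
  obtain ⟨c1, c2, c3⟩ := Col_ell (sg * g)
  have h : 64 ^ ell (sg * g) < 2 ^ (6 * ell (sg * g) + 1) := by
    rw [show (64 : ℕ) = 2 ^ 6 by norm_num, ← pow_mul]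
    exact Nat.pow_lt_pow_right (by norm_num) (by omega)
  have := (main_ind (6 * ell (sg * g) + 1) (6 * ell (sg * g) + 1) (sg * g) (by omega) le_rfl
    (by omega) (by omega)).symm
  rw [NS, inv_mul_cancel_left] at this
  have l1 := ell_mul sg g
  have l2 := ell_sg
  exact this.mono (by (try simp only [List.length_append, List.length_cons, List.length_nil, List.length_replicate, length_winv, Sym.length_w]); omega)

/-- The generators. -/
def gen : Fin 5 → G := ![io (Rz 1), io Sw, u (1, 0), u (0, 1), sg]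

def gv (x : Fin 5 × Bool) : G := cond x.2 (gen x.1) (gen x.1)⁻¹

lemma ell_gen (i : Fin 5) : ell (gen i) ≤ 1 := by
  fin_cases i
  exacts [ell_R, ell_S, ell_unit In.e1, ell_unit In.e2, ell_sg]

lemma ell_gv (x : Fin 5 × Bool) : ell (gv x) ≤ 1 := by
  obtain ⟨i, b⟩ := x
  cases b
  · simpa [gv] using ell_gen i
  · exact ell_gen i

lemma abs_gen (i : Fin 5) : Abs Set.univ NG 10000000000000000000000000000 [lt (gen i)] := by
  have k : ∀ i, gen i ∈ P → Abs Set.univ NG 10000000000000000000000000000 [lt (gen i)] :=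
    fun i h => (NG_absP (by rw [lv_lt (ell_gen i)]; exact h)).mono (by norm_num)
  fin_cases i
  exacts [k _ (io_mem _), k _ (io_mem _), k _ (u_mem _), k _ (u_mem _), NG_absS]

lemma abs_gv (x : Fin 5 × Bool) :
    Abs Set.univ NG (10000000000000000000000000000 * 3) [lt (gv x)] := by
  obtain ⟨i, b⟩ := x
  cases b
  · have := (abs_gen i).inv (by norm_num) (fun g _ => (length_NG g).trans (by omega))
      fun _ _ => trivial
    rwa [linv_lt (ell_gen i)] at this
  · exact (abs_gen i).mono (by norm_num)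

lemma ev_NG (g : G) : ev lv (NG g) = g := by
  unfold NG
  rw [ev_append, ev_append, ev_NP (fp_mem g), FS_Q.ev _ (fq_mem g), FS_1.ev _ (fr_mem g),
    ← mul_assoc, f_mul]

lemma ev_map_gv (w : List (Fin 5 × Bool)) : ev lv (w.map fun x => lt (gv x)) = ev gv w := by
  induction w with
  | nil => rfl
  | cons x w ih => simp [lv_lt (ell_gv x), ih]

theorem fill : ∃ C : ℕ, ∀ w : List (Fin 5 × Bool), ev gv w = 1 →
    Cn (C * (w.length + 1)) (w.map fun x => lt (gv x)) [] := by
  refine ⟨10000000000000000000000000000 * 3, fun w hw => ?_⟩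
  have h : ∀ w : List (Fin 5 × Bool),
      Abs Set.univ NG (10000000000000000000000000000 * 3) (w.map fun x => lt (gv x)) := by
    intro w
    induction w with
    | nil => exact Abs.nil fun g _ => (length_NG g).trans (by omega)
    | cons x w ih => exact (abs_gv x).append (by norm_num) ih
  have c := (h w 1 trivial).2
  have l := length_NG 1
  rw [ev_map_gv, hw, mul_one, ell_one, List.length_map] at c
  rw [ell_one] at l
  have c1 : Cn 21000 [] (NG 1) :=
    small (by rw [ev_NG]; rfl) (by simp) (by omega) (by simp) (by omega)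
  exact (((c1.left _ (by rw [List.length_map]; omega)).cast (by simp) rfl).trans c).trans
    (c1.symm.mono (by omega))

theorem gen_top : Subgroup.closure (Set.range gen) = ⊤ := by
  set Γ := Subgroup.closure (Set.range gen) with hΓ
  have hg : ∀ i, gen i ∈ Γ := fun i => Subgroup.subset_closure ⟨i, rfl⟩
  have hio : ∀ M, io M ∈ Γ := by
    intro M
    have : M ∈ Subgroup.closure {ModularGroup.S, ModularGroup.T} := by
      simp [SpecialLinearGroup.SL2Z_generators]
    have hle : Subgroup.closure {ModularGroup.S, ModularGroup.T} ≤ Γ.comap io := by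
      rw [Subgroup.closure_le]
      rintro _ (rfl | rfl)
      · exact hg 1
      · exact hg 0
    exact hle this
  have hP : ∀ p ∈ P, p ∈ Γ := by
    intro p hp
    obtain ⟨r, M, rfl⟩ := P_decomp hp
    rw [u_zpow]
    exact Γ.mul_mem (Γ.mul_mem (Γ.zpow_mem (hg 2) _) (Γ.zpow_mem (hg 3) _)) (hio M)
  have hc : ∀ g ∈ Γ, cs.φ g ∈ Γ := fun g h =>
    Γ.mul_mem (Γ.mul_mem (hg 4) h) (Γ.inv_mem (hg 4))
  rw [eq_top_iff]
  intro g _
  rw [← f_mul g]
  refine Γ.mul_mem (Γ.mul_mem (hP _ (fp_mem g)) ?_) ?_
  · obtain ⟨p, hp, e⟩ := fq_eq g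
    rw [e]; exact hc _ (hc _ (hP p hp))
  · obtain ⟨p, e⟩ := cs.φ.surjective (fr g)
    have := fr_mem g
    rw [← e] at this ⊢
    refine hc _ (hP p ?_)
    rw [mem_P1, cs_val] at this
    exact ⟨this.2.1, this.2.2, this.1⟩

theorem finite_letter : Finite Letter := by
  let f : Letter → (Fin 3 → Fin 3 → Set.Icc (-64 : ℤ) 64) := fun s i j => ⟨(lv s).1 i j, by
    have h1 := (entry_le_nu (lv s) i j).trans (ell_le_iff.1 (ell_lv s)).2.1
    constructor <;> omega⟩
  refine Finite.of_injective f fun s t h => ?_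
  apply Subtype.ext
  ext i j
  exact congrArg Subtype.val (congrFun (congrFun h i) j)

end Pool.Agent.H412Z.FL
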