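import Pool.Agent.H412Z.FL10

set_option autoImplicit false

namespace Pool.Agent.H412Z.FL

section Fin
variable {k : ℕ} (R : Finset (FreeGroup (Fin k)))

def Mv (u v : List (Fin k × Bool)) : Prop :=
  ∃ (a b c : List (Fin k × Bool)),
    ((∃ x : Fin k × Bool, c = [x, (x.1, !x.2)]) ∨ ∃ r ∈ R, (c = r.toWord ∨ c = r⁻¹.toWord)) ∧
    ((u = a ++ b ∧ v = a ++ c ++ b) ∨ (u = a ++ c ++ b ∧ v = a ++ b))

inductive Ch (N : ℕ) : List (Fin k × Bool) → List (Fin k × Bool) → Prop
  | refl (u : List (Fin k × Bool)) : u.length ≤ N → Ch N u u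
  | tail {u v w : List (Fin k × Bool)} : Ch N u v → Mv R v w → w.length ≤ N → Ch N u w

variable {R} {N M : ℕ} {u v w : List (Fin k × Bool)}

lemma Mv.symm (h : Mv R u v) : Mv R v u := by
  obtain ⟨a, b, c, h1, h2⟩ := h
  exact ⟨a, b, c, h1, by tauto⟩

lemma Ch.len_right (h : Ch R N u v) : v.length ≤ N := by
  cases h with
  | refl h => exact h
  | tail _ _ h => exact h

lemma Ch.trans (h1 : Ch R N u v) (h2 : Ch R N v w) : Ch R N u w := by
  induction h2 with
  | refl _ => exact h1
  | tail _ hs hl ih => exact ih.tail hs hl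

lemma Ch.symm (h : Ch R N u v) : Ch R N v u := by
  induction h with
  | refl h => exact .refl _ h
  | tail h1 hs hl ih => exact ((Ch.refl _ hl).tail hs.symm h1.len_right).trans ih

lemma Ch.ctx (a b : List (Fin k × Bool)) (h : Ch R N u v) (hN : N + a.length + b.length ≤ M) :
    Ch R M (a ++ u ++ b) (a ++ v ++ b) := by
  induction h with
  | refl h => exact .refl _ (by simp; omega)
  | tail _ hs hl ih =>
    obtain ⟨c, d, x, h1, h2⟩ := hs
    refine ih.tail ⟨a ++ c, d ++ b, x, h1, ?_⟩ (by simp; omega)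
    rcases h2 with ⟨rfl, rfl⟩ | ⟨rfl, rfl⟩
    · left; simp
    · right; simp

lemma Ch.of_red (h : FreeGroup.Red u v) (hu : u.length ≤ N) : Ch R N u v := by
  induction h with
  | refl => exact .refl _ hu
  | tail _ hs ih =>
    have l := ih.len_right
    cases hs with
    | @not L₁ L₂ x b =>
      exact ih.tail ⟨L₁, L₂, [(x, b), (x, !b)], Or.inl ⟨(x, b), rfl⟩, Or.inr ⟨by simp, rfl⟩⟩
        (by simp at l ⊢; omega)

lemma Ch.seq (h : Ch R N u v) : ∃ (m : ℕ) (s : ℕ → List (Fin k × Bool)), s 0 = u ∧ s m = v ∧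
    (∀ i ≤ m, (s i).length ≤ N) ∧ ∀ i < m, Mv R (s i) (s (i + 1)) := by
  induction h with
  | refl h => exact ⟨0, fun _ => u, rfl, rfl, fun _ _ => h, fun _ hi => by omega⟩
  | @tail v w _ hs hl ih =>
    obtain ⟨m, s, h1, h2, h3, h4⟩ := ih
    refine ⟨m + 1, fun i => if i ≤ m then s i else w, by simp [h1], by simp, fun i hi => ?_,
      fun i hi => ?_⟩
    · by_cases c : i ≤ m
      · simpa [c] using h3 i c
      · simpa [c] using hl
    · by_cases c : i < m
      · simpa [c.le, Nat.succ_le_of_lt c] using h4 i c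
      · obtain rfl : i = m := by omega
        simpa [h2] using hs

lemma Ch.mem (h : Ch R N u v)
    (hv : FreeGroup.mk v ∈ Subgroup.normalClosure (R : Set (FreeGroup (Fin k)))) :
    FreeGroup.mk u ∈ Subgroup.normalClosure (R : Set (FreeGroup (Fin k))) := by
  induction h with
  | refl _ => exact hv
  | tail _ hs _ ih =>
    apply ih
    obtain ⟨a, b, c, h1, h2⟩ := hs
    have hc : FreeGroup.mk c ∈ Subgroup.normalClosure (R : Set (FreeGroup (Fin k))) := by
      rcases h1 with ⟨⟨x, e⟩, rfl⟩ | ⟨r, hr, rfl | rfl⟩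
      · have : FreeGroup.mk [(x, e), (x, !e)] = 1 :=
          Quot.sound (FreeGroup.Red.Step.not (L₁ := []) (L₂ := []))
        rw [this]; exact Subgroup.one_mem _
      · rw [FreeGroup.mk_toWord]; exact Subgroup.subset_normalClosure hr
      · rw [FreeGroup.mk_toWord]; exact Subgroup.inv_mem _ (Subgroup.subset_normalClosure hr)
    have hc' := (Subgroup.normalClosure_normal (s := (R : Set (FreeGroup (Fin k))))).conj_mem _ hc
      (FreeGroup.mk a)
    have e : FreeGroup.mk (a ++ c ++ b) =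
        (FreeGroup.mk a * FreeGroup.mk c * (FreeGroup.mk a)⁻¹) * FreeGroup.mk (a ++ b) := by
      simp only [← FreeGroup.mul_mk]; group
    rcases h2 with ⟨rfl, rfl⟩ | ⟨rfl, rfl⟩
    · rw [e] at hv
      exact (Subgroup.mul_mem_cancel_left _ hc').1 hv
    · rw [e]; exact Subgroup.mul_mem _ hc' hv

lemma Ch.of_conn {G : Type} [Group G] (val : Fin k × Bool → G) (κ : ℕ)
    (hval : ∀ W, ev val (FreeGroup.invRev W) = (ev val W)⁻¹)
    (hR : ∀ c : List (Fin k × Bool), c.length ≤ 2 * κ → ev val c = 1 → FreeGroup.mk c ∈ R)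
    (h : Conn val κ N u v) : Ch R (N + 3 * κ) u v := by
  induction h with
  | refl h => exact .refl _ (by omega)
  | tail _ hs hl ih =>
    refine ih.trans ?_
    obtain ⟨a, b, x, y, rfl, rfl, h3, h4, h5⟩ := hs
    refine Ch.ctx (N := 3 * κ) a b ?_ (by simp at hl; omega)
    have c1 : Ch R (2 * κ) (FreeGroup.invRev y ++ y) [] := by
      have := FreeGroup.reduce.red (L := FreeGroup.invRev y ++ y)
      rw [← FreeGroup.toWord_mk, ← FreeGroup.mul_mk, ← FreeGroup.inv_mk, inv_mul_cancel,
        FreeGroup.toWord_one] at this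
      exact Ch.of_red this (by simp; omega)
    have c2 : Ch R (2 * κ) (x ++ FreeGroup.invRev y) [] := by
      have hl : (x ++ FreeGroup.invRev y).length ≤ 2 * κ := by simp; omega
      refine (Ch.of_red FreeGroup.reduce.red hl).tail
        ⟨[], [], _, Or.inr ⟨_, hR _ hl (by simp [hval, h5]), Or.inl rfl⟩, Or.inr ⟨?_, rfl⟩⟩
        (by simp)
      simp [FreeGroup.toWord_mk]
    have c3 := c1.symm.ctx x [] (M := 3 * κ) (by simp; omega)
    have c4 := c2.ctx [] y (M := 3 * κ) (by simp; omega)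
    simp only [List.append_nil, List.nil_append, List.append_assoc] at c3 c4
    exact c3.trans c4

end Fin

lemma lift_ev (w : List (Fin 5 × Bool)) : FreeGroup.lift gen (FreeGroup.mk w) = ev gv w :=
  FreeGroup.lift_mk

lemma lift_surj : Function.Surjective (FreeGroup.lift gen) := by
  rw [← MonoidHom.range_eq_top, FreeGroup.range_lift_eq_closure, gen_top]

theorem main : ∃ (R : Finset (FreeGroup (Fin 5))) (C : ℕ),
    (∀ r ∈ R, FreeGroup.lift gen r = 1) ∧ ∀ w : List (Fin 5 × Bool), ev gv w = 1 →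
      Ch R (C * w.length + C) w [] := by
  have hω : ∀ s : Letter, ∃ W : List (Fin 5 × Bool), ev gv W = lv s := fun s => by
    obtain ⟨x, hx⟩ := lift_surj (lv s)
    exact ⟨x.toWord, by rw [← lift_ev, FreeGroup.mk_toWord, hx]⟩
  choose ω hω using hω
  have := finite_letter
  obtain ⟨L0, hL0⟩ := (Set.finite_range fun s => (ω s).length).bddAbove
  have hL : ∀ s, (ω s).length ≤ L0 + 1 := fun s => (hL0 ⟨s, rfl⟩).trans (by omega)
  set L := L0 + 1 with hLdef
  set κ := 1000000 * L with hκ
  have hfin : ((fun c => FreeGroup.mk c) ''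
      {c : List (Fin 5 × Bool) | c.length ≤ 2 * κ ∧ ev gv c = 1}).Finite :=
    ((List.finite_length_le _ (2 * κ)).subset fun c hc => hc.1).image _
  obtain ⟨C, hC⟩ := fill
  refine ⟨hfin.toFinset, C * L + L + 3 * κ, fun r hr => ?_, fun w hw => ?_⟩
  · obtain ⟨c, hc, rfl⟩ := hfin.mem_toFinset.1 hr
    rw [lift_ev, hc.2]
  have c1 := (hC w hw).flatMap gv (MonoidHom.id G) ω L κ hω hL le_rfl
  have c2 : ∀ w : List (Fin 5 × Bool),
      Conn gv κ (w.length * L) w ((w.map fun x => lt (gv x)).flatMap ω) := by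
    intro w
    induction w with
    | nil => exact .refl _ (by simp)
    | cons x w ih =>
      have l := ih.len_right
      have s : Conn gv κ L [x] (ω (lt (gv x))) :=
        Conn.small (by simp; omega) ((hL _).trans (by omega))
          (by rw [hω, lv_lt (ell_gv x)]; simp) (by simp; omega) (hL _)
      exact (ih.left [x] (by simp [add_mul]; omega)).trans
        (s.right _ (by simp only [List.length_cons, add_mul]; omega))
  have c3 : Conn gv κ (C * L * w.length + L * w.length + C * L) w [] :=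
    ((c2 w).mono (by rw [mul_comm]; omega)).trans (c1.mono (by nlinarith))
  have c4 := Ch.of_conn (R := hfin.toFinset) gv κ
    (fun W => by rw [← lift_ev, ← lift_ev, ← FreeGroup.inv_mk, map_inv])
    (fun c h1 h2 => hfin.mem_toFinset.2 ⟨c, ⟨h1, h2⟩, rfl⟩) c3
  simpa using c4.ctx [] [] (M := (C * L + L + 3 * κ) * w.length + (C * L + L + 3 * κ))
    (by simp only [List.length_nil]; nlinarith)

end Pool.Agent.H412Z.FL
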