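import Pool.Agent.H412Z.FL1

set_option autoImplicit false

namespace Pool.Agent.H412Z.FL

abbrev G := Matrix.SpecialLinearGroup (Fin 3) ℤ
abbrev G2 := Matrix.SpecialLinearGroup (Fin 2) ℤ

lemma mul_ap (g h : G) (i j : Fin 3) :
    (g * h).1 i j = g.1 i 0 * h.1 0 j + g.1 i 1 * h.1 1 j + g.1 i 2 * h.1 2 j := by
  simp [Matrix.mul_apply, Fin.sum_univ_three]

lemma mul_ap2 (g h : G2) (i j : Fin 2) :
    (g * h).1 i j = g.1 i 0 * h.1 0 j + g.1 i 1 * h.1 1 j := by
  simp [Matrix.mul_apply, Fin.sum_univ_two]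

lemma ext9 {g h : G} (h00 : g.1 0 0 = h.1 0 0) (h01 : g.1 0 1 = h.1 0 1) (h02 : g.1 0 2 = h.1 0 2)
    (h10 : g.1 1 0 = h.1 1 0) (h11 : g.1 1 1 = h.1 1 1) (h12 : g.1 1 2 = h.1 1 2)
    (h20 : g.1 2 0 = h.1 2 0) (h21 : g.1 2 1 = h.1 2 1) (h22 : g.1 2 2 = h.1 2 2) : g = h := by
  ext i j
  fin_cases i <;> fin_cases j <;> assumption

lemma ext4 {g h : G2} (h00 : g.1 0 0 = h.1 0 0) (h01 : g.1 0 1 = h.1 0 1)
    (h10 : g.1 1 0 = h.1 1 0) (h11 : g.1 1 1 = h.1 1 1) : g = h := by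
  ext i j
  fin_cases i <;> fin_cases j <;> assumption

lemma det3 (g : G) : g.1 0 0 * g.1 1 1 * g.1 2 2 - g.1 0 0 * g.1 1 2 * g.1 2 1
    - g.1 0 1 * g.1 1 0 * g.1 2 2 + g.1 0 1 * g.1 1 2 * g.1 2 0 + g.1 0 2 * g.1 1 0 * g.1 2 1
    - g.1 0 2 * g.1 1 1 * g.1 2 0 = 1 := by
  rw [← Matrix.det_fin_three]; exact g.2

lemma det2 (g : G2) : g.1 0 0 * g.1 1 1 - g.1 0 1 * g.1 1 0 = 1 := by
  rw [← Matrix.det_fin_two]; exact g.2

/-- Sum of the absolute values of the entries. -/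
def nu (g : G) : ℕ := ∑ i, ∑ j, (g.1 i j).natAbs

lemma nu_eq (g : G) : nu g = (g.1 0 0).natAbs + (g.1 0 1).natAbs + (g.1 0 2).natAbs +
    ((g.1 1 0).natAbs + (g.1 1 1).natAbs + (g.1 1 2).natAbs) +
    ((g.1 2 0).natAbs + (g.1 2 1).natAbs + (g.1 2 2).natAbs) := by
  simp [nu, Fin.sum_univ_three]

lemma entry_le_nu (g : G) (i j : Fin 3) : (g.1 i j).natAbs ≤ nu g :=
  (Finset.single_le_sum (f := fun j => (g.1 i j).natAbs) (fun _ _ => Nat.zero_le _)
    (Finset.mem_univ j)).trans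
    (Finset.single_le_sum (f := fun i => ∑ j, (g.1 i j).natAbs) (fun _ _ => Nat.zero_le _)
      (Finset.mem_univ i))

lemma nu_mul (g h : G) : nu (g * h) ≤ nu g * nu h := by
  unfold nu
  calc ∑ i, ∑ j, ((g * h).1 i j).natAbs
      ≤ ∑ i, ∑ j, ∑ k, (g.1 i k).natAbs * (h.1 k j).natAbs := by
        refine Finset.sum_le_sum fun i _ => Finset.sum_le_sum fun j _ => ?_
        rw [mul_ap, Fin.sum_univ_three]
        refine (Int.natAbs_add_le _ _).trans ?_
        refine (Nat.add_le_add_right (Int.natAbs_add_le _ _) _).trans ?_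
        simp [Int.natAbs_mul]
    _ = ∑ i, ∑ k, (g.1 i k).natAbs * ∑ j, (h.1 k j).natAbs := by
        refine Finset.sum_congr rfl fun i _ => ?_
        rw [Finset.sum_comm]
        simp [Finset.mul_sum]
    _ ≤ ∑ i, ∑ k, (g.1 i k).natAbs * ∑ k', ∑ j, (h.1 k' j).natAbs := by
        refine Finset.sum_le_sum fun i _ => Finset.sum_le_sum fun k _ => Nat.mul_le_mul_left _ ?_
        exact Finset.single_le_sum (f := fun k => ∑ j, (h.1 k j).natAbs)
          (fun _ _ => Nat.zero_le _) (Finset.mem_univ k)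
    _ = _ := by simp [Finset.sum_mul]

/-- Logarithmic size. -/
def ell (g : G) : ℕ := Nat.clog 64 (max 2 (max (nu g) (nu g⁻¹)))

lemma ell_le_iff {g : G} {n : ℕ} : ell g ≤ n ↔ 2 ≤ 64 ^ n ∧ nu g ≤ 64 ^ n ∧ nu g⁻¹ ≤ 64 ^ n := by
  unfold ell
  rw [Nat.clog_le_iff_le_pow (by norm_num)]
  simp

lemma one_le_ell (g : G) : 1 ≤ ell g := by
  by_contra h
  have := (ell_le_iff (g := g) (n := 0)).1 (by omega)
  omega

lemma nu_le (g : G) : nu g ≤ 64 ^ ell g := (ell_le_iff.1 le_rfl).2.1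

lemma ell_le {g : G} {n : ℕ} (hn : 1 ≤ n) (h1 : nu g ≤ 64 ^ n) (h2 : nu g⁻¹ ≤ 64 ^ n) :
    ell g ≤ n :=
  ell_le_iff.2 ⟨le_trans (by norm_num) (Nat.pow_le_pow_right (by norm_num) hn), h1, h2⟩

@[simp] lemma ell_inv (g : G) : ell g⁻¹ = ell g := by
  unfold ell
  rw [inv_inv, max_comm (nu g⁻¹)]

lemma ell_mul (g h : G) : ell (g * h) ≤ ell g + ell h := by
  have hg := ell_le_iff.1 (le_refl (ell g))
  have hh := ell_le_iff.1 (le_refl (ell h))
  refine ell_le (by have := one_le_ell g; omega) ?_ ?_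
  · rw [pow_add]; exact (nu_mul _ _).trans (Nat.mul_le_mul hg.2.1 hh.2.1)
  · rw [mul_inv_rev, add_comm, pow_add]; exact (nu_mul _ _).trans (Nat.mul_le_mul hh.2.2 hg.2.2)

lemma ell_one : ell 1 = 1 := by
  refine le_antisymm (ell_le le_rfl ?_ ?_) (one_le_ell _)
  · decide
  · decide

lemma ell_of_entries {g : G} {n : ℕ} (h : ∀ i j, (g.1 i j).natAbs ≤ 64 ^ n) :
    ell g ≤ 2 * n + 1 := by
  have hp : 1 ≤ 64 ^ n := Nat.one_le_pow _ _ (by norm_num)
  have e : 64 ^ (2 * n + 1) = 64 * (64 ^ n * 64 ^ n) := by ring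
  have key : ∀ a b c d : ℤ, a.natAbs ≤ 64 ^ n → b.natAbs ≤ 64 ^ n → c.natAbs ≤ 64 ^ n →
      d.natAbs ≤ 64 ^ n → (a * b - c * d).natAbs ≤ 2 * (64 ^ n * 64 ^ n) := by
    intro a b c d ha hb hc hd
    refine (Int.natAbs_sub_le _ _).trans ?_
    rw [Int.natAbs_mul, Int.natAbs_mul]
    have := Nat.mul_le_mul ha hb
    have := Nat.mul_le_mul hc hd
    omega
  refine ell_le (by omega) ?_ ?_
  · rw [nu_eq, e]
    have := h 0 0; have := h 0 1; have := h 0 2; have := h 1 0; have := h 1 1; have := h 1 2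
    have := h 2 0; have := h 2 1; have := h 2 2
    nlinarith
  · have hi : ∀ i j, ((g⁻¹).1 i j).natAbs ≤ 2 * (64 ^ n * 64 ^ n) := by
      intro i j
      rw [Matrix.SpecialLinearGroup.coe_inv, Matrix.adjugate_fin_three]
      fin_cases i <;> fin_cases j <;> simp only [Fin.zero_eta, Fin.mk_one, Fin.reduceFinMk,
        Matrix.of_apply, Matrix.cons_val', Matrix.cons_val_zero, Matrix.cons_val_one,
        Matrix.cons_val, Matrix.cons_val_fin_one, neg_add_eq_sub] <;>
        exact key _ _ _ _ (h _ _) (h _ _) (h _ _) (h _ _)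
    rw [nu_eq, e]
    have := hi 0 0; have := hi 0 1; have := hi 0 2; have := hi 1 0; have := hi 1 1; have := hi 1 2
    have := hi 2 0; have := hi 2 1; have := hi 2 2
    omega

/-- Letters: the matrices of size one. -/
def Letter : Type := {g : G // ell g ≤ 1}

abbrev Word := List Letter

/-- The letter with a given value. -/
def lt (g : G) : Letter := if h : ell g ≤ 1 then ⟨g, h⟩ else ⟨1, ell_one.le⟩

lemma lt_val {g : G} (h : ell g ≤ 1) : (lt g).1 = g := by simp [lt, h]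

def lv (s : Letter) : G := s.1

@[simp] lemma lt_lv (s : Letter) : lt (lv s) = s := by
  unfold lt lv; rw [dif_pos s.2]; rfl

lemma lv_lt {g : G} (h : ell g ≤ 1) : lv (lt g) = g := lt_val h

lemma ell_lv (s : Letter) : ell (lv s) ≤ 1 := s.2

abbrev Cn (N : ℕ) (u v : Word) : Prop := Conn lv 1000000 N u v

lemma ell_ev_mul (W : Word) (h : G) : ell (ev lv W * h) ≤ W.length + ell h := by
  induction W with
  | nil => simp
  | cons s W ih =>
    rw [ev_cons, mul_assoc]
    have := ell_mul (lv s) (ev lv W * h)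
    have := ell_lv s
    simp only [List.length_cons]
    omega

lemma ell_ev (W : Word) : ell (ev lv W) ≤ W.length + 1 := by
  simpa [ell_one] using ell_ev_mul W 1

def linv (s : Letter) : Letter := ⟨s.1⁻¹, by rw [ell_inv]; exact s.2⟩

lemma lv_linv (s : Letter) : lv (linv s) = (lv s)⁻¹ := rfl

/-- Inverse word. -/
def winv (W : Word) : Word := (W.map linv).reverse

@[simp] lemma length_winv (W : Word) : (winv W).length = W.length := by simp [winv]

lemma ev_winv (W : Word) : ev lv (winv W) = (ev lv W)⁻¹ := ev_rev linv lv_linv W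

lemma Cn.winv {N : ℕ} {u v : Word} (h : Cn N u v) : Cn N (winv u) (winv v) :=
  Conn.rev linv lv_linv h

lemma cancel (W : Word) : Cn (2 * W.length) (winv W ++ W) [] :=
  Conn.cancel linv lv_linv (by norm_num) W

lemma winv_append (U W : Word) : winv (U ++ W) = winv W ++ winv U := by simp [winv]

lemma linv_lt {g : G} (h : ell g ≤ 1) : linv (lt g) = lt g⁻¹ := by
  apply Subtype.ext
  rw [lt_val (by rwa [ell_inv])]
  show (lt g).1⁻¹ = _
  rw [lt_val h]

lemma winv_single (s : Letter) : winv [s] = [linv s] := rfl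

lemma winv_nil : winv [] = [] := rfl

lemma small {N : ℕ} {u v : Word} (h : ev lv u = ev lv v) (hu : u.length ≤ 1000000)
    (hv : v.length ≤ 1000000) (hu' : u.length ≤ N) (hv' : v.length ≤ N) : Cn N u v :=
  Conn.small hu hv h hu' hv'

/-- Size-preserving automorphisms. -/
structure Sym where
  φ : G ≃* G
  ell_eq : ∀ g, ell (φ g) = ell g

def Sym.l (φ : Sym) (s : Letter) : Letter := ⟨φ.φ s.1, by rw [φ.ell_eq]; exact s.2⟩

def Sym.w (φ : Sym) (W : Word) : Word := W.map φ.l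

@[simp] lemma Sym.length_w (φ : Sym) (W : Word) : (φ.w W).length = W.length := by simp [Sym.w]

lemma Sym.ev_w (φ : Sym) (W : Word) : ev lv (φ.w W) = φ.φ (ev lv W) :=
  ev_map φ.φ.toMonoidHom φ.l (fun _ => rfl) W

lemma Sym.w_append (φ : Sym) (U W : Word) : φ.w (U ++ W) = φ.w U ++ φ.w W := by simp [Sym.w]

lemma Sym.w_lt (φ : Sym) {g : G} (h : ell g ≤ 1) : φ.w [lt g] = [lt (φ.φ g)] := by
  simp only [Sym.w, List.map_cons, List.map_nil, List.cons.injEq, and_true]
  apply Subtype.ext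
  rw [lt_val (by rw [φ.ell_eq]; exact h)]
  show φ.φ (lt g).1 = _
  rw [lt_val h]

lemma Cn.sym {N : ℕ} {u v : Word} (φ : Sym) (h : Cn N u v) : Cn N (φ.w u) (φ.w v) :=
  Conn.map φ.φ.toMonoidHom φ.l (fun _ => rfl) h

/-- The word read along a sequence of group elements. -/
def path (f : ℕ → G) (L : ℕ) : Word := (List.range L).map fun i => lt ((f i)⁻¹ * f (i + 1))

@[simp] lemma length_path (f : ℕ → G) (L : ℕ) : (path f L).length = L := by simp [path]

lemma path_succ (f : ℕ → G) (L : ℕ) :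
    path f (L + 1) = path f L ++ [lt ((f L)⁻¹ * f (L + 1))] := by
  simp [path, List.range_succ]

lemma ev_path (f : ℕ → G) (L : ℕ) (hf : ∀ i, i < L → ell ((f i)⁻¹ * f (i + 1)) ≤ 1) :
    ev lv (path f L) = (f 0)⁻¹ * f L := by
  induction L with
  | zero => simp [path]
  | succ L ih =>
    rw [path_succ, ev_append, ih fun i hi => hf i (by omega)]
    simp [lv_lt (hf L (by omega))]

lemma fellow (f f' : ℕ → G) (L : ℕ) (hf : ∀ i, i < L → ell ((f i)⁻¹ * f (i + 1)) ≤ 1)
    (hf' : ∀ i, i < L → ell ((f' i)⁻¹ * f' (i + 1)) ≤ 1)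
    (hc : ∀ i, i ≤ L → ell ((f i)⁻¹ * f' i) ≤ 1) :
    Cn (L + 1) (path f L ++ [lt ((f L)⁻¹ * f' L)]) ([lt ((f 0)⁻¹ * f' 0)] ++ path f' L) := by
  induction L with
  | zero => exact .refl _ (by simp [path])
  | succ L ih =>
    have ih' := ih (fun i hi => hf i (by omega)) (fun i hi => hf' i (by omega))
      (fun i hi => hc i (by omega))
    have h1 : Cn 2 [lt ((f L)⁻¹ * f (L + 1)), lt ((f (L + 1))⁻¹ * f' (L + 1))]
        [lt ((f L)⁻¹ * f' L), lt ((f' L)⁻¹ * f' (L + 1))] := by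
      refine small ?_ (by simp) (by simp) (by simp) (by simp)
      simp [lv_lt (hf L (by omega)), lv_lt (hf' L (by omega)), lv_lt (hc L (by omega)),
        lv_lt (hc (L + 1) le_rfl), mul_assoc]
    have h2 := h1.left (path f L) (M := L + 1 + 1) (by simp; omega)
    have h3 := ih'.right [lt ((f' L)⁻¹ * f' (L + 1))] (M := L + 1 + 1) (by simp)
    rw [path_succ, path_succ]
    exact (h2.cast (by simp) (by simp)).trans (h3.cast rfl (by simp))

lemma arith {C a b c : ℕ} (hC : 1 ≤ C) (h : b + a ≤ c) : C * b + a ≤ C * c := by nlinarith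

/-- The normal forms `T` on the domain `D` absorb the word `B`. -/
def Abs (D : Set G) (T : G → Word) (C : ℕ) (B : Word) : Prop :=
  ∀ h ∈ D, ev lv B * h ∈ D ∧ Cn (C * (B.length + ell h)) (B ++ T h) (T (ev lv B * h))

def Len (D : Set G) (T : G → Word) (C : ℕ) : Prop := ∀ h ∈ D, (T h).length ≤ C * ell h

variable {D : Set G} {T : G → Word} {C : ℕ}

lemma Len.mono {C' : ℕ} (h : Len D T C) (hC : C ≤ C') : Len D T C' :=
  fun g hg => (h g hg).trans (Nat.mul_le_mul_right _ hC)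

lemma Abs.mono {C' : ℕ} {B : Word} (h : Abs D T C B) (hC : C ≤ C') : Abs D T C' B :=
  fun g hg => ⟨(h g hg).1, (h g hg).2.mono (Nat.mul_le_mul_right _ hC)⟩

lemma Abs.nil (hl : Len D T C) : Abs D T C [] := fun g hg => by
  refine ⟨by simpa using hg, ?_⟩
  simpa using Conn.refl _ (hl g hg)

lemma Abs.append {B1 B2 : Word} (hC : 1 ≤ C) (h1 : Abs D T C B1) (h2 : Abs D T C B2) :
    Abs D T C (B1 ++ B2) := fun g hg => by
  obtain ⟨m2, c2⟩ := h2 g hg
  obtain ⟨m1, c1⟩ := h1 _ m2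
  have e : ev lv (B1 ++ B2) * g = ev lv B1 * (ev lv B2 * g) := by simp [mul_assoc]
  rw [e]
  refine ⟨m1, ?_⟩
  have hl := ell_ev_mul B2 g
  have c2' := c2.left B1 (M := C * ((B1 ++ B2).length + ell g))
    (arith hC (by rw [List.length_append]; omega))
  have c1' := c1.mono (M := C * ((B1 ++ B2).length + ell g))
    (Nat.mul_le_mul_left _ (by rw [List.length_append]; omega))
  exact (c2'.cast (by simp) rfl).trans c1'

lemma Abs.of_small {B : Word} {s : Letter} {k : ℕ} (hC : 1 ≤ C) (hl : Len D T C)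
    (h : Abs D T C B) (e : lv s = ev lv B) (hk : B.length ≤ k) (hk1 : 1 ≤ k) (hk2 : k ≤ 1000000) :
    Abs D T (C * k) [s] := fun g hg => by
  obtain ⟨m, c⟩ := h g hg
  have e' : ev lv [s] = ev lv B := by simp [e]
  rw [e']
  refine ⟨m, ?_⟩
  have h1 : Cn k [s] B := small e' (by simp) (by omega) (by simpa using hk1) hk
  have hl' := hl g hg
  have hb : ell g + k ≤ k * (1 + ell g) := by nlinarith
  have h2 := h1.right (T g) (M := C * k * ([s].length + ell g)) (by
    rw [mul_assoc]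
    have := arith hC hb
    simp only [List.length_singleton]
    omega)
  refine h2.trans (c.mono ?_)
  rw [mul_assoc]
  exact Nat.mul_le_mul_left _ (by simp only [List.length_singleton]; omega)

lemma Abs.inv {s : Letter} (hC : 1 ≤ C) (hl : Len D T C) (h : Abs D T C [s])
    (hD : ∀ g ∈ D, (lv s)⁻¹ * g ∈ D) : Abs D T (C * 3) [linv s] := fun g hg => by
  have e : ev lv [linv s] * g = (lv s)⁻¹ * g := by simp [lv_linv]
  rw [e]
  refine ⟨hD g hg, ?_⟩
  obtain ⟨-, c⟩ := h _ (hD g hg)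
  have e2 : ev lv [s] * ((lv s)⁻¹ * g) = g := by simp
  rw [e2] at c
  have hb : ell ((lv s)⁻¹ * g) ≤ 1 + ell g := by
    have := ell_mul (lv s)⁻¹ g
    have := ell_lv s
    rw [ell_inv] at *
    omega
  have hl' := hl _ (hD g hg)
  have c1 := c.symm.left [linv s] (M := C * 3 * ([linv s].length + ell g)) (by
    rw [mul_assoc]
    exact arith hC (by simp only [List.length_singleton]; omega))
  have c2 : Cn 2 [linv s, s] [] :=
    small (by simp [lv_linv]) (by simp) (by simp) (by simp) (by simp)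
  have c3 := c2.right (T ((lv s)⁻¹ * g)) (M := C * 3 * ([linv s].length + ell g)) (by
    rw [mul_assoc]
    have := arith hC (show ell ((lv s)⁻¹ * g) + 2 ≤ 3 * ([linv s].length + ell g) by
      simp only [List.length_singleton]; omega)
    omega)
  exact c1.trans (c3.cast (by simp) (by simp))

attribute [irreducible] ell lt path winv

end Pool.Agent.H412Z.FL
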