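import Pool.Agent.H412Z.FL2

set_option autoImplicit false

namespace Pool.Agent.H412Z.FL

/-- The unipotent matrices with last row `(r.1, r.2, 1)`. -/
def u (r : ℤ × ℤ) : G := ⟨!![1, 0, 0; 0, 1, 0; r.1, r.2, 1], by simp [Matrix.det_fin_three]⟩

lemma u_add (r s : ℤ × ℤ) : u (r + s) = u r * u s := by
  apply ext9 <;> simp [mul_ap, u, add_comm]

lemma u_zero : u 0 = 1 := by decide

lemma u_neg (r : ℤ × ℤ) : u (-r) = (u r)⁻¹ := by
  rw [eq_inv_iff_mul_eq_one, ← u_add, neg_add_cancel, u_zero]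

lemma nu_u (r : ℤ × ℤ) : nu (u r) = 3 + r.1.natAbs + r.2.natAbs := by
  rw [nu_eq]; simp [u]; omega

lemma ell_u_le {r : ℤ × ℤ} {n : ℕ} (hn : 1 ≤ n) (h : 3 + r.1.natAbs + r.2.natAbs ≤ 64 ^ n) :
    ell (u r) ≤ n :=
  ell_le hn (by rwa [nu_u]) (by rw [← u_neg, nu_u]; simpa using h)

lemma ell_u_mono {r s : ℤ × ℤ} (h1 : r.1.natAbs ≤ s.1.natAbs) (h2 : r.2.natAbs ≤ s.2.natAbs) :
    ell (u r) ≤ ell (u s) := by
  refine ell_u_le (one_le_ell _) ?_
  have := nu_le (u s)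
  rw [nu_u] at this
  omega

/-- The upper left block embedding. -/
def io : G2 →* G where
  toFun M := ⟨!![M.1 0 0, M.1 0 1, 0; M.1 1 0, M.1 1 1, 0; 0, 0, 1], by
    simpa [Matrix.det_fin_three] using det2 M⟩
  map_one' := by decide
  map_mul' M N := by apply ext9 <;> simp [mul_ap, mul_ap2, -Matrix.SpecialLinearGroup.coe_mul]

lemma io_val (M : G2) : (io M).1 = !![M.1 0 0, M.1 0 1, 0; M.1 1 0, M.1 1 1, 0; 0, 0, 1] := rfl

def act (r : ℤ × ℤ) (M : G2) : ℤ × ℤ :=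
  (r.1 * M.1 0 0 + r.2 * M.1 1 0, r.1 * M.1 0 1 + r.2 * M.1 1 1)

lemma u_io (r : ℤ × ℤ) (M : G2) : u r * io M = io M * u (act r M) := by
  apply ext9 <;> simp [mul_ap, u, io_val, act, -Matrix.SpecialLinearGroup.coe_mul]

lemma act_add (r s : ℤ × ℤ) (M : G2) : act (r + s) M = act r M + act s M := by
  simp only [act, Prod.fst_add, Prod.snd_add, Prod.mk_add_mk, Prod.mk.injEq]
  constructor <;> ring

def A : G2 := ⟨!![2, 1; 1, 1], by decide⟩

def t : G := io A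

def Tm (v : ℝ × ℝ) : ℝ × ℝ := (2 * v.1 + v.2, v.1 + v.2)

noncomputable def fl (v : ℝ × ℝ) : ℤ × ℤ := (⌊v.1⌋, ⌊v.2⌋)

def rr (r : ℤ × ℤ) : ℝ × ℝ := (r.1, r.2)

lemma fl_rr (r : ℤ × ℤ) : fl (rr r) = r := by simp [fl, rr]

lemma stepT (v : ℝ × ℝ) : ell ((u (fl v))⁻¹ * t * u (fl (Tm v))) ≤ 1 := by
  have e : (u (fl v))⁻¹ * t * u (fl (Tm v)) = t * u (act (-fl v) A + fl (Tm v)) := by
    rw [← u_neg, t, u_io, u_add, mul_assoc]
  have h1 := Int.floor_le v.1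
  have h2 := Int.floor_le v.2
  have h3 := Int.lt_floor_add_one v.1
  have h4 := Int.lt_floor_add_one v.2
  have a1 : 2 * ⌊v.1⌋ + ⌊v.2⌋ ≤ ⌊2 * v.1 + v.2⌋ := Int.le_floor.2 (by push_cast; linarith)
  have a2 : ⌊2 * v.1 + v.2⌋ < 2 * ⌊v.1⌋ + ⌊v.2⌋ + 3 := Int.floor_lt.2 (by push_cast; linarith)
  have a3 : ⌊v.1⌋ + ⌊v.2⌋ ≤ ⌊v.1 + v.2⌋ := Int.le_floor.2 (by push_cast; linarith)
  have a4 : ⌊v.1 + v.2⌋ < ⌊v.1⌋ + ⌊v.2⌋ + 2 := Int.floor_lt.2 (by push_cast; linarith)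
  have hb : (act (-fl v) A + fl (Tm v)).1.natAbs + (act (-fl v) A + fl (Tm v)).2.natAbs ≤ 3 := by
    simp [act, A, fl, Tm]
    omega
  have n1 : nu t = 6 := by decide
  have n2 : nu t⁻¹ = 6 := by decide
  rw [e]
  refine ell_le le_rfl ((nu_mul _ _).trans ?_) ?_
  · rw [n1, nu_u]; omega
  · rw [mul_inv_rev, ← u_neg]
    refine (nu_mul _ _).trans ?_
    rw [n2, nu_u, Prod.fst_neg, Prod.snd_neg, Int.natAbs_neg, Int.natAbs_neg]; omega

lemma floor_close {a b : ℝ} (h : |a - b| ≤ 1) : (⌊a⌋ - ⌊b⌋).natAbs ≤ 1 := by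
  obtain ⟨h1, h2⟩ := abs_le.1 h
  have a1 : ⌊a⌋ ≤ ⌊b⌋ + 1 := by
    rw [← Int.floor_add_one]; exact Int.floor_mono (by linarith)
  have a2 : ⌊b⌋ ≤ ⌊a⌋ + 1 := by
    rw [← Int.floor_add_one]; exact Int.floor_mono (by linarith)
  omega

lemma close {v v' : ℝ × ℝ} (h1 : |(v' - v).1| ≤ 1) (h2 : |(v' - v).2| ≤ 1) :
    ell ((u (fl v))⁻¹ * u (fl v')) ≤ 1 := by
  rw [← u_neg, ← u_add]
  have a1 := floor_close h1
  have a2 := floor_close h2
  refine ell_u_le le_rfl ?_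
  simp only [fl, Prod.neg_mk, Prod.mk_add_mk]
  omega

lemma iter_form (n : ℕ) : ∃ q s : ℝ, (∀ v : ℝ × ℝ, Tm^[n] v =
    ((q + s) * v.1 + q * v.2, q * v.1 + s * v.2)) ∧ (q + s) * s - q ^ 2 = 1 ∧ 0 ≤ q ∧ 0 ≤ s ∧
    2 ^ n ≤ q + s := by
  induction n with
  | zero => exact ⟨0, 1, fun v => by simp, by norm_num, le_rfl, by norm_num, by norm_num⟩
  | succ n ih =>
    obtain ⟨q, s, h1, h2, h3, h4, h5⟩ := ih
    refine ⟨2 * q + s, q + s, fun v => ?_, by nlinarith, by linarith, by linarith,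
      by rw [pow_succ]; linarith⟩
    rw [Function.iterate_succ_apply', h1]
    simp only [Tm, Prod.mk.injEq]
    constructor <;> ring

noncomputable def tau (H : ℕ) : ℝ := (Tm^[H] (1, 0)).1 + (Tm^[H] (0, 1)).2

lemma le_tau (H : ℕ) : 2 ^ H ≤ tau H := by
  obtain ⟨q, s, h1, -, -, h4, h5⟩ := iter_form H
  simp only [tau, h1]
  linarith

lemma iter_tau (H : ℕ) (w : ℝ × ℝ) : Tm^[H] (tau H • w) = Tm^[2 * H] w + w := by
  obtain ⟨q, s, h1, h2, -⟩ := iter_form H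
  rw [two_mul, Function.iterate_add_apply]
  simp only [tau, h1, Prod.smul_fst, Prod.smul_snd, smul_eq_mul]
  ext
  · simp only [Prod.fst_add]; linear_combination (w.1) * h2
  · simp only [Prod.snd_add]; linear_combination (w.2) * h2

lemma iter_sub (n : ℕ) (v w : ℝ × ℝ) : Tm^[n] v - Tm^[n] w = Tm^[n] (v - w) := by
  obtain ⟨q, s, h1, -⟩ := iter_form n
  simp only [h1, Prod.mk_sub_mk, Prod.fst_sub, Prod.snd_sub, Prod.mk.injEq]
  constructor <;> ring

lemma iter_bound (n : ℕ) {v : ℝ × ℝ} {c : ℝ} (h1 : |v.1| ≤ c) (h2 : |v.2| ≤ c) :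
    |(Tm^[n] v).1| ≤ 3 ^ n * c ∧ |(Tm^[n] v).2| ≤ 3 ^ n * c := by
  induction n with
  | zero => simpa using ⟨h1, h2⟩
  | succ n ih =>
    rw [Function.iterate_succ_apply', pow_succ]
    obtain ⟨a1, a2⟩ := ih
    have := abs_nonneg (Tm^[n] v).1
    rw [abs_le] at a1 a2
    simp only [Tm, abs_le]
    refine ⟨⟨by linarith, by linarith⟩, by linarith, by linarith⟩

def J (H i : ℕ) : ℤ :=
  if i ≤ H then -(i : ℤ) else if i ≤ 3 * H + 1 then (i : ℤ) - (2 * H + 1) else 4 * H + 2 - i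

noncomputable def Bf (H : ℕ) (z : ℝ × ℝ) (i : ℕ) : ℝ × ℝ :=
  if i ≤ H then 0 else if i ≤ 3 * H + 1 then Tm^[i - (H + 1)] ((tau H)⁻¹ • z)
  else Tm^[4 * H + 2 - i] z

noncomputable def pf (H : ℕ) (z : ℝ × ℝ) (i : ℕ) : G := t ^ J H i * u (fl (Bf H z i))

lemma pf_same {a b : ℤ} (x y : G) (h : b = a) : (t ^ a * x)⁻¹ * (t ^ b * y) = x⁻¹ * y := by
  subst h; group

lemma pf_up {a b : ℤ} (x y : G) (h : b = a + 1) :
    (t ^ a * x)⁻¹ * (t ^ b * y) = x⁻¹ * t * y := by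
  subst h; group

lemma pf_down {a b : ℤ} (x y : G) (h : a = b + 1) :
    (t ^ a * x)⁻¹ * (t ^ b * y) = (y⁻¹ * t * x)⁻¹ := by
  subst h; group

lemma tau_pos (H : ℕ) : 1 ≤ tau H := le_trans (one_le_pow₀ (by norm_num)) (le_tau H)

lemma pf_step (H : ℕ) {z : ℝ × ℝ} (h1 : |z.1| ≤ 2 ^ H) (h2 : |z.2| ≤ 2 ^ H) (i : ℕ)
    (hi : i < 4 * H + 2) : ell ((pf H z i)⁻¹ * pf H z (i + 1)) ≤ 1 := by
  have hτ := le_tau H
  have hτ1 := tau_pos H
  have hw : ∀ x : ℝ, |x| ≤ 2 ^ H → |(tau H)⁻¹ * x| ≤ 1 := by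
    intro x hx
    rw [abs_mul, abs_inv, abs_of_pos (by linarith), inv_mul_le_iff₀ (by linarith)]
    linarith
  unfold pf
  rcases lt_trichotomy i H with h | h | h
  · rw [pf_down _ _ (by simp only [J]; split_ifs <;> omega), ell_inv]
    have e1 : Bf H z i = Tm 0 := by simp [Bf, h.le, Tm]; rfl
    have e2 : Bf H z (i + 1) = 0 := by simp [Bf, show i + 1 ≤ H by omega]
    rw [e1, e2]; exact stepT 0
  · rw [pf_same _ _ (by simp only [J]; split_ifs <;> omega)]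
    have e1 : Bf H z i = 0 := by simp [Bf, h.le]
    have e2 : Bf H z (i + 1) = (tau H)⁻¹ • z := by
      subst h; simp only [Bf]
      rw [if_neg (by omega), if_pos (by omega), Nat.sub_self]; rfl
    rw [e1, e2]
    exact close (by simpa using hw _ h1) (by simpa using hw _ h2)
  rcases lt_trichotomy i (3 * H + 1) with h' | h' | h'
  · rw [pf_up _ _ (by simp only [J]; split_ifs <;> omega)]
    have e2 : Bf H z (i + 1) = Tm (Bf H z i) := by
      simp only [Bf]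
      rw [if_neg (by omega), if_pos (by omega), if_neg (by omega), if_pos (by omega),
        show i + 1 - (H + 1) = (i - (H + 1)) + 1 by omega, Function.iterate_succ_apply']
    rw [e2]; exact stepT _
  · rw [pf_same _ _ (by simp only [J]; split_ifs <;> omega)]
    have e1 : Bf H z i = Tm^[2 * H] ((tau H)⁻¹ • z) := by
      simp only [Bf]
      rw [if_neg (by omega), if_pos (by omega), show i - (H + 1) = 2 * H by omega]
    have e2 : Bf H z (i + 1) = Tm^[2 * H] ((tau H)⁻¹ • z) + (tau H)⁻¹ • z := by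
      simp only [Bf]
      rw [if_neg (by omega), if_neg (by omega), show 4 * H + 2 - (i + 1) = H by omega,
        ← iter_tau, smul_smul, mul_inv_cancel₀ (by linarith), one_smul]
    rw [e1, e2]
    exact close (by simpa using hw _ h1) (by simpa using hw _ h2)
  · rw [pf_down _ _ (by simp only [J]; split_ifs <;> omega), ell_inv]
    have e2 : Bf H z i = Tm (Bf H z (i + 1)) := by
      simp only [Bf]
      rw [if_neg (by omega), if_neg (by omega), if_neg (by omega), if_neg (by omega),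
        show 4 * H + 2 - i = (4 * H + 2 - (i + 1)) + 1 by omega, Function.iterate_succ_apply']
    rw [e2]; exact stepT _

lemma pf_close (H : ℕ) {z z' : ℝ × ℝ} (h1 : |(z' - z).1| ≤ 1 / 9 ^ H)
    (h2 : |(z' - z).2| ≤ 1 / 9 ^ H) (i : ℕ) : ell ((pf H z i)⁻¹ * pf H z' i) ≤ 1 := by
  have hτ1 := tau_pos H
  have hp : ∀ n, n ≤ 2 * H → (3 : ℝ) ^ n * (1 / 9 ^ H) ≤ 1 := by
    intro n hn
    rw [mul_one_div, div_le_one (by positivity), show (9 : ℝ) = 3 ^ 2 by norm_num, ← pow_mul]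
    exact pow_le_pow_right₀ (by norm_num) hn
  have hw : ∀ x : ℝ, |x| ≤ 1 / 9 ^ H → |(tau H)⁻¹ * x| ≤ 1 / 9 ^ H := by
    intro x hx
    rw [abs_mul, abs_inv, abs_of_pos (by linarith), inv_mul_le_iff₀ (by linarith)]
    have : (0 : ℝ) ≤ 1 / 9 ^ H := by positivity
    nlinarith
  unfold pf
  rw [pf_same _ _ rfl]
  simp only [Bf]
  split_ifs with c1 c2
  · exact close (by simp) (by simp)
  · have := iter_bound (i - (H + 1)) (v := (tau H)⁻¹ • z' - (tau H)⁻¹ • z) (c := 1 / 9 ^ H)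
      (by rw [← smul_sub]; exact hw _ h1) (by rw [← smul_sub]; exact hw _ h2)
    rw [← iter_sub] at this
    have := hp (i - (H + 1)) (by omega)
    exact close (by linarith) (by linarith)
  · have := iter_bound (4 * H + 2 - i) h1 h2
    rw [← iter_sub] at this
    have := hp (4 * H + 2 - i) (by omega)
    exact close (by linarith) (by linarith)

lemma pf_zero (H : ℕ) (z : ℝ × ℝ) : pf H z 0 = 1 := by
  have : fl 0 = 0 := by simp [fl]
  simp [pf, J, Bf, this, u_zero]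

lemma pf_last (H : ℕ) (z : ℝ × ℝ) : pf H z (4 * H + 2) = u (fl z) := by
  simp only [pf, J, Bf]
  rw [if_neg (by omega), if_neg (by omega), if_neg (by omega), if_neg (by omega), Nat.sub_self]
  simp

/-- The short word through the solvable subgroup. -/
noncomputable def hw (H : ℕ) (z : ℝ × ℝ) : Word := path (pf H z) (4 * H + 2)

lemma length_hw (H : ℕ) (z : ℝ × ℝ) : (hw H z).length = 4 * H + 2 := by simp [hw]

def In (H : ℕ) (r : ℤ × ℤ) : Prop := r.1.natAbs ≤ 2 ^ H ∧ r.2.natAbs ≤ 2 ^ H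

lemma cast_le {a : ℤ} {H : ℕ} (h : a.natAbs ≤ 2 ^ H) : |(a : ℝ)| ≤ 2 ^ H := by
  have : |a| ≤ 2 ^ H := by rw [← Int.natCast_natAbs]; exact_mod_cast h
  exact_mod_cast this

lemma ev_hw {H : ℕ} {r : ℤ × ℤ} (h : In H r) : ev lv (hw H (rr r)) = u r := by
  rw [hw, ev_path _ _ (pf_step H (cast_le h.1) (cast_le h.2)), pf_zero, pf_last, fl_rr]
  simp

lemma hw_inc {H : ℕ} {r δ : ℤ × ℤ} (hr : In H r) (hr' : In H (r + δ)) (hδ : In 0 δ) :
    Cn (4 * H + 4) (hw H (rr r) ++ [lt (u δ)]) (hw H (rr (r + δ))) := by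
  have hN : (0 : ℝ) < 9 ^ H := by positivity
  set z : ℕ → ℝ × ℝ := fun i => rr r + ((i : ℝ) / 9 ^ H) • rr δ with hz
  have conv : ∀ (a d : ℤ) (s : ℝ), 0 ≤ s → s ≤ 1 → a.natAbs ≤ 2 ^ H → (a + d).natAbs ≤ 2 ^ H →
      d.natAbs ≤ 2 ^ 0 → |(a : ℝ) + s * d| ≤ 2 ^ H ∧ (a + d - ⌊(a : ℝ) + s * d⌋).natAbs ≤ 1 := by
    intro a d s s0 s1 ha had hd
    have b1 := abs_le.1 (cast_le ha)
    have b2 := abs_le.1 (cast_le had)
    have b3 := abs_le.1 (cast_le hd)
    push_cast at b2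
    refine ⟨abs_le.2 ⟨by nlinarith, by nlinarith⟩, ?_⟩
    have := floor_close (a := ((a + d : ℤ) : ℝ)) (b := (a : ℝ) + s * d)
      (abs_le.2 ⟨by push_cast; nlinarith, by push_cast; nlinarith⟩)
    rwa [Int.floor_intCast] at this
  have hzi : ∀ i, i ≤ 9 ^ H → (|(z i).1| ≤ 2 ^ H ∧ |(z i).2| ≤ 2 ^ H) ∧
      ell (u (r + δ - fl (z i))) ≤ 1 := by
    intro i hi
    have s0 : (0 : ℝ) ≤ (i : ℝ) / 9 ^ H := by positivity
    have s1 : (i : ℝ) / 9 ^ H ≤ 1 := by rw [div_le_one hN]; exact_mod_cast hi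
    have c1 := conv r.1 δ.1 _ s0 s1 hr.1 hr'.1 hδ.1
    have c2 := conv r.2 δ.2 _ s0 s1 hr.2 hr'.2 hδ.2
    refine ⟨⟨c1.1, c2.1⟩, ell_u_le le_rfl ?_⟩
    have d1 : (r + δ - fl (z i)).1.natAbs ≤ 1 := c1.2
    have d2 : (r + δ - fl (z i)).2.natAbs ≤ 1 := c2.2
    omega
  have main := sweep_nat (val := lv) (κ := 1000000) (N := 4 * H + 4)
    (fun i => hw H (z i) ++ [lt (u (r + δ - fl (z i)))]) (9 ^ H) (by simp [length_hw])
    fun i hi => by
      obtain ⟨⟨p1, p2⟩, p3⟩ := hzi i hi.le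
      obtain ⟨⟨q1, q2⟩, q3⟩ := hzi (i + 1) hi
      have hd : z (i + 1) - z i = (1 / 9 ^ H : ℝ) • rr δ := by
        simp only [hz]
        rw [add_sub_add_left_eq_sub, ← sub_smul]
        congr 1; push_cast; ring
      have hdb : ∀ d : ℤ, d.natAbs ≤ 2 ^ 0 → |(1 / 9 ^ H : ℝ) * d| ≤ 1 / 9 ^ H := by
        intro d hd
        rw [abs_mul, abs_of_pos (by positivity)]
        have := cast_le hd
        have : (0 : ℝ) < 1 / 9 ^ H := by positivity
        nlinarith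
      have hc := pf_close H (z := z i) (z' := z (i + 1)) (by rw [hd]; exact hdb _ hδ.1)
        (by rw [hd]; exact hdb _ hδ.2)
      have f1 := fellow _ _ (4 * H + 2) (pf_step H p1 p2) (pf_step H q1 q2) fun j _ => hc j
      have hl := hc (4 * H + 2)
      rw [pf_last, pf_last] at hl
      rw [pf_last, pf_last, pf_zero, pf_zero] at f1
      have s1 : Cn 2 [lt (u (r + δ - fl (z i)))]
          ([lt ((u (fl (z i)))⁻¹ * u (fl (z (i + 1))))] ++ [lt (u (r + δ - fl (z (i + 1))))]) := by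
        refine small ?_ (by simp) (by simp) (by simp) (by simp)
        simp only [ev_cons, ev_append, ev_nil, lv_lt hl, lv_lt p3, lv_lt q3, mul_one]
        rw [← u_neg, ← u_add, ← u_add]
        congr 1; abel
      have s2 : Cn 1 [lt (1⁻¹ * 1)] [] :=
        small (by simp [lv_lt ell_one.le]) (by simp) (by simp) (by simp) (by simp)
      refine (s1.left (hw H (z i)) (by rw [length_hw]; omega)).trans ?_
      rw [← List.append_assoc]
      refine (f1.right _ (by simp)).trans ?_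
      exact ((s2.right (hw H (z (i + 1))) le_rfl).right _ (by simp [length_hw]; omega))
  have e0 : z 0 = rr r := by simp [hz]
  have e1 : z (9 ^ H) = rr (r + δ) := by
    simp only [hz]
    rw [show (((9 ^ H : ℕ) : ℝ)) / 9 ^ H = 1 by push_cast; exact div_self hN.ne', one_smul]
    simp [rr]
  simp only [e0, e1, fl_rr, add_sub_cancel_left, sub_self, u_zero] at main
  have s2 : Cn 1 [lt 1] [] :=
    small (by simp [lv_lt ell_one.le]) (by simp) (by simp) (by simp) (by simp)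
  exact main.trans ((s2.left (hw H (rr (r + δ))) (by rw [length_hw]; omega)).cast rfl (by simp))

attribute [irreducible] hw pf

end Pool.Agent.H412Z.FL
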