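import Pool.Agent.H412Z.FL3

set_option autoImplicit false

namespace Pool.Agent.H412Z.FL

noncomputable def UH (H : ℕ) (r : ℤ × ℤ) : Word := winv (hw H (rr 0)) ++ hw H (rr r)

noncomputable def VH (H : ℕ) (r : ℤ × ℤ) : Word := winv (UH H (-r))

lemma length_UH (H : ℕ) (r : ℤ × ℤ) : (UH H r).length = 8 * H + 4 := by
  simp [UH, length_hw]; omega

lemma length_VH (H : ℕ) (r : ℤ × ℤ) : (VH H r).length = 8 * H + 4 := by
  simp [VH, length_UH]

lemma In.zero (H : ℕ) : In H 0 := by simp [In]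

lemma In.neg {H : ℕ} {r : ℤ × ℤ} (h : In H r) : In H (-r) := by simpa [In] using h

lemma ev_UH {H : ℕ} {r : ℤ × ℤ} (h : In H r) : ev lv (UH H r) = u r := by
  rw [UH, ev_append, ev_winv, ev_hw h, ev_hw (In.zero H), u_zero]; simp

lemma UH_zero (H : ℕ) : Cn (8 * H + 4) (UH H 0) [] :=
  (cancel _).mono (by rw [length_hw]; omega)

lemma VH_zero (H : ℕ) : Cn (8 * H + 4) (VH H 0) [] := by
  have := (UH_zero H).winv
  rw [winv_nil] at this
  rw [VH, neg_zero]; exact this

lemma ell_unit {δ : ℤ × ℤ} (hδ : In 0 δ) : ell (u δ) ≤ 1 :=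
  ell_u_le le_rfl (by have := hδ.1; have := hδ.2; omega)

lemma UH_inc {H : ℕ} {r δ : ℤ × ℤ} (hr : In H r) (hr' : In H (r + δ)) (hδ : In 0 δ) :
    Cn (8 * H + 6) (UH H r ++ [lt (u δ)]) (UH H (r + δ)) :=
  ((hw_inc hr hr' hδ).left (winv (hw H (rr 0))) (by simp [length_hw]; omega)).cast
    (by simp [UH]) rfl

lemma VH_inc {H : ℕ} {r δ : ℤ × ℤ} (hr : In H r) (hr' : In H (r + δ)) (hδ : In 0 δ) :
    Cn (8 * H + 6) ([lt (u δ)] ++ VH H r) (VH H (r + δ)) := by
  have := (UH_inc (r := -r) (δ := -δ) hr.neg (by rw [← neg_add]; exact hr'.neg) hδ.neg).winv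
  rw [winv_append, ← neg_add, winv_single, linv_lt (ell_unit hδ.neg), ← u_neg, neg_neg] at this
  unfold VH
  exact this

attribute [irreducible] UH VH

def Box (r s : ℤ × ℤ) : Prop := s.1.natAbs ≤ r.1.natAbs ∧ s.2.natAbs ≤ r.2.natAbs

lemma transfer (Aw Bw : ℤ × ℤ → Word) (a1 a2 : Word) (r : ℤ × ℤ) (N1 N2 : ℕ)
    (hA1 : ∀ s, Box r s → Box r (s + (1, 0)) → Cn N1 (Aw s ++ a1) (Aw (s + (1, 0))))
    (hA2 : ∀ s, Box r s → Box r (s + (0, 1)) → Cn N1 (Aw s ++ a2) (Aw (s + (0, 1))))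
    (hB1 : ∀ s, Box r s → Box r (s + (1, 0)) → Cn N2 (a1 ++ Bw s) (Bw (s + (1, 0))))
    (hB2 : ∀ s, Box r s → Box r (s + (0, 1)) → Cn N2 (a2 ++ Bw s) (Bw (s + (0, 1))))
    (lA : ∀ s, Box r s → (Aw s).length ≤ N1) (lB : ∀ s, Box r s → (Bw s).length ≤ N2) :
    Cn (N1 + N2) (Aw r ++ Bw 0) (Aw 0 ++ Bw r) := by
  obtain ⟨x, y⟩ := r
  have s1 := sweep (val := lv) (κ := 1000000) (N := N1 + N2)
    (fun i => Aw (x - i, y) ++ Bw (i, 0)) x (by
      have := lA (x - 0, y) (by simp [Box]); have := lB (0, 0) (by simp [Box])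
      rw [List.length_append]; omega) fun i hi => by
      have b1 : Box (x, y) (x - (i + 1), y) := by simp only [Box]; omega
      have b2 : Box (x, y) ((x - (i + 1), y) + (1, 0)) := by
        simp only [Box, Prod.mk_add_mk]; omega
      have b3 : Box (x, y) (i, 0) := by simp only [Box]; omega
      have b4 : Box (x, y) ((i, 0) + (1, 0)) := by simp only [Box, Prod.mk_add_mk]; omega
      have c1 := (hA1 _ b1 b2).symm.right (Bw (i, 0)) (M := N1 + N2) (by have := lB _ b3; omega)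
      have c2 := (hB1 _ b3 b4).left (Aw (x - (i + 1), y)) (M := N1 + N2)
        (by have := lA _ b1; omega)
      rw [show ((x - (i + 1), y) + (1, 0) : ℤ × ℤ) = (x - i, y) by
        ext <;> simp only [Prod.fst_add, Prod.snd_add] <;> ring] at c1
      exact c1.trans (c2.cast (by simp) (by simp))
  have s2 := sweep (val := lv) (κ := 1000000) (N := N1 + N2)
    (fun i => Aw (0, y - i) ++ Bw (x, i)) y (by
      have := lA (0, y - 0) (by simp [Box]); have := lB (x, 0) (by simp [Box])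
      rw [List.length_append]; omega) fun i hi => by
      have b1 : Box (x, y) (0, y - (i + 1)) := by simp only [Box]; omega
      have b2 : Box (x, y) ((0, y - (i + 1)) + (0, 1)) := by
        simp only [Box, Prod.mk_add_mk]; omega
      have b3 : Box (x, y) (x, i) := by simp only [Box]; omega
      have b4 : Box (x, y) ((x, i) + (0, 1)) := by simp only [Box, Prod.mk_add_mk]; omega
      have c1 := (hA2 _ b1 b2).symm.right (Bw (x, i)) (M := N1 + N2) (by have := lB _ b3; omega)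
      have c2 := (hB2 _ b3 b4).left (Aw (0, y - (i + 1))) (M := N1 + N2)
        (by have := lA _ b1; omega)
      rw [show ((0, y - (i + 1)) + (0, 1) : ℤ × ℤ) = (0, y - i) by
        ext <;> simp only [Prod.fst_add, Prod.snd_add] <;> ring] at c1
      exact c1.trans (c2.cast (by simp) (by simp))
  simp only [sub_zero, sub_self] at s1 s2
  exact s1.trans s2

lemma In.box {H : ℕ} {r s : ℤ × ℤ} (h : In H r) (b : Box r s) : In H s :=
  ⟨b.1.trans h.1, b.2.trans h.2⟩

lemma In.e1 : In 0 (1, 0) := by simp [In]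
lemma In.e2 : In 0 (0, 1) := by simp [In]

lemma UH_VH {H H' : ℕ} {r : ℤ × ℤ} (h : In H r) (h' : In H' r) :
    Cn (8 * H + 8 * H' + 12) (UH H r) (VH H' r) := by
  have := transfer (UH H) (VH H') _ _ r (8 * H + 6) (8 * H' + 6)
    (fun s b1 b2 => UH_inc (h.box b1) (h.box b2) In.e1)
    (fun s b1 b2 => UH_inc (h.box b1) (h.box b2) In.e2)
    (fun s b1 b2 => VH_inc (h'.box b1) (h'.box b2) In.e1)
    (fun s b1 b2 => VH_inc (h'.box b1) (h'.box b2) In.e2)
    (fun s _ => by rw [length_UH]; omega) (fun s _ => by rw [length_VH]; omega)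
  have c1 := (VH_zero H').symm.left (UH H r) (M := 8 * H + 8 * H' + 12)
    (by rw [length_UH]; omega)
  have c2 := (UH_zero H).right (VH H' r) (M := 8 * H + 8 * H' + 12) (by rw [length_VH]; omega)
  exact ((c1.cast (by simp) rfl).trans (this.mono (by omega))).trans c2

def Hs (r : ℤ × ℤ) : ℕ := Nat.clog 2 (max r.1.natAbs r.2.natAbs)

lemma Hs_le_iff {r : ℤ × ℤ} {H : ℕ} : Hs r ≤ H ↔ In H r := by
  rw [Hs, Nat.clog_le_iff_le_pow (by norm_num)]
  simp [In]

lemma In_Hs (r : ℤ × ℤ) : In (Hs r) r := Hs_le_iff.1 le_rfl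

lemma In.mono {H H' : ℕ} {r : ℤ × ℤ} (h : In H r) (hH : H ≤ H') : In H' r :=
  Hs_le_iff.1 ((Hs_le_iff.2 h).trans hH)

lemma Hs_le (r : ℤ × ℤ) : Hs r ≤ 6 * ell (u r) := by
  have := nu_le (u r)
  rw [nu_u, show (64 : ℕ) = 2 ^ 6 by norm_num, ← pow_mul] at this
  exact Hs_le_iff.2 ⟨by omega, by omega⟩

/-- Short words for the unipotent elements. -/
noncomputable def U (r : ℤ × ℤ) : Word := UH (Hs r) r

lemma ev_U (r : ℤ × ℤ) : ev lv (U r) = u r := ev_UH (In_Hs r)

lemma length_U' (r : ℤ × ℤ) : (U r).length = 8 * Hs r + 4 := length_UH _ _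

lemma length_U (r : ℤ × ℤ) : (U r).length ≤ 52 * ell (u r) := by
  have := Hs_le r
  have := one_le_ell (u r)
  rw [length_U']; omega

lemma U_zero : Cn 4 (U 0) [] := by
  have : Hs 0 = 0 := by simp [Hs]
  have h := UH_zero 0
  rw [U, this]; exact h

attribute [irreducible] Hs

lemma U_inc {r δ : ℤ × ℤ} (hδ : In 0 δ) :
    Cn (110 * (ell (u r) + 1)) (U r ++ [lt (u δ)]) (U (r + δ)) ∧
    Cn (110 * (ell (u r) + 1)) ([lt (u δ)] ++ U r) (U (r + δ)) := by
  have h1 := Hs_le r
  have h2 := Hs_le (r + δ)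
  have h3 : ell (u (r + δ)) ≤ ell (u r) + 1 := by
    rw [u_add]; exact (ell_mul _ _).trans (Nat.add_le_add_left (ell_unit hδ) _)
  set H := 6 * (ell (u r) + 1) with hH
  have i1 : In H r := (In_Hs r).mono (by omega)
  have i2 : In H (r + δ) := (In_Hs _).mono (by omega)
  have a1 : Cn (16 * H + 12) (U r) (VH H r) := (UH_VH (In_Hs r) i1).mono (by omega)
  have a2 : Cn (16 * H + 12) (U (r + δ)) (VH H (r + δ)) := (UH_VH (In_Hs _) i2).mono (by omega)
  have b1 : Cn (16 * H + 12) (UH H r) (VH H r) := (UH_VH i1 i1).mono (by omega)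
  have b2 : Cn (16 * H + 12) (UH H (r + δ)) (VH H (r + δ)) := (UH_VH i2 i2).mono (by omega)
  constructor
  · exact (((a1.trans b1.symm).right _ (by simp; omega)).trans
      ((UH_inc i1 i2 hδ).mono (by omega))).trans ((b2.trans a2.symm).mono (by omega))
  · exact ((a1.left _ (by simp; omega)).trans
      ((VH_inc i1 i2 hδ).mono (by omega))).trans (a2.symm.mono (by omega))

attribute [irreducible] U

lemma absU {D : Set G} {T : G → Word} {C : ℕ} (φ : Sym) (r : ℤ × ℤ) (hC : 1 ≤ C)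
    (hl : Len D T C) (hD : ∀ s, Box r s → ∀ h ∈ D, φ.φ (u s) * h ∈ D)
    (h1 : r.1 ≠ 0 → Abs D T C [lt (φ.φ (u (1, 0)))])
    (h2 : r.2 ≠ 0 → Abs D T C [lt (φ.φ (u (0, 1)))]) : Abs D T (C * 300) (φ.w (U r)) := by
  intro h hh
  rw [φ.ev_w, ev_U]
  refine ⟨hD r ⟨le_rfl, le_rfl⟩ h hh, ?_⟩
  have hr : ell (u r) ≤ (U r).length + 1 := by rw [← ev_U]; exact ell_ev _
  have hs : ∀ s, Box r s → ell (u s) ≤ ell (u r) := fun s b => ell_u_mono b.1 b.2
  have hs' : ∀ s, Box r s → ell (φ.φ (u s) * h) ≤ ell (u r) + ell h := fun s b => by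
    have := ell_mul (φ.φ (u s)) h
    rw [φ.ell_eq] at this
    have := hs s b
    omega
  have hA : ∀ δ, In 0 δ → ∀ s, Box r s → Cn (110 * (ell (u r) + 1))
      (φ.w (U s) ++ [lt (φ.φ (u δ))]) (φ.w (U (s + δ))) := fun δ hδ s b => by
    have := (U_inc (r := s) hδ).1.sym φ
    rw [φ.w_append, φ.w_lt (ell_unit hδ)] at this
    exact this.mono (by have := hs s b; omega)
  have hB : ∀ δ, In 0 δ → Abs D T C [lt (φ.φ (u δ))] → ∀ s, Box r s →
      Cn (C * (1 + ell (u r) + ell h))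
      ([lt (φ.φ (u δ))] ++ T (φ.φ (u s) * h)) (T (φ.φ (u (s + δ)) * h)) := fun δ hδ ha s b => by
    have := (ha _ (hD s b h hh)).2
    have e : ev lv [lt (φ.φ (u δ))] * (φ.φ (u s) * h) = φ.φ (u (s + δ)) * h := by
      rw [add_comm, u_add, map_mul]
      simp [lv_lt (show ell (φ.φ (u δ)) ≤ 1 by rw [φ.ell_eq]; exact ell_unit hδ), mul_assoc]
    rw [e] at this
    exact this.mono (Nat.mul_le_mul_left _ (by have := hs' s b; simp; omega))
  have main := transfer (fun s => φ.w (U s)) (fun s => T (φ.φ (u s) * h)) _ _ r _ _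
    (fun s b _ => hA _ In.e1 s b) (fun s b _ => hA _ In.e2 s b)
    (fun s b b' => hB _ In.e1 (h1 (by
      intro h0; simp only [Box, Prod.fst_add] at b b'; omega)) s b)
    (fun s b b' => hB _ In.e2 (h2 (by
      intro h0; simp only [Box, Prod.snd_add] at b b'; omega)) s b)
    (fun s b => by
      have := length_U s; have := hs s b
      rw [φ.length_w]; omega)
    (fun s b => (hl _ (hD s b h hh)).trans
      (Nat.mul_le_mul_left _ (by have := hs' s b; omega)))
  simp only [u_zero, map_one, one_mul] at main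
  have hl1 := one_le_ell h
  have c2 := (U_zero.sym φ).right (T (φ.φ (u r) * h))
    (M := C * 300 * ((φ.w (U r)).length + ell h)) (by
      have := hl _ (hD r ⟨le_rfl, le_rfl⟩ h hh)
      have h5 := hs' r ⟨le_rfl, le_rfl⟩
      have := arith hC (show ell (φ.φ (u r) * h) + 4 ≤ 300 * ((φ.w (U r)).length + ell h) by
        rw [φ.length_w]; omega)
      rw [mul_assoc]; omega)
  refine (main.mono ?_).trans c2
  rw [mul_assoc, add_comm]
  exact arith hC (by rw [φ.length_w]; omega)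

/-- Conjugating the unipotent words by a block letter. -/
lemma U_conj {m : G2} (hm : ell (io m) ≤ 1) (h1 : In 0 (act (1, 0) m⁻¹))
    (h2 : In 0 (act (0, 1) m⁻¹)) (r : ℤ × ℤ) :
    Cn (700 * ell (u r)) ([lt (io m)] ++ U r) (U (act r m⁻¹) ++ [lt (io m)]) := by
  have hc : ∀ s, u (act s m⁻¹) = io m * u s * (io m)⁻¹ := fun s => by
    have := u_io s m⁻¹
    rw [map_inv] at this
    rw [mul_assoc, this]; group
  have hs : ∀ s, Box r s → ell (u s) ≤ ell (u r) := fun s b => ell_u_mono b.1 b.2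
  have hs' : ∀ s, Box r s → ell (u (act s m⁻¹)) ≤ ell (u r) + 2 := fun s b => by
    rw [hc]
    have := ell_mul (io m * u s) (io m)⁻¹
    have := ell_mul (io m) (u s)
    have := hs s b
    rw [ell_inv] at *
    omega
  have hl1 := one_le_ell (u r)
  have hA : ∀ δ, In 0 (act δ m⁻¹) → In 0 δ → ∀ s, Box r s → Cn (110 * (ell (u r) + 3) + 1)
      ((U (act s m⁻¹) ++ [lt (io m)]) ++ [lt (u δ)]) (U (act (s + δ) m⁻¹) ++ [lt (io m)]) := by
    intro δ hδ hδ' s b
    have c1 : Cn 2 ([lt (io m)] ++ [lt (u δ)]) ([lt (u (act δ m⁻¹))] ++ [lt (io m)]) := by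
      refine small ?_ (by simp) (by simp) (by simp) (by simp)
      simp only [ev_append, ev_cons, ev_nil, lv_lt hm, lv_lt (ell_unit hδ), lv_lt (ell_unit hδ')]
      rw [hc]; group
    have := length_U (act s m⁻¹)
    have := hs' s b
    have c2 := c1.left (U (act s m⁻¹)) (M := 110 * (ell (u r) + 3) + 1) (by omega)
    have c3 := (U_inc (r := act s m⁻¹) hδ).1.right [lt (io m)] (M := 110 * (ell (u r) + 3) + 1)
      (by simp; omega)
    rw [act_add]
    exact (c2.cast (by simp) (by simp)).trans c3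
  have main := transfer (fun s => U (act s m⁻¹) ++ [lt (io m)]) U _ _ r _ (110 * (ell (u r) + 1))
    (fun s b _ => hA _ h1 In.e1 s b) (fun s b _ => hA _ h2 In.e2 s b)
    (fun s b _ => (U_inc (r := s) In.e1).2.mono (by have := hs s b; omega))
    (fun s b _ => (U_inc (r := s) In.e2).2.mono (by have := hs s b; omega))
    (fun s b => by
      have := length_U (act s m⁻¹); have := hs' s b
      simp; omega)
    (fun s b => by have := length_U s; have := hs s b; omega)
  have e0 : act 0 m⁻¹ = 0 := by simp [act]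
  simp only [e0] at main
  have := length_U r
  have := length_U (act r m⁻¹)
  have := hs' r ⟨le_rfl, le_rfl⟩
  have c1 := U_zero.left (U (act r m⁻¹) ++ [lt (io m)]) (M := 700 * ell (u r)) (by simp; omega)
  have c2 := (U_zero.right [lt (io m)] le_rfl).right (U r) (M := 700 * ell (u r))
    (by simp; omega)
  exact ((c2.symm.cast (by simp) rfl).trans (main.symm.mono (by omega))).trans
    (c1.cast rfl (by simp))

end Pool.Agent.H412Z.FL
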