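import Pool.Agent.H412Z.FL4

set_option autoImplicit false

namespace Pool.Agent.H412Z.FL

lemma ell_congr {a b : G} (h1 : nu a = nu b) (h2 : nu a⁻¹ = nu b⁻¹) : ell a = ell b := by
  apply le_antisymm
  · rw [ell_le_iff, h1, h2]; exact ell_le_iff.1 le_rfl
  · rw [ell_le_iff, ← h1, ← h2]; exact ell_le_iff.1 le_rfl

def sg : G := ⟨!![0, 0, 1; 1, 0, 0; 0, 1, 0], by decide⟩

lemma sg_inv_val : (sg⁻¹).1 = !![0, 1, 0; 0, 0, 1; 1, 0, 0] := by decide

lemma sg_val : sg.1 = !![0, 0, 1; 1, 0, 0; 0, 1, 0] := rfl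

lemma conj_val (g : G) : (sg * g * sg⁻¹).1 =
    !![g.1 2 2, g.1 2 0, g.1 2 1; g.1 0 2, g.1 0 0, g.1 0 1; g.1 1 2, g.1 1 0, g.1 1 1] := by
  ext i j
  fin_cases i <;> fin_cases j <;>
    simp [mul_ap, sg_inv_val, sg_val, -Matrix.SpecialLinearGroup.coe_mul,
      -Matrix.SpecialLinearGroup.coe_inv]

lemma nu_conj (g : G) : nu (sg * g * sg⁻¹) = nu g := by
  rw [nu_eq, nu_eq, conj_val]; simp; omega

def cs : Sym where
  φ := MulAut.conj sg
  ell_eq g := ell_congr (nu_conj g) (by rw [← map_inv]; exact nu_conj _)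

lemma cs_val (g : G) : (cs.φ g).1 =
    !![g.1 2 2, g.1 2 0, g.1 2 1; g.1 0 2, g.1 0 0, g.1 0 1; g.1 1 2, g.1 1 0, g.1 1 1] :=
  conj_val g

lemma cs_eq (g : G) : cs.φ g = sg * g * sg⁻¹ := rfl

def Sym.trans (a b : Sym) : Sym where
  φ := a.φ.trans b.φ
  ell_eq g := by simp [a.ell_eq, b.ell_eq]

lemma Sym.trans_ap (a b : Sym) (g : G) : (a.trans b).φ g = b.φ (a.φ g) := rfl

def Sym.refl : Sym := ⟨MulEquiv.refl G, fun _ => rfl⟩

lemma Sym.refl_w (W : Word) : Sym.refl.w W = W := by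
  have : Sym.refl.l = id := rfl
  simp [Sym.w, this]

lemma tr_mul (g h : G) : (g * h).transpose = h.transpose * g.transpose :=
  Subtype.ext (Matrix.transpose_mul _ _)

lemma tr_inv (g : G) : (g.transpose)⁻¹ = (g⁻¹).transpose := by
  rw [inv_eq_iff_mul_eq_one, ← tr_mul, inv_mul_cancel]
  exact Subtype.ext Matrix.transpose_one

lemma nu_tr (g : G) : nu g.transpose = nu g := by
  rw [nu_eq, nu_eq]; simp; omega

def th : Sym where
  φ := { toFun := fun g => (g⁻¹).transpose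
         invFun := fun g => (g⁻¹).transpose
         left_inv := fun g => by simp only [tr_inv, inv_inv]; rfl
         right_inv := fun g => by simp only [tr_inv, inv_inv]; rfl
         map_mul' := fun g h => by rw [mul_inv_rev, tr_mul] }
  ell_eq g := by
    rw [← ell_inv g]
    exact ell_congr (nu_tr _) (by
      show nu ((g⁻¹).transpose)⁻¹ = _
      rw [tr_inv, nu_tr])

lemma th_eq (g : G) : th.φ g = (g⁻¹).transpose := rfl

def Rz (x : ℤ) : G2 := ⟨!![1, x; 0, 1], by simp [Matrix.det_fin_two]⟩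
def Lz (x : ℤ) : G2 := ⟨!![1, 0; x, 1], by simp [Matrix.det_fin_two]⟩
def Sw : G2 := ⟨!![0, -1; 1, 0], by decide⟩

lemma Rz_val (x : ℤ) : (Rz x).1 = !![1, x; 0, 1] := rfl
lemma Lz_val (x : ℤ) : (Lz x).1 = !![1, 0; x, 1] := rfl
lemma Sw_val : Sw.1 = !![0, -1; 1, 0] := rfl

lemma Rz_add (x y : ℤ) : Rz (x + y) = Rz x * Rz y := by
  apply ext4 <;> simp [mul_ap2, Rz_val, add_comm, -Matrix.SpecialLinearGroup.coe_mul]

lemma Lz_add (x y : ℤ) : Lz (x + y) = Lz x * Lz y := by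
  apply ext4 <;> simp [mul_ap2, Lz_val, -Matrix.SpecialLinearGroup.coe_mul]

lemma Rz_zero : Rz 0 = 1 := by decide
lemma Lz_zero : Lz 0 = 1 := by decide

lemma u_val (r : ℤ × ℤ) : (u r).1 = !![1, 0, 0; 0, 1, 0; r.1, r.2, 1] := rfl

lemma cs_u (x : ℤ) : cs.φ (u (x, 0)) = io (Rz x) := by
  apply ext9 <;> simp [cs_val, u_val, io_val, Rz_val]

lemma cs2_u (x : ℤ) : (cs.trans cs).φ (u (0, x)) = io (Lz x) := by
  apply ext9 <;> simp [Sym.trans_ap, cs_val, u_val, io_val, Lz_val]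

noncomputable def E12 (x : ℤ) : Word := cs.w (U (x, 0))
noncomputable def E21 (x : ℤ) : Word := (cs.trans cs).w (U (0, x))

lemma ev_E12 (x : ℤ) : ev lv (E12 x) = io (Rz x) := by rw [E12, Sym.ev_w, ev_U, cs_u]
lemma ev_E21 (x : ℤ) : ev lv (E21 x) = io (Lz x) := by rw [E21, Sym.ev_w, ev_U, cs2_u]

noncomputable def lR : Letter := lt (io (Rz 1))
noncomputable def lL : Letter := lt (io (Lz 1))
noncomputable def lS : Letter := lt (io Sw)

lemma ell_R : ell (io (Rz 1)) ≤ 1 := ell_le le_rfl (by decide) (by decide)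
lemma ell_L : ell (io (Lz 1)) ≤ 1 := ell_le le_rfl (by decide) (by decide)
lemma ell_S : ell (io Sw) ≤ 1 := ell_le le_rfl (by decide) (by decide)

lemma lv_R : lv lR = io (Rz 1) := lv_lt ell_R
lemma lv_L : lv lL = io (Lz 1) := lv_lt ell_L
lemma lv_S : lv lS = io Sw := lv_lt ell_S

lemma E12_inc {x : ℤ} {n : ℕ} (h : x.natAbs ≤ 64 ^ n) :
    Cn (110 * (n + 2)) ([lR] ++ E12 x) (E12 (x + 1)) := by
  have := (U_inc (r := (x, 0)) In.e1).2.sym cs
  rw [Sym.w_append, Sym.w_lt _ (ell_unit In.e1), cs_u] at this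
  have h2 : ell (u (x, 0)) ≤ n + 1 := ell_u_le (by omega) (by
    have : 1 ≤ 64 ^ n := Nat.one_le_pow _ _ (by norm_num)
    simp; omega)
  exact (this.mono (by omega)).cast rfl (by simp [E12])

lemma E21_inc {x : ℤ} {n : ℕ} (h : x.natAbs ≤ 64 ^ n) :
    Cn (110 * (n + 2)) ([lL] ++ E21 x) (E21 (x + 1)) := by
  have := (U_inc (r := (0, x)) In.e2).2.sym (cs.trans cs)
  rw [Sym.w_append, Sym.w_lt _ (ell_unit In.e2), cs2_u] at this
  have h2 : ell (u (0, x)) ≤ n + 1 := ell_u_le (by omega) (by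
    have : 1 ≤ 64 ^ n := Nat.one_le_pow _ _ (by norm_num)
    simp; omega)
  exact (this.mono (by omega)).cast rfl (by simp [E21])

lemma length_E12 (x : ℤ) : (E12 x).length = 8 * Hs (x, 0) + 4 := by simp [E12, length_U']
lemma length_E21 (x : ℤ) : (E21 x).length = 8 * Hs (0, x) + 4 := by simp [E21, length_U']

lemma E12_one : Cn 4 [lR] (E12 1) := by
  have : Hs (1, 0) ≤ 0 := Hs_le_iff.2 In.e1
  have := length_E12 1
  exact small (by simp [lv_R, ev_E12]) (by simp) (by omega) (by simp) (by omega)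

lemma E21_one : Cn 4 [lL] (E21 1) := by
  have : Hs (0, 1) ≤ 0 := Hs_le_iff.2 In.e2
  have := length_E21 1
  exact small (by simp [lv_L, ev_E21]) (by simp) (by omega) (by simp) (by omega)

lemma Rz_mul (x : ℤ) (h : G2) : (Rz x * h).1 =
    !![h.1 0 0 + x * h.1 1 0, h.1 0 1 + x * h.1 1 1; h.1 1 0, h.1 1 1] := by
  ext i j
  fin_cases i <;> fin_cases j <;> simp [mul_ap2, Rz_val, -Matrix.SpecialLinearGroup.coe_mul]

lemma Lz_mul (x : ℤ) (h : G2) : (Lz x * h).1 =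
    !![h.1 0 0, h.1 0 1; h.1 1 0 + x * h.1 0 0, h.1 1 1 + x * h.1 0 1] := by
  ext i j
  fin_cases i <;> fin_cases j <;>
    simp [mul_ap2, Lz_val, add_comm, -Matrix.SpecialLinearGroup.coe_mul]

lemma Sw_mul (h : G2) : (Sw * h).1 = !![-h.1 1 0, -h.1 1 1; h.1 0 0, h.1 0 1] := by
  ext i j
  fin_cases i <;> fin_cases j <;> simp [mul_ap2, Sw_val, -Matrix.SpecialLinearGroup.coe_mul]

lemma divR {a b : ℤ} (hb : 0 < b) (hab : b < a) :
    1 ≤ (a - 1) / b ∧ 0 < a + -((a - 1) / b) * b ∧ a + -((a - 1) / b) * b ≤ b := by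
  have h1 := Int.mul_ediv_add_emod (a - 1) b
  have h2 := Int.emod_nonneg (a - 1) hb.ne'
  have h3 := Int.emod_lt_of_pos (a - 1) hb
  refine ⟨Int.le_ediv_of_mul_le hb (by omega), by nlinarith, by nlinarith⟩

lemma divL {a b : ℤ} (ha : 0 < a) (hab : a ≤ b) :
    1 ≤ b / a ∧ 0 ≤ b + -(b / a) * a ∧ b + -(b / a) * a < a := by
  have h1 := Int.mul_ediv_add_emod b a
  have h2 := Int.emod_nonneg b ha.ne'
  have h3 := Int.emod_lt_of_pos b ha
  refine ⟨Int.le_ediv_of_mul_le ha (by omega), by nlinarith, by nlinarith⟩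

/-- Continued fraction normal form for a first column in the first quadrant. -/
noncomputable def Np (h : G2) : Word :=
  if h0 : 0 < h.1 0 0 ∧ 0 < h.1 1 0 then
    if h1 : h.1 1 0 < h.1 0 0 then
      E12 ((h.1 0 0 - 1) / h.1 1 0) ++ Np (Rz (-((h.1 0 0 - 1) / h.1 1 0)) * h)
    else E21 (h.1 1 0 / h.1 0 0) ++ Np (Lz (-(h.1 1 0 / h.1 0 0)) * h)
  else E12 (h.1 0 1)
termination_by (h.1 0 0).natAbs + (h.1 1 0).natAbs
decreasing_by
  · have := divR h0.2 h1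
    rw [Rz_mul]
    simp only [Matrix.of_apply, Matrix.cons_val', Matrix.cons_val_zero, Matrix.cons_val_one,
      Matrix.cons_val_fin_one]
    omega
  · have := divL h0.1 (not_lt.1 h1)
    rw [Lz_mul]
    simp only [Matrix.of_apply, Matrix.cons_val', Matrix.cons_val_zero, Matrix.cons_val_one,
      Matrix.cons_val_fin_one]
    omega

def Q0 (h : G2) : Prop := 0 < h.1 0 0 ∧ 0 ≤ h.1 1 0

lemma Np_0 {h : G2} (h0 : h.1 1 0 = 0) : Np h = E12 (h.1 0 1) := by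
  rw [Np, dif_neg (by omega)]

lemma Np_R {h : G2} (h0 : 0 < h.1 1 0) (h1 : h.1 1 0 < h.1 0 0) :
    Np h = E12 ((h.1 0 0 - 1) / h.1 1 0) ++ Np (Rz (-((h.1 0 0 - 1) / h.1 1 0)) * h) := by
  rw [Np, dif_pos (by omega), dif_pos h1]

lemma Np_L {h : G2} (h0 : 0 < h.1 0 0) (h1 : h.1 0 0 ≤ h.1 1 0) :
    Np h = E21 (h.1 1 0 / h.1 0 0) ++ Np (Lz (-(h.1 1 0 / h.1 0 0)) * h) := by
  rw [Np, dif_pos (by omega), dif_neg (by omega)]

lemma Q0_R {h : G2} (h0 : 0 < h.1 1 0) (h1 : h.1 1 0 < h.1 0 0) :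
    Q0 (Rz (-((h.1 0 0 - 1) / h.1 1 0)) * h) := by
  have := divR h0 h1
  simp only [Q0, Rz_mul, Matrix.of_apply, Matrix.cons_val', Matrix.cons_val_zero,
    Matrix.cons_val_one, Matrix.cons_val_fin_one]
  omega

lemma Q0_L {h : G2} (h0 : 0 < h.1 0 0) (h1 : h.1 0 0 ≤ h.1 1 0) :
    Q0 (Lz (-(h.1 1 0 / h.1 0 0)) * h) := by
  have := divL h0 h1
  simp only [Q0, Lz_mul, Matrix.of_apply, Matrix.cons_val', Matrix.cons_val_zero,
    Matrix.cons_val_one, Matrix.cons_val_fin_one]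
  omega

lemma eq_Rz {h : G2} (hq : Q0 h) (h0 : h.1 1 0 = 0) : h = Rz (h.1 0 1) := by
  have hd := det2 h
  rw [h0, mul_zero, sub_zero] at hd
  have h1 : h.1 0 0 = 1 := Int.eq_one_of_mul_eq_one_right hq.1.le hd
  rw [h1, one_mul] at hd
  apply ext4 <;> simp [Rz_val, h0, h1, hd]

/-- Induction along the continued fraction algorithm. -/
lemma Q0_ind (p : G2 → Prop) (h0 : ∀ h, Q0 h → h.1 1 0 = 0 → p h)
    (hR : ∀ h, 0 < h.1 1 0 → h.1 1 0 < h.1 0 0 →
      p (Rz (-((h.1 0 0 - 1) / h.1 1 0)) * h) → p h)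
    (hL : ∀ h, 0 < h.1 0 0 → h.1 0 0 ≤ h.1 1 0 → p (Lz (-(h.1 1 0 / h.1 0 0)) * h) → p h)
    (h : G2) (hq : Q0 h) : p h := by
  induction hn : (h.1 0 0).natAbs + (h.1 1 0).natAbs using Nat.strong_induction_on
    generalizing h with
  | _ n ih =>
    rcases hq.2.eq_or_lt with c | c
    · exact h0 h hq c.symm
    rcases lt_or_ge (h.1 1 0) (h.1 0 0) with d | d
    · refine hR h c d (ih _ ?_ _ (Q0_R c d) rfl)
      have := divR c d
      simp only [Rz_mul, Matrix.of_apply, Matrix.cons_val', Matrix.cons_val_zero,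
        Matrix.cons_val_one, Matrix.cons_val_fin_one]
      omega
    · refine hL h hq.1 d (ih _ ?_ _ (Q0_L hq.1 d) rfl)
      have := divL hq.1 d
      simp only [Lz_mul, Matrix.of_apply, Matrix.cons_val', Matrix.cons_val_zero,
        Matrix.cons_val_one, Matrix.cons_val_fin_one]
      omega

lemma ev_Np {h : G2} (hq : Q0 h) : ev lv (Np h) = io h := by
  refine Q0_ind (fun h => ev lv (Np h) = io h) ?_ ?_ ?_ h hq
  · intro h hq h0
    rw [Np_0 h0, ev_E12, ← eq_Rz hq h0]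
  · intro h c d ih
    rw [Np_R c d, ev_append, ih, ev_E12, ← map_mul, ← mul_assoc, ← Rz_add, add_neg_cancel,
      Rz_zero, one_mul]
  · intro h c d ih
    rw [Np_L c d, ev_append, ih, ev_E21, ← map_mul, ← mul_assoc, ← Lz_add, add_neg_cancel,
      Lz_zero, one_mul]

lemma pot {P P' m m' q k n : ℕ} (h1 : P' * (q + 1) ≤ P) (h2 : m' ≤ (q + 1) * m)
    (h3 : 2 ^ k ≤ 2 * q) (h4 : P ^ 3 * m ≤ 2 ^ n) (hP : 1 ≤ P') (hm : 1 ≤ m') :
    ∃ n', n = n' + (k + 1) ∧ P' ^ 3 * m' ≤ 2 ^ n' := by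
  have h5 : 2 ^ (k + 1) ≤ (q + 1) ^ 2 := by
    rw [pow_succ]; nlinarith [sq_nonneg ((q : ℤ) - 1)]
  have h6 : P' ^ 3 * m' * 2 ^ (k + 1) ≤ 2 ^ n :=
    calc P' ^ 3 * m' * 2 ^ (k + 1) ≤ P' ^ 3 * ((q + 1) * m) * (q + 1) ^ 2 := by gcongr
      _ = (P' * (q + 1)) ^ 3 * m := by ring
      _ ≤ P ^ 3 * m := by gcongr
      _ ≤ _ := h4
  have h7 : 1 ≤ P' ^ 3 * m' := Nat.mul_pos (by positivity) hm
  have h8 : k + 1 ≤ n := by
    rw [← Nat.pow_le_pow_iff_right (by norm_num : 1 < 2)]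
    exact (Nat.le_mul_of_pos_left _ h7).trans h6
  refine ⟨n - (k + 1), by omega, ?_⟩
  have e : 2 ^ n = 2 ^ (n - (k + 1)) * 2 ^ (k + 1) := by rw [← pow_add]; congr 1; omega
  rw [e] at h6
  exact Nat.le_of_mul_le_mul_right h6 (by positivity)

lemma pow_Hs_le {r : ℤ × ℤ} {q : ℕ} (hq : 1 ≤ q) (h1 : r.1.natAbs ≤ q) (h2 : r.2.natAbs ≤ q) :
    2 ^ Hs r ≤ 2 * q := by
  rcases h : Hs r with _ | k
  · omega
  · have : ¬ In k r := by rw [← Hs_le_iff]; omega
    simp only [In, not_and_or, not_le] at this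
    rw [pow_succ]; omega

lemma length_Np_aux {h : G2} (hq : Q0 h) : ∀ n : ℕ,
    ((h.1 0 0).natAbs * ((h.1 1 0).natAbs + 1)) ^ 3 * (1 + (h.1 0 1).natAbs + (h.1 1 1).natAbs)
      ≤ 2 ^ n → (Np h).length ≤ 8 * n + 4 := by
  refine Q0_ind (fun h => ∀ n : ℕ,
    ((h.1 0 0).natAbs * ((h.1 1 0).natAbs + 1)) ^ 3 * (1 + (h.1 0 1).natAbs + (h.1 1 1).natAbs)
      ≤ 2 ^ n → (Np h).length ≤ 8 * n + 4) ?_ ?_ ?_ h hq
  · intro h hq h0 n hn
    have h1 : 1 ≤ ((h.1 0 0).natAbs * ((h.1 1 0).natAbs + 1)) ^ 3 :=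
      pow_pos (Nat.mul_pos (by have := hq.1; omega) (by omega)) _
    have h2 := (Nat.le_mul_of_pos_left _ h1).trans hn
    have : Hs (h.1 0 1, 0) ≤ n := Hs_le_iff.2 ⟨by simp only; omega, by simp⟩
    rw [Np_0 h0, length_E12]; omega
  · intro h c d ih n hn
    obtain ⟨d1, d2, d3⟩ := divR c d
    set q := (h.1 0 0 - 1) / h.1 1 0 with hq
    simp only [Rz_mul, Matrix.of_apply, Matrix.cons_val', Matrix.cons_val_zero,
      Matrix.cons_val_one, Matrix.cons_val_fin_one] at ih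
    obtain ⟨n', rfl, hn'⟩ := pot (q := q.natAbs) (k := Hs (q, 0))
      (P' := (h.1 0 0 + -q * h.1 1 0).natAbs * ((h.1 1 0).natAbs + 1))
      (m' := 1 + (h.1 0 1 + -q * h.1 1 1).natAbs + (h.1 1 1).natAbs) (by
        rw [mul_right_comm]
        refine Nat.mul_le_mul_right _ ?_
        zify
        rw [abs_of_pos d2, abs_of_pos (by omega : 0 < q), abs_of_pos (by omega : 0 < h.1 0 0)]
        nlinarith) (by
        have := Int.natAbs_add_le (h.1 0 1) (-q * h.1 1 1)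
        rw [Int.natAbs_mul, Int.natAbs_neg] at this
        rw [add_mul, mul_add, mul_add]
        omega) (pow_Hs_le (by omega) le_rfl (by simp)) hn
        (Nat.mul_pos (by omega) (by omega)) (by omega)
    have := ih n' hn'
    rw [Np_R c d, ← hq, List.length_append, length_E12]
    omega
  · intro h c d ih n hn
    obtain ⟨d1, d2, d3⟩ := divL c d
    set q := h.1 1 0 / h.1 0 0 with hq
    simp only [Lz_mul, Matrix.of_apply, Matrix.cons_val', Matrix.cons_val_zero,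
      Matrix.cons_val_one, Matrix.cons_val_fin_one] at ih
    obtain ⟨n', rfl, hn'⟩ := pot (q := q.natAbs) (k := Hs (0, q))
      (P' := (h.1 0 0).natAbs * ((h.1 1 0 + -q * h.1 0 0).natAbs + 1))
      (m' := 1 + (h.1 0 1).natAbs + (h.1 1 1 + -q * h.1 0 1).natAbs) (by
        rw [mul_assoc]
        refine Nat.mul_le_mul_left _ ?_
        zify
        rw [abs_of_nonneg d2, abs_of_pos (by omega : 0 < q), abs_of_pos (by omega : 0 < h.1 1 0)]
        nlinarith) (by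
        have := Int.natAbs_add_le (h.1 1 1) (-q * h.1 0 1)
        rw [Int.natAbs_mul, Int.natAbs_neg] at this
        rw [add_mul, mul_add, mul_add]
        omega) (pow_Hs_le (by omega) (by simp) le_rfl) hn
        (Nat.mul_pos (by omega) (by omega)) (by omega)
    have := ih n' hn'
    rw [Np_L c d, ← hq, List.length_append, length_E21]
    omega

lemma nu_io (h : G2) : nu (io h) =
    (h.1 0 0).natAbs + (h.1 0 1).natAbs + (h.1 1 0).natAbs + (h.1 1 1).natAbs + 1 := by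
  rw [nu_eq, io_val]; simp; omega

lemma length_Np {h : G2} (hq : Q0 h) : (Np h).length ≤ 340 * ell (io h) := by
  have h1 := nu_le (io h)
  have h2 := nu_io h
  have h3 := one_le_ell (io h)
  have := length_Np_aux hq (42 * ell (io h)) (by
    calc _ ≤ (64 ^ ell (io h) * 64 ^ ell (io h)) ^ 3 * 64 ^ ell (io h) := by gcongr <;> omega
      _ = _ := by
        rw [show (64 : ℕ) = 2 ^ 6 by norm_num, ← pow_mul, ← pow_add, ← pow_mul, ← pow_add]
        congr 1; ring)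
  omega

end Pool.Agent.H412Z.FL
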