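import Pool.Agent.H412Z.FL5

set_option autoImplicit false

namespace Pool.Agent.H412Z.FL

lemma ent2_le (h : G2) (i j : Fin 2) : (h.1 i j).natAbs ≤ 64 ^ ell (io h) := by
  have h1 := nu_le (io h)
  rw [nu_io] at h1
  fin_cases i <;> fin_cases j <;> simp only [Fin.zero_eta, Fin.mk_one] <;> omega

lemma Q0_R1 {h : G2} (hq : Q0 h) : Q0 (Rz 1 * h) := by
  obtain ⟨h1, h2⟩ := hq
  simp only [Q0, Rz_mul, Matrix.of_apply, Matrix.cons_val', Matrix.cons_val_zero,
    Matrix.cons_val_one, Matrix.cons_val_fin_one]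
  omega

lemma Q0_L1 {h : G2} (hq : Q0 h) : Q0 (Lz 1 * h) := by
  obtain ⟨h1, h2⟩ := hq
  simp only [Q0, Lz_mul, Matrix.of_apply, Matrix.cons_val', Matrix.cons_val_zero,
    Matrix.cons_val_one, Matrix.cons_val_fin_one]
  omega

lemma Np_absR {h : G2} (hq : Q0 h) : Cn (700 * ell (io h)) ([lR] ++ Np h) (Np (Rz 1 * h)) := by
  have l1 := one_le_ell (io h)
  have l2 := length_Np hq
  have e00 : (Rz 1 * h).1 0 0 = h.1 0 0 + h.1 1 0 := by rw [Rz_mul]; simp
  have e10 : (Rz 1 * h).1 1 0 = h.1 1 0 := by rw [Rz_mul]; simp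
  rcases hq.2.eq_or_lt with c | c
  · have e := eq_Rz hq c.symm
    have e11 : h.1 1 1 = 1 := by rw [e]; simp [Rz_val]
    have e01 : (Rz 1 * h).1 0 1 = h.1 0 1 + 1 := by rw [Rz_mul]; simp [e11]
    rw [Np_0 c.symm, Np_0 (e10.trans c.symm), e01]
    exact (E12_inc (ent2_le h 0 1)).mono (by omega)
  have c' : 0 < (Rz 1 * h).1 1 0 := by omega
  have d' : (Rz 1 * h).1 1 0 < (Rz 1 * h).1 0 0 := by have := hq.1; omega
  have eq : ((Rz 1 * h).1 0 0 - 1) / (Rz 1 * h).1 1 0 = (h.1 0 0 - 1) / h.1 1 0 + 1 := by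
    rw [e00, e10, show h.1 0 0 + h.1 1 0 - 1 = h.1 0 0 - 1 + 1 * h.1 1 0 by ring,
      Int.add_mul_ediv_right _ _ c.ne']
  rw [Np_R c' d', eq, ← mul_assoc, ← Rz_add, neg_add, neg_add_cancel_right]
  rcases lt_or_ge (h.1 1 0) (h.1 0 0) with d | d
  · have hb : ((h.1 0 0 - 1) / h.1 1 0).natAbs ≤ 64 ^ ell (io h) := by
      have := Int.natAbs_ediv_le_natAbs (h.1 0 0 - 1) (h.1 1 0)
      have := ent2_le h 0 0
      omega
    rw [Np_R c d] at l2 ⊢
    rw [List.length_append] at l2
    exact ((E12_inc hb).right _ (by omega)).cast (by simp) rfl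
  · have e : (h.1 0 0 - 1) / h.1 1 0 = 0 :=
      Int.ediv_eq_zero_of_lt (by have := hq.1; omega) (by omega)
    rw [e, zero_add, neg_zero, Rz_zero, one_mul]
    exact E12_one.right _ (by omega)

lemma Np_absL {h : G2} (hq : Q0 h) : Cn (700 * ell (io h)) ([lL] ++ Np h) (Np (Lz 1 * h)) := by
  have l1 := one_le_ell (io h)
  have l2 := length_Np hq
  have e00 : (Lz 1 * h).1 0 0 = h.1 0 0 := by rw [Lz_mul]; simp
  have e10 : (Lz 1 * h).1 1 0 = h.1 1 0 + h.1 0 0 := by rw [Lz_mul]; simp
  have c := hq.1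
  have c2 := hq.2
  have c' : 0 < (Lz 1 * h).1 0 0 := by omega
  have d' : (Lz 1 * h).1 0 0 ≤ (Lz 1 * h).1 1 0 := by omega
  have eq : (Lz 1 * h).1 1 0 / (Lz 1 * h).1 0 0 = h.1 1 0 / h.1 0 0 + 1 := by
    rw [e00, e10, show h.1 1 0 + h.1 0 0 = h.1 1 0 + 1 * h.1 0 0 by ring,
      Int.add_mul_ediv_right _ _ c.ne']
  rw [Np_L c' d', eq, ← mul_assoc, ← Lz_add, neg_add, neg_add_cancel_right]
  rcases le_or_gt (h.1 0 0) (h.1 1 0) with d | d
  · have hb : (h.1 1 0 / h.1 0 0).natAbs ≤ 64 ^ ell (io h) := by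
      have := Int.natAbs_ediv_le_natAbs (h.1 1 0) (h.1 0 0)
      have := ent2_le h 1 0
      omega
    rw [Np_L c d] at l2 ⊢
    rw [List.length_append] at l2
    exact ((E21_inc hb).right _ (by omega)).cast (by simp) rfl
  · have e : h.1 1 0 / h.1 0 0 = 0 := Int.ediv_eq_zero_of_lt c2 d
    rw [e, zero_add, neg_zero, Lz_zero, one_mul]
    exact E21_one.right _ (by omega)

lemma ell_io_mul {m : G2} (hm : ell (io m) ≤ 1) (h : G2) : ell (io (m * h)) ≤ ell (io h) + 1 := by
  rw [map_mul]; have := ell_mul (io m) (io h); omega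

lemma ell_R' : ell (io (Rz (-1))) ≤ 1 := ell_le le_rfl (by decide) (by decide)
lemma ell_L' : ell (io (Lz (-1))) ≤ 1 := ell_le le_rfl (by decide) (by decide)

lemma Np_RS {h : G2} (hq : Q0 h) : ∃ h' i, Q0 h' ∧ i ≤ 1 ∧ Rz 1 * Sw * h = Sw ^ i * h' ∧
    Cn (1500 * ell (io h)) ([lR, lS] ++ Np h) (List.replicate i lS ++ Np h') := by
  have l1 := one_le_ell (io h)
  have c := hq.1
  have c2 := hq.2
  rcases le_or_gt (h.1 0 0) (h.1 1 0) with d | d
  · have q' : Q0 (Lz (-1) * h) := by
      simp only [Q0, Lz_mul, Matrix.of_apply, Matrix.cons_val', Matrix.cons_val_zero,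
        Matrix.cons_val_one, Matrix.cons_val_fin_one]
      omega
    have a := Np_absL q'
    rw [← mul_assoc, ← Lz_add, add_neg_cancel, Lz_zero, one_mul] at a
    have l2 := ell_io_mul ell_L' h
    have l3 := length_Np q'
    refine ⟨_, 1, q', le_rfl, ?_, (a.symm.left [lR, lS] (by (try simp only [List.length_append, List.length_cons, List.length_nil, List.length_replicate, length_winv, Sym.length_w] at *); omega)).trans ?_⟩
    · rw [← mul_assoc]; congr 1; decide
    · have s : Cn 3 [lR, lS, lL] [lS] := small (by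
        simp only [ev_cons, ev_nil, lv_R, lv_S, lv_L]; decide) (by simp) (by simp) (by simp)
        (by simp)
      exact (s.right (Np (Lz (-1) * h)) (by omega)).cast (by simp) (by simp)
  · have q' : Q0 (Rz (-1) * h) := by
      simp only [Q0, Rz_mul, Matrix.of_apply, Matrix.cons_val', Matrix.cons_val_zero,
        Matrix.cons_val_one, Matrix.cons_val_fin_one]
      omega
    have a := Np_absR q'
    rw [← mul_assoc, ← Rz_add, add_neg_cancel, Rz_zero, one_mul] at a
    have l2 := ell_io_mul ell_R' h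
    have l3 := length_Np q'
    refine ⟨_, 0, Q0_L1 q', by omega, ?_, (a.symm.left [lR, lS] (by (try simp only [List.length_append, List.length_cons, List.length_nil, List.length_replicate, length_winv, Sym.length_w] at *); omega)).trans ?_⟩
    · rw [← mul_assoc, ← mul_assoc]; congr 1; decide
    · have s : Cn 3 [lR, lS, lR] [lL] := small (by
        simp only [ev_cons, ev_nil, lv_R, lv_S, lv_L]; decide) (by simp) (by simp) (by simp)
        (by simp)
      exact ((s.right (Np (Rz (-1) * h)) (by omega)).cast (by simp) rfl).trans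
        (((Np_absL q').mono (by omega)).cast rfl (by simp))

def kk (M : G2) : ℕ :=
  if 0 < M.1 0 0 ∧ 0 ≤ M.1 1 0 then 0 else if 0 < M.1 1 0 then 1
  else if M.1 0 0 < 0 then 2 else 3

lemma kk_eq {h : G2} (hq : Q0 h) {k : ℕ} (hk : k < 4) : kk (Sw ^ k * h) = k := by
  obtain ⟨h1, h2⟩ := hq
  interval_cases k <;>
    simp only [kk, pow_succ, pow_zero, one_mul, mul_assoc, Sw_mul, Matrix.of_apply,
      Matrix.cons_val', Matrix.cons_val_zero, Matrix.cons_val_one, Matrix.cons_val_fin_one] <;>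
    split_ifs <;> omega

lemma Sw4 : Sw ^ 4 = 1 := by decide

lemma exists_kk (M : G2) : ∃ k h, k < 4 ∧ Q0 h ∧ M = Sw ^ k * h := by
  have hd := det2 M
  have h0 : ¬(M.1 0 0 = 0 ∧ M.1 1 0 = 0) := by
    rintro ⟨a, b⟩; rw [a, b] at hd; simp at hd
  have key : ∀ k, k < 4 → Q0 (Sw ^ (4 - k) * M) → ∃ k h, k < 4 ∧ Q0 h ∧ M = Sw ^ k * h :=
    fun k hk hq => ⟨k, _, hk, hq, by
      rw [← mul_assoc, ← pow_add, show k + (4 - k) = 4 by omega, Sw4, one_mul]⟩
  by_cases c0 : 0 < M.1 0 0 ∧ 0 ≤ M.1 1 0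
  · exact ⟨0, M, by norm_num, c0, by simp⟩
  by_cases c1 : 0 < M.1 1 0
  · refine key 1 (by norm_num) ?_
    simp only [Q0, pow_succ, pow_zero, one_mul, mul_assoc, Sw_mul, Matrix.of_apply,
      Matrix.cons_val', Matrix.cons_val_zero, Matrix.cons_val_one, Matrix.cons_val_fin_one]
    omega
  by_cases c2 : M.1 0 0 < 0
  · refine key 2 (by norm_num) ?_
    simp only [Q0, pow_succ, pow_zero, one_mul, mul_assoc, Sw_mul, Matrix.of_apply,
      Matrix.cons_val', Matrix.cons_val_zero, Matrix.cons_val_one, Matrix.cons_val_fin_one]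
    omega
  · refine key 3 (by norm_num) ?_
    simp only [Q0, Nat.reduceSub, pow_succ, pow_zero, one_mul, mul_assoc, Sw_mul, Matrix.of_apply,
      Matrix.cons_val', Matrix.cons_val_zero, Matrix.cons_val_one, Matrix.cons_val_fin_one]
    omega

/-- Normal form in the block subgroup. -/
noncomputable def N2 (M : G2) : Word := List.replicate (kk M) lS ++ Np ((Sw ^ kk M)⁻¹ * M)

lemma N2_eq {h : G2} (hq : Q0 h) {k : ℕ} (hk : k < 4) :
    N2 (Sw ^ k * h) = List.replicate k lS ++ Np h := by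
  rw [N2, kk_eq hq hk, inv_mul_cancel_left]

attribute [irreducible] N2

lemma ell_Sk {k : ℕ} (hk : k < 4) (h : G2) : ell (io h) ≤ 2 * ell (io (Sw ^ k * h)) := by
  have : ell (io (Sw ^ k)⁻¹) ≤ 1 := by
    interval_cases k <;> exact ell_le le_rfl (by decide) (by decide)
  have := ell_io_mul this (Sw ^ k * h)
  rw [inv_mul_cancel_left] at this
  have := one_le_ell (io (Sw ^ k * h))
  omega

lemma ev_rep (k : ℕ) : ev lv (List.replicate k lS) = io (Sw ^ k) := by
  induction k with
  | zero => simp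
  | succ k ih => rw [List.replicate_succ, ev_cons, ih, lv_S, ← map_mul, pow_succ']

lemma ev_N2 (M : G2) : ev lv (N2 M) = io M := by
  obtain ⟨k, h, hk, hq, rfl⟩ := exists_kk M
  rw [N2_eq hq hk, ev_append, ev_rep, ev_Np hq, map_mul]

lemma length_N2 (M : G2) : (N2 M).length ≤ 700 * ell (io M) := by
  obtain ⟨k, h, hk, hq, rfl⟩ := exists_kk M
  have := ell_Sk hk h
  have := length_Np hq
  have := one_le_ell (io (Sw ^ k * h))
  rw [N2_eq hq hk]; (try simp only [List.length_append, List.length_cons, List.length_nil, List.length_replicate, length_winv, Sym.length_w] at *); omega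

lemma N2_absS (M : G2) : Cn (800 * ell (io M)) ([lS] ++ N2 M) (N2 (Sw * M)) := by
  have l := length_N2 M
  have l1 := one_le_ell (io M)
  obtain ⟨k, h, hk, hq, rfl⟩ := exists_kk M
  rw [← mul_assoc, ← pow_succ']
  rcases Nat.lt_or_ge (k + 1) 4 with c | c
  · rw [N2_eq hq c, List.replicate_succ]
    rw [N2_eq hq hk] at l ⊢
    exact .refl _ (by (try simp only [List.length_append, List.length_cons, List.length_nil, List.length_replicate, length_winv, Sym.length_w] at *); omega)
  · obtain rfl : k = 3 := by omega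
    rw [Sw4, ← pow_zero Sw, N2_eq hq (by norm_num : 0 < 4)]
    rw [N2_eq hq hk] at l ⊢
    have s : Cn 4 (List.replicate 4 lS) [] :=
      small (by rw [ev_rep, Sw4]; simp) (by simp) (by simp) (by simp) (by simp)
    exact s.right _ (by (try simp only [List.length_append, List.length_cons, List.length_nil, List.length_replicate, length_winv, Sym.length_w] at *); omega)

lemma N2_absR (M : G2) : Cn (3100 * ell (io M)) ([lR] ++ N2 M) (N2 (Rz 1 * M)) := by
  have l1 := one_le_ell (io M)
  obtain ⟨k, h, hk, hq, rfl⟩ := exists_kk M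
  have l2 := ell_Sk hk h
  have l3 := length_Np hq
  rw [N2_eq hq hk]
  obtain ⟨h', i, q', hi, e, c⟩ := Np_RS hq
  have s : Cn 3 [lR, lS, lS] [lS, lS, lR] := small (by
    simp only [ev_cons, ev_nil, lv_R, lv_S]; decide) (by simp) (by simp) (by simp) (by simp)
  have e2 : Rz 1 * Sw ^ 2 = Sw ^ 2 * Rz 1 := by decide
  interval_cases k
  · have := N2_eq (Q0_R1 hq) (by norm_num : 0 < 4)
    simp only [pow_zero, one_mul] at this ⊢
    rw [this]
    exact (Np_absR hq).mono (by simp only [pow_zero, one_mul] at l2; omega)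
  · rw [pow_one, ← mul_assoc, e, N2_eq q' (by omega)]
    exact c.mono (by rw [pow_one] at l2; omega)
  · rw [← mul_assoc, e2, mul_assoc, N2_eq (Q0_R1 hq) (by norm_num)]
    exact (s.right (Np h) (by omega)).trans (((Np_absR hq).left [lS, lS] (by (try simp only [List.length_append, List.length_cons, List.length_nil, List.length_replicate, length_winv, Sym.length_w] at *); omega)))
  · rw [← mul_assoc, show Rz 1 * Sw ^ 3 = Sw ^ 2 * (Rz 1 * Sw) by decide, mul_assoc, e,
      ← mul_assoc, ← pow_add, N2_eq q' (by omega), List.replicate_add]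
    exact (s.right ([lS] ++ Np h) (by (try simp only [List.length_append, List.length_cons, List.length_nil, List.length_replicate, length_winv, Sym.length_w] at *); omega)).trans
      ((c.left [lS, lS] (by (try simp only [List.length_append, List.length_cons, List.length_nil, List.length_replicate, length_winv, Sym.length_w] at *); omega)).cast (by simp) (by simp))

end Pool.Agent.H412Z.FL
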