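import Pool.Agent.H412Z.FL6

set_option autoImplicit false
set_option linter.unusedSimpArgs false

namespace Pool.Agent.H412Z.FL

lemma one_ap (i j : Fin 3) : (1 : G).1 i j = if i = j then 1 else 0 := by
  simp [Matrix.one_apply]

/-- The stabiliser of the last basis vector. -/
def P : Subgroup G where
  carrier := {g | g.1 0 2 = 0 ∧ g.1 1 2 = 0 ∧ g.1 2 2 = 1}
  one_mem' := by refine ⟨?_, ?_, ?_⟩ <;> decide
  mul_mem' := by
    rintro a b ⟨a1, a2, a3⟩ ⟨b1, b2, b3⟩
    refine ⟨?_, ?_, ?_⟩ <;> simp only [mul_ap, a1, a2, a3, b1, b2, b3] <;> ring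
  inv_mem' := by
    rintro a ⟨a1, a2, a3⟩
    have h := fun i => mul_ap a⁻¹ a i 2
    simp only [inv_mul_cancel, a1, a2, a3, mul_zero, mul_one, zero_add, one_ap] at h
    exact ⟨(h 0).symm, (h 1).symm, (h 2).symm⟩

lemma mem_P {g : G} : g ∈ P ↔ g.1 0 2 = 0 ∧ g.1 1 2 = 0 ∧ g.1 2 2 = 1 := Iff.rfl

lemma u_mem (r : ℤ × ℤ) : u r ∈ P := by simp [mem_P, u_val]
lemma io_mem (M : G2) : io M ∈ P := by simp [mem_P, io_val]

lemma io_u_val (M : G2) (s : ℤ × ℤ) :
    (io M * u s).1 = !![M.1 0 0, M.1 0 1, 0; M.1 1 0, M.1 1 1, 0; s.1, s.2, 1] := by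
  ext i j
  fin_cases i <;> fin_cases j <;>
    simp [mul_ap, io_val, u_val, -Matrix.SpecialLinearGroup.coe_mul]

lemma act_act (r : ℤ × ℤ) (M N : G2) : act (act r M) N = act r (M * N) := by
  simp only [act, mul_ap2, Prod.mk.injEq]
  constructor <;> ring

lemma act_one (r : ℤ × ℤ) : act r 1 = r := by simp [act]

def blk (g : G) : G2 :=
  if h : g.1 0 0 * g.1 1 1 - g.1 0 1 * g.1 1 0 = 1 then
    ⟨!![g.1 0 0, g.1 0 1; g.1 1 0, g.1 1 1], by rw [Matrix.det_fin_two_of]; exact h⟩ else 1

def rho (g : G) : ℤ × ℤ := act (g.1 2 0, g.1 2 1) (blk g)⁻¹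

lemma blk_eq (r : ℤ × ℤ) (M : G2) : blk (u r * io M) = M := by
  rw [u_io]
  generalize act r M = s
  have h : (io M * u s).1 0 0 * (io M * u s).1 1 1 - (io M * u s).1 0 1 * (io M * u s).1 1 0
      = 1 := by rw [io_u_val]; simpa using det2 M
  have e : blk (io M * u s) = ⟨!![(io M * u s).1 0 0, (io M * u s).1 0 1;
      (io M * u s).1 1 0, (io M * u s).1 1 1], by rw [Matrix.det_fin_two_of]; exact h⟩ :=
    dif_pos h
  rw [e]
  apply ext4 <;> simp only [io_u_val] <;> simp

lemma rho_eq (r : ℤ × ℤ) (M : G2) : rho (u r * io M) = r := by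
  rw [rho, blk_eq, u_io, io_u_val]
  simp only [Matrix.of_apply, Matrix.cons_val', Matrix.cons_val_zero, Matrix.cons_val_one,
    Matrix.cons_val, Matrix.cons_val_fin_one, Prod.mk.eta]
  rw [act_act, mul_inv_cancel, act_one]

lemma P_decomp {g : G} (hg : g ∈ P) : ∃ r M, g = u r * io M := by
  obtain ⟨h1, h2, h3⟩ := hg
  have hd := det3 g
  simp only [h1, h2, h3, mul_zero, zero_mul, mul_one, sub_zero, add_zero] at hd
  let M : G2 := ⟨!![g.1 0 0, g.1 0 1; g.1 1 0, g.1 1 1], by rw [Matrix.det_fin_two_of]; exact hd⟩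
  refine ⟨act (g.1 2 0, g.1 2 1) M⁻¹, M, ?_⟩
  rw [u_io, act_act, inv_mul_cancel, act_one]
  apply ext9 <;> rw [io_u_val] <;> simp [M, h1, h2, h3]

lemma ell_io_le (r : ℤ × ℤ) (M : G2) : ell (io M) ≤ ell (u r * io M) := by
  have h := ell_le_iff.1 (le_refl (ell (u r * io M)))
  have k : ∀ N s, nu (io N) ≤ nu (io N * u s) := fun N s => by
    rw [nu_io, nu_eq, io_u_val]; simp; omega
  refine ell_le_iff.2 ⟨h.1, le_trans ?_ h.2.1, le_trans ?_ h.2.2⟩
  · rw [u_io]; exact k _ _
  · rw [mul_inv_rev, ← map_inv, ← u_neg]; exact k _ _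

lemma ell_u_le2 (r : ℤ × ℤ) (M : G2) : ell (u r) ≤ 2 * ell (u r * io M) := by
  have h1 := ell_mul (u r * io M) (io M)⁻¹
  have h2 := ell_io_le r M
  rw [mul_inv_cancel_right, ell_inv] at h1
  omega

/-- Normal form in the parabolic subgroup. -/
noncomputable def NP (g : G) : Word := U (rho g) ++ N2 (blk g)

lemma NP_eq (r : ℤ × ℤ) (M : G2) : NP (u r * io M) = U r ++ N2 M := by
  rw [NP, rho_eq, blk_eq]

attribute [irreducible] NP

lemma ev_NP {g : G} (hg : g ∈ P) : ev lv (NP g) = g := by
  obtain ⟨r, M, rfl⟩ := P_decomp hg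
  rw [NP_eq, ev_append, ev_U, ev_N2]

lemma len_NP : Len P NP 1000 := fun g hg => by
  obtain ⟨r, M, rfl⟩ := P_decomp hg
  have := ell_io_le r M
  have := ell_u_le2 r M
  have := length_U r
  have := length_N2 M
  rw [NP_eq]; (try simp only [List.length_append, List.length_cons, List.length_nil, List.length_replicate, length_winv, Sym.length_w] at *); omega

lemma NP_absU {δ : ℤ × ℤ} (hδ : In 0 δ) : Abs P NP 5000 [lt (u δ)] := fun g hg => by
  have e : ev lv [lt (u δ)] = u δ := by simp [lv_lt (ell_unit hδ)]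
  rw [e]
  refine ⟨P.mul_mem (u_mem _) hg, ?_⟩
  obtain ⟨r, M, rfl⟩ := P_decomp hg
  have := ell_io_le r M
  have := ell_u_le2 r M
  have := length_N2 M
  rw [← mul_assoc, ← u_add, add_comm δ, NP_eq, NP_eq]
  exact ((U_inc (r := r) hδ).2.right (N2 M) (by (try simp only [List.length_append, List.length_cons, List.length_nil, List.length_replicate, length_winv, Sym.length_w] at *); omega)).cast (by simp) rfl

lemma NP_absM {m : G2} (hm : ell (io m) ≤ 1) (h1 : In 0 (act (1, 0) m⁻¹))
    (h2 : In 0 (act (0, 1) m⁻¹))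
    (h3 : ∀ M, Cn (3100 * ell (io M)) ([lt (io m)] ++ N2 M) (N2 (m * M))) :
    Abs P NP 5000 [lt (io m)] := fun g hg => by
  have e : ev lv [lt (io m)] = io m := by simp [lv_lt hm]
  rw [e]
  refine ⟨P.mul_mem (io_mem _) hg, ?_⟩
  obtain ⟨r, M, rfl⟩ := P_decomp hg
  have := ell_io_le r M
  have := ell_u_le2 r M
  have := length_N2 M
  have e2 : io m * u r = u (act r m⁻¹) * io m := by
    rw [u_io, act_act, inv_mul_cancel, act_one]
  have c := U_conj hm h1 h2 r
  have := c.len_right
  rw [← mul_assoc, e2, mul_assoc, ← map_mul, NP_eq, NP_eq]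
  exact ((c.right (N2 M) (by (try simp only [List.length_append, List.length_cons, List.length_nil, List.length_replicate, length_winv, Sym.length_w] at *); omega)).cast (by simp) rfl).trans
    (((h3 M).left (U (act r m⁻¹)) (by (try simp only [List.length_append, List.length_cons, List.length_nil, List.length_replicate, length_winv, Sym.length_w] at *); omega)).cast (by simp) rfl)

lemma NP_absR : Abs P NP 5000 [lR] :=
  NP_absM ell_R (by unfold In; decide) (by unfold In; decide) N2_absR

lemma NP_absS : Abs P NP 5000 [lS] :=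
  NP_absM ell_S (by unfold In; decide) (by unfold In; decide) fun M =>
    (N2_absS M).mono (by omega)

lemma NP_absL : Abs P NP 15000 [lL] :=
  Abs.of_small (C := 5000) (k := 3) (B := [lR] ++ ([lS] ++ [lR])) (by norm_num)
    (len_NP.mono (by norm_num))
    (NP_absR.append (by norm_num) (NP_absS.append (by norm_num) NP_absR))
    (by simp only [ev_append, ev_cons, ev_nil, lv_R, lv_S, lv_L]; decide) (by simp) (by norm_num)
    (by norm_num)

section GenAbs
variable {D : Set G} {T : G → Word} {C : ℕ}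

lemma absE12 (hC : 1 ≤ C) (hl : Len D T C) (hD : ∀ x, ∀ h ∈ D, io (Rz x) * h ∈ D)
    (hR : Abs D T C [lR]) (x : ℤ) : Abs D T (C * 300) (E12 x) := by
  refine absU cs (x, 0) hC hl (fun s b h hh => ?_) (fun _ => by rw [cs_u]; exact hR)
    (fun h => absurd rfl h)
  obtain ⟨s1, s2⟩ := s
  obtain rfl : s2 = 0 := by have := b.2; simpa using this
  rw [cs_u]; exact hD _ h hh

lemma absE21 (hC : 1 ≤ C) (hl : Len D T C) (hD : ∀ x, ∀ h ∈ D, io (Lz x) * h ∈ D)
    (hL : Abs D T C [lL]) (x : ℤ) : Abs D T (C * 300) (E21 x) := by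
  refine absU (cs.trans cs) (0, x) hC hl (fun s b h hh => ?_) (fun h => absurd rfl h)
    (fun _ => by rw [cs2_u]; exact hL)
  obtain ⟨s1, s2⟩ := s
  obtain rfl : s1 = 0 := by have := b.1; simpa using this
  rw [cs2_u]; exact hD _ h hh

lemma genAbs (hC : 1 ≤ C) (hl : Len D T C) (hD : ∀ p ∈ P, ∀ h ∈ D, p * h ∈ D)
    (hR : Abs D T C [lR]) (hL : Abs D T C [lL]) (hS : Abs D T C [lS])
    (h1 : Abs D T C [lt (u (1, 0))]) (h2 : Abs D T C [lt (u (0, 1))]) {p : G} (hp : p ∈ P) :
    Abs D T (C * 300) (NP p) := by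
  have hC' : 1 ≤ C * 300 := by omega
  have a12 := absE12 hC hl (fun x => hD _ (io_mem _)) hR
  have a21 := absE21 hC hl (fun x => hD _ (io_mem _)) hL
  have aNp : ∀ h, Q0 h → Abs D T (C * 300) (Np h) := by
    refine Q0_ind _ ?_ ?_ ?_
    · intro h _ h0; rw [Np_0 h0]; exact a12 _
    · intro h c d ih; rw [Np_R c d]; exact (a12 _).append hC' ih
    · intro h c d ih; rw [Np_L c d]; exact (a21 _).append hC' ih
  have aS : ∀ k, Abs D T (C * 300) (List.replicate k lS) := by
    intro k
    induction k with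
    | zero => exact Abs.nil (hl.mono (by omega))
    | succ k ih => exact (hS.mono (by omega)).append hC' ih
  obtain ⟨r, M, rfl⟩ := P_decomp hp
  obtain ⟨k, h, hk, hq, rfl⟩ := exists_kk M
  rw [NP_eq, N2_eq hq hk]
  refine Abs.append hC' ?_ ((aS k).append hC' (aNp h hq))
  have := absU Sym.refl r hC hl (fun s _ => hD _ (u_mem s)) (fun _ => h1) (fun _ => h2)
  rwa [Sym.refl_w] at this

end GenAbs

/-- Normal forms with linear length and linear space multiplication. -/
structure FS (H : Subgroup G) (N : G → Word) : Prop where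
  ev : ∀ h ∈ H, ev lv (N h) = h
  len : Len H N 1000
  mul : ∀ g ∈ H, ∀ h ∈ H, Cn (5000000000 * (ell g + ell h)) (N g ++ N h) (N (g * h))

lemma FS_P : FS P NP := by
  refine ⟨fun h hh => ev_NP hh, len_NP, fun g hg h hh => ?_⟩
  have := (genAbs (C := 15000) (by norm_num) (len_NP.mono (by norm_num))
    (fun p hp h hh => P.mul_mem hp hh) (NP_absR.mono (by norm_num)) NP_absL
    (NP_absS.mono (by norm_num)) ((NP_absU In.e1).mono (by norm_num))
    ((NP_absU In.e2).mono (by norm_num)) hg h hh).2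
  rw [ev_NP hg] at this
  have := len_NP g hg
  exact Conn.mono ‹_› (by omega)

def Sym.sub (φ : Sym) (H : Subgroup G) : Subgroup G := H.comap φ.φ.symm.toMonoidHom

lemma Sym.mem_sub (φ : Sym) (H : Subgroup G) (g : G) : φ.φ g ∈ φ.sub H ↔ g ∈ H := by
  simp [Sym.sub]

noncomputable def Sym.nf (φ : Sym) (N : G → Word) (g : G) : Word := φ.w (N (φ.φ.symm g))

lemma Sym.nf_eq (φ : Sym) (N : G → Word) (g : G) : φ.nf N (φ.φ g) = φ.w (N g) := by
  simp [Sym.nf]

lemma FS.sym {H : Subgroup G} {N : G → Word} (h : FS H N) (φ : Sym) :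
    FS (φ.sub H) (φ.nf N) := by
  refine ⟨fun g hg => ?_, fun g hg => ?_, fun g hg g' hg' => ?_⟩
  · obtain ⟨g, rfl⟩ := φ.φ.surjective g
    rw [φ.nf_eq, φ.ev_w, h.ev g ((φ.mem_sub H g).1 hg)]
  · obtain ⟨g, rfl⟩ := φ.φ.surjective g
    rw [φ.nf_eq, φ.length_w, φ.ell_eq]; exact h.len g ((φ.mem_sub H g).1 hg)
  · obtain ⟨g, rfl⟩ := φ.φ.surjective g
    obtain ⟨g', rfl⟩ := φ.φ.surjective g'
    rw [← map_mul, φ.nf_eq, φ.nf_eq, φ.nf_eq, φ.ell_eq, φ.ell_eq, ← φ.w_append]
    exact (h.mul g ((φ.mem_sub H g).1 hg) g' ((φ.mem_sub H g').1 hg')).sym φ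

lemma FS.absL {H : Subgroup G} {N : G → Word} (h : FS H N) {s : Letter} (hs : lv s ∈ H) :
    Abs H N 5000000000 [s] := fun g hg => by
  have e : Pool.Agent.H412Z.FL.ev lv [s] = lv s := by simp
  rw [e]
  refine ⟨H.mul_mem hs hg, ?_⟩
  have l1 := h.len _ hs
  have l2 := h.len _ hg
  have l3 := ell_lv s
  have c : Cn 1000 [s] (N (lv s)) :=
    small (by rw [e, h.ev _ hs]) (by simp) (by omega) (by simp) (by omega)
  exact (c.right (N g) (by (try simp only [List.length_append, List.length_cons, List.length_nil, List.length_replicate, length_winv, Sym.length_w] at *); omega)).trans ((h.mul _ hs _ hg).mono (by (try simp only [List.length_append, List.length_cons, List.length_nil, List.length_replicate, length_winv, Sym.length_w] at *); omega))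

lemma FS.block {H : Subgroup G} {N : G → Word} (h : FS H N) {B : Word} {C : ℕ} (hC : 1000 ≤ C)
    (hB : Abs H N C B) : Cn (C * (B.length + 1)) B (N (Pool.Agent.H412Z.FL.ev lv B)) := by
  have c := (hB 1 H.one_mem).2
  have l := h.len 1 H.one_mem
  rw [ell_one, mul_one] at c l
  have c1 : Cn 1000 [] (N 1) :=
    small (by rw [h.ev _ H.one_mem]; rfl) (by simp) (by omega) (by simp) (by omega)
  exact ((c1.left B (by nlinarith)).cast (by simp) rfl).trans c

lemma NP_conj {s : G} (hs : ell s ≤ 1) (h1 : ∀ p ∈ P, s * p * s⁻¹ ∈ P) {p : G} (hp : p ∈ P) :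
    Cn (10000000000000000 * ell p) ([lt s] ++ NP p) (NP (s * p * s⁻¹) ++ [lt s]) := by
  have hs' : ell s⁻¹ ≤ 1 := by rwa [ell_inv]
  have hc : ∀ p, ell (s * p * s⁻¹) ≤ ell p + 2 := fun p => by
    have := ell_mul (s * p) s⁻¹
    have := ell_mul s p
    omega
  set T : G → Word := fun h => [lt s⁻¹] ++ (NP (s * h * s⁻¹) ++ [lt s]) with hT
  have hl : Len P T 30000000000 := fun h hh => by
    have := len_NP _ (h1 h hh)
    have := hc h
    have := one_le_ell h
    simp only [hT]; (try simp only [List.length_append, List.length_cons, List.length_nil, List.length_replicate, length_winv, Sym.length_w] at *); omega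
  have ha : ∀ a : Letter, lv a ∈ P → Abs P T 30000000000 [a] := fun a ha h hh => by
    have e : ev lv [a] = lv a := by simp
    rw [e]
    refine ⟨P.mul_mem ha hh, ?_⟩
    have l1 := len_NP _ (h1 _ ha)
    have l2 := len_NP _ (h1 _ hh)
    have l3 := hc (lv a)
    have l4 := ell_lv a
    have l5 := hc h
    have c1 : Cn 3001 ([a] ++ [lt s⁻¹]) ([lt s⁻¹] ++ NP (s * lv a * s⁻¹)) :=
      small (by simp only [ev_append, ev_NP (h1 _ ha)]; simp [lv_lt hs', mul_assoc]) (by simp) (by (try simp only [List.length_append, List.length_cons, List.length_nil, List.length_replicate, length_winv, Sym.length_w] at *); omega) (by simp)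
        (by (try simp only [List.length_append, List.length_cons, List.length_nil, List.length_replicate, length_winv, Sym.length_w] at *); omega)
    have c2 := FS_P.mul _ (h1 _ ha) _ (h1 _ hh)
    rw [show s * lv a * s⁻¹ * (s * h * s⁻¹) = s * (lv a * h) * s⁻¹ by group] at c2
    simp only [hT]
    exact ((c1.right (NP (s * h * s⁻¹) ++ [lt s]) (by (try simp only [List.length_append, List.length_cons, List.length_nil, List.length_replicate, length_winv, Sym.length_w] at *); omega)).cast (by simp) rfl).trans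
      (((c2.right [lt s] le_rfl).left [lt s⁻¹] (by (try simp only [List.length_append, List.length_cons, List.length_nil, List.length_replicate, length_winv, Sym.length_w] at *); omega)).cast (by simp) rfl)
  have c := (genAbs (by norm_num) hl (fun p hp h hh => P.mul_mem hp hh)
    (ha _ (by rw [lv_R]; exact io_mem _)) (ha _ (by rw [lv_L]; exact io_mem _))
    (ha _ (by rw [lv_S]; exact io_mem _))
    (ha _ (by rw [lv_lt (ell_unit In.e1)]; exact u_mem _))
    (ha _ (by rw [lv_lt (ell_unit In.e2)]; exact u_mem _)) hp 1 P.one_mem).2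
  rw [ev_NP hp, mul_one, ell_one] at c
  have l1 := len_NP _ hp
  have l2 := one_le_ell p
  have l3 := len_NP _ (h1 1 P.one_mem)
  have l4 := hc 1
  have l5 := len_NP _ (h1 p hp)
  have l6 := hc p
  rw [ell_one] at l4
  have c1 : Cn 3002 [] (T 1) :=
    small (by simp only [hT, ev_append, ev_NP (h1 1 P.one_mem)]; simp [lv_lt hs', lv_lt hs])
      (by simp) (by simp only [hT]; (try simp only [List.length_append, List.length_cons, List.length_nil, List.length_replicate, length_winv, Sym.length_w] at *); omega) (by simp) (by simp only [hT]; (try simp only [List.length_append, List.length_cons, List.length_nil, List.length_replicate, length_winv, Sym.length_w] at *); omega)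
  have c2 : Cn 2 ([lt s] ++ [lt s⁻¹]) [] :=
    small (by simp [lv_lt hs', lv_lt hs]) (by simp) (by simp) (by simp) (by simp)
  refine (((c1.left ([lt s] ++ NP p) (by (try simp only [List.length_append, List.length_cons, List.length_nil, List.length_replicate, length_winv, Sym.length_w] at *); omega)).cast (by simp) rfl).trans
    ((c.left [lt s] (by (try simp only [List.length_append, List.length_cons, List.length_nil, List.length_replicate, length_winv, Sym.length_w] at *); omega)).cast (by simp) rfl)).trans ?_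
  exact (c2.right (NP (s * p * s⁻¹) ++ [lt s]) (by (try simp only [List.length_append, List.length_cons, List.length_nil, List.length_replicate, length_winv, Sym.length_w] at *); omega)).cast (by simp [hT]) (by simp)

end Pool.Agent.H412Z.FL
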