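import Pool.Agent.H412Z.FL7

set_option autoImplicit false
set_option linter.unusedSimpArgs false
set_option linter.unusedTactic false
set_option linter.unreachableTactic false

namespace Pool.Agent.H412Z.FL

def fQ : Sym := th.trans (cs.trans cs)
def Q : Subgroup G := fQ.sub P
def P1 : Subgroup G := cs.sub P
noncomputable def NQ : G → Word := fQ.nf NP
noncomputable def N1 : G → Word := cs.nf NP

lemma FS_Q : FS Q NQ := FS_P.sym fQ
lemma FS_1 : FS P1 N1 := FS_P.sym cs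

lemma NQ_eq (g : G) : NQ (fQ.φ g) = fQ.w (NP g) := Sym.nf_eq _ _ _

attribute [irreducible] NQ N1

lemma fQ_val (g : G) : (fQ.φ g).1 = !![(g⁻¹).1 1 1, (g⁻¹).1 2 1, (g⁻¹).1 0 1;
    (g⁻¹).1 1 2, (g⁻¹).1 2 2, (g⁻¹).1 0 2; (g⁻¹).1 1 0, (g⁻¹).1 2 0, (g⁻¹).1 0 0] := by
  rw [fQ, Sym.trans_ap, Sym.trans_ap, cs_val, cs_val, th_eq]
  rfl

lemma mem_Q {g : G} : g ∈ Q ↔ g.1 1 0 = 0 ∧ g.1 1 1 = 1 ∧ g.1 1 2 = 0 := by
  obtain ⟨g, rfl⟩ := fQ.φ.surjective g
  rw [Q, Sym.mem_sub, ← P.inv_mem_iff, mem_P, fQ_val]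
  simp only [Matrix.of_apply, Matrix.cons_val', Matrix.cons_val_zero, Matrix.cons_val_one,
    Matrix.cons_val, Matrix.cons_val_fin_one]
  tauto

lemma mem_P1 {g : G} : g ∈ P1 ↔ g.1 0 0 = 1 ∧ g.1 1 0 = 0 ∧ g.1 2 0 = 0 := by
  obtain ⟨g, rfl⟩ := cs.φ.surjective g
  rw [P1, Sym.mem_sub, mem_P, cs_val]
  simp only [Matrix.of_apply, Matrix.cons_val', Matrix.cons_val_zero, Matrix.cons_val_one,
    Matrix.cons_val, Matrix.cons_val_fin_one]
  tauto

def D0 : G := ⟨!![1, 0, 0; 0, -1, 0; 0, 0, -1], by decide⟩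
def D1 : G := ⟨!![-1, 0, 0; 0, 1, 0; 0, 0, -1], by decide⟩
def D2 : G := ⟨!![-1, 0, 0; 0, -1, 0; 0, 0, 1], by decide⟩

lemma D0_val : D0.1 = !![1, 0, 0; 0, -1, 0; 0, 0, -1] := rfl
lemma D1_val : D1.1 = !![-1, 0, 0; 0, 1, 0; 0, 0, -1] := rfl
lemma D2_val : D2.1 = !![-1, 0, 0; 0, -1, 0; 0, 0, 1] := rfl
lemma ell_D0 : ell D0 ≤ 1 := ell_le le_rfl (by decide) (by decide)
lemma ell_D1 : ell D1 ≤ 1 := ell_le le_rfl (by decide) (by decide)
lemma ell_D2 : ell D2 ≤ 1 := ell_le le_rfl (by decide) (by decide)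

lemma NQ_conj {q : G} (hq : q ∈ Q) : D0 * q * D0⁻¹ ∈ Q ∧
    Cn (10000000000000000 * ell q) ([lt D0] ++ NQ q) (NQ (D0 * q * D0⁻¹) ++ [lt D0]) := by
  obtain ⟨p, rfl⟩ := fQ.φ.surjective q
  rw [Q, Sym.mem_sub] at hq
  have e : fQ.φ D1 = D0 := by
    apply Subtype.ext; rw [fQ_val]; decide
  have h1 : ∀ p ∈ P, D1 * p * D1⁻¹ ∈ P := fun p hp => by
    rw [show D1⁻¹ = D1 by decide]
    obtain ⟨a, b, c⟩ := hp
    simp [mem_P, mul_ap, D1_val, a, b, c, -Matrix.SpecialLinearGroup.coe_mul]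
  have e2 : D0 * fQ.φ p * D0⁻¹ = fQ.φ (D1 * p * D1⁻¹) := by
    rw [map_mul, map_mul, map_inv, e]
  have c := (NP_conj ell_D1 h1 hq).sym fQ
  rw [Sym.w_append, Sym.w_append, Sym.w_lt _ ell_D1, e] at c
  rw [e2, Q, Sym.mem_sub, NQ_eq, NQ_eq, fQ.ell_eq]
  exact ⟨h1 p hq, c⟩

attribute [irreducible] Q P1

lemma u_zpow (s : ℤ × ℤ) : u s = u (1, 0) ^ s.1 * u (0, 1) ^ s.2 := by
  have k : ∀ (δ : ℤ × ℤ) (n : ℤ), u δ ^ n = u (n • δ) := fun δ n => by
    induction n using Int.induction_on with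
    | zero => simp [u_zero]
    | succ n ih => rw [zpow_add_one, ih, add_smul, one_smul, u_add]
    | pred n ih => rw [zpow_sub_one, ih, sub_smul, one_smul, sub_eq_add_neg, u_add, u_neg]
  rw [k, k, ← u_add]; congr 1; simp

lemma FS.absU {H : Subgroup G} {N : G → Word} (h : FS H N) (φ : Sym) (r : ℤ × ℤ)
    (h1 : r.1 ≠ 0 → φ.φ (u (1, 0)) ∈ H) (h2 : r.2 ≠ 0 → φ.φ (u (0, 1)) ∈ H) :
    Abs H N 1500000000000 (φ.w (U r)) := by
  refine Pool.Agent.H412Z.FL.absU (C := 5000000000) φ r (by norm_num) (h.len.mono (by norm_num))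
    (fun s b g hg => H.mul_mem ?_ hg)
    (fun c => h.absL (by rw [lv_lt (by rw [φ.ell_eq]; exact ell_unit In.e1)]; exact h1 c))
    (fun c => h.absL (by rw [lv_lt (by rw [φ.ell_eq]; exact ell_unit In.e2)]; exact h2 c))
  rw [u_zpow, map_mul, map_zpow, map_zpow]
  refine H.mul_mem ?_ ?_
  · by_cases c : s.1 = 0
    · rw [c, zpow_zero]; exact H.one_mem
    · exact H.zpow_mem (h1 (by have := b.1; omega)) _
  · by_cases c : s.2 = 0
    · rw [c, zpow_zero]; exact H.one_mem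
    · exact H.zpow_mem (h2 (by have := b.2; omega)) _

lemma ell_u_ent {g : G} {r : ℤ × ℤ} (h : r.1.natAbs + r.2.natAbs ≤ nu g) :
    ell (u r) ≤ 2 * ell g := by
  have h1 := nu_le g
  have h2 := one_le_ell g
  refine (ell_u_le (n := ell g + 1) (by omega) ?_).trans (by omega)
  have : 1 ≤ 64 ^ ell g := Nat.one_le_pow _ _ (by norm_num)
  omega

lemma cmp {H H' : Subgroup G} {N N' : G → Word} (h : FS H N) (h' : FS H' N') (φ ψ : Sym)
    (r s : ℤ × ℤ) {n : G} (e : n = φ.φ (u r) * ψ.φ (u s))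
    (hr : r.1.natAbs + r.2.natAbs ≤ nu n) (hs : s.1.natAbs + s.2.natAbs ≤ nu n)
    (h1 : r.1 ≠ 0 → φ.φ (u (1, 0)) ∈ H ∧ φ.φ (u (1, 0)) ∈ H')
    (h2 : r.2 ≠ 0 → φ.φ (u (0, 1)) ∈ H ∧ φ.φ (u (0, 1)) ∈ H')
    (h3 : s.1 ≠ 0 → ψ.φ (u (1, 0)) ∈ H ∧ ψ.φ (u (1, 0)) ∈ H')
    (h4 : s.2 ≠ 0 → ψ.φ (u (0, 1)) ∈ H ∧ ψ.φ (u (0, 1)) ∈ H') :
    Cn (400000000000000 * ell n) (N n) (N' n) := by
  have c := h.block (by norm_num) ((h.absU φ r (fun c => (h1 c).1) (fun c => (h2 c).1)).append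
    (by norm_num) (h.absU ψ s (fun c => (h3 c).1) (fun c => (h4 c).1)))
  have c' := h'.block (by norm_num) ((h'.absU φ r (fun c => (h1 c).2) (fun c => (h2 c).2)).append
    (by norm_num) (h'.absU ψ s (fun c => (h3 c).2) (fun c => (h4 c).2)))
  rw [ev_append, φ.ev_w, ψ.ev_w, ev_U, ev_U, ← e] at c c'
  have := length_U r
  have := length_U s
  have := ell_u_ent hr
  have := ell_u_ent hs
  have := one_le_ell n
  exact (c.symm.trans c').mono (by (try simp only [List.length_append, List.length_cons, List.length_nil, List.length_replicate, length_winv, Sym.length_w]); omega)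

lemma cs_u_val (r : ℤ × ℤ) : (cs.φ (u r)).1 = !![1, r.1, r.2; 0, 1, 0; 0, 0, 1] := by
  rw [cs_val]; rfl

lemma refl_ap (g : G) : Sym.refl.φ g = g := rfl

lemma cmpPQ {n : G} (h1 : n ∈ P) (h2 : n ∈ Q) : Cn (400000000000000 * ell n) (NP n) (NQ n) := by
  obtain ⟨a1, a2, a3⟩ := mem_P.1 h1
  obtain ⟨b1, b2, b3⟩ := mem_Q.1 h2
  have hd := det3 n
  simp only [a1, a2, a3, b1, b2, mul_zero, zero_mul, mul_one, sub_zero, add_zero] at hd
  refine cmp FS_P FS_Q cs Sym.refl (n.1 0 1, 0) (n.1 2 0, n.1 2 1) ?_ (by rw [nu_eq]; simp; omega)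
    (by rw [nu_eq]; simp; omega) ?_ (fun c => absurd rfl c) ?_ ?_
  · apply ext9 <;> simp [mul_ap, cs_u_val, refl_ap, u_val, a1, a2, a3, b1, b2, hd,
      -Matrix.SpecialLinearGroup.coe_mul]
  all_goals intro _; simp [mem_P, mem_Q, cs_u_val, refl_ap, u_val]

lemma cmpQ1 {n : G} (h1 : n ∈ Q) (h2 : n ∈ P1) : Cn (400000000000000 * ell n) (NQ n) (N1 n) := by
  obtain ⟨a1, a2, a3⟩ := mem_Q.1 h1
  obtain ⟨b1, b2, b3⟩ := mem_P1.1 h2
  have hd := det3 n
  simp only [a1, a2, a3, b1, b3, mul_zero, zero_mul, mul_one, one_mul, sub_zero, add_zero] at hd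
  refine cmp FS_Q FS_1 Sym.refl cs (0, n.1 2 1) (n.1 0 1 - n.1 0 2 * 0, n.1 0 2) ?_
    (by rw [nu_eq]; simp; omega)
    (by rw [nu_eq]; simp; omega) (fun c => absurd rfl c) ?_ ?_ ?_
  · apply ext9 <;> simp [mul_ap, cs_u_val, refl_ap, u_val, a1, a2, a3, b1, b3, hd,
      -Matrix.SpecialLinearGroup.coe_mul]
  all_goals intro _; simp [mem_P1, mem_Q, cs_u_val, refl_ap, u_val]

lemma ell_inv_mul (g h : G) : ell (g⁻¹ * h) ≤ ell g + ell h := by
  simpa using ell_mul g⁻¹ h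

lemma ell_mul_inv (g h : G) : ell (g * h⁻¹) ≤ ell g + ell h := by
  simpa using ell_mul g h⁻¹

lemma uq0 {p q r p' q' r' : G} {m : ℕ} (hp : p ∈ P) (hq : q ∈ Q) (hr : r ∈ P1) (hp' : p' ∈ P)
    (hq' : q' ∈ Q) (hr' : r' ∈ P1) (e : p * q * r = p' * q' * r') (hn : p⁻¹ * p' ∈ Q)
    (l1 : ell p ≤ m) (l2 : ell q ≤ m) (l3 : ell r ≤ m) (l4 : ell p' ≤ m) (l5 : ell q' ≤ m)
    (l6 : ell r' ≤ m) :
    Cn (1000000000000000 * m) (NP p' ++ (NQ q' ++ N1 r')) (NP p ++ (NQ q ++ N1 r)) := by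
  have nP : p⁻¹ * p' ∈ P := P.mul_mem (P.inv_mem hp) hp'
  have n1 : r * r'⁻¹ ∈ P1 := P1.mul_mem hr (P1.inv_mem hr')
  have e2 : p⁻¹ * p' * q' = q * (r * r'⁻¹) := by
    rw [← mul_assoc q, eq_mul_inv_iff_mul_eq, mul_assoc, mul_assoc, inv_mul_eq_iff_eq_mul,
      ← mul_assoc, ← mul_assoc, e]
  have nQ : r * r'⁻¹ ∈ Q := by
    rw [show r * r'⁻¹ = q⁻¹ * (p⁻¹ * p' * q') by rw [e2]; group]
    exact Q.mul_mem (Q.inv_mem hq) (Q.mul_mem hn hq')
  have k1 := ell_inv_mul p p'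
  have k2 := ell_mul_inv r r'
  have a1 := len_NP _ hp
  have a2 := FS_Q.len _ hq
  have a3 := FS_Q.len _ hq'
  have a4 := FS_1.len _ hr'
  have c1 := FS_P.mul _ hp _ nP
  rw [mul_inv_cancel_left] at c1
  have c2 := cmpPQ nP hn
  have c3 := FS_Q.mul _ hn _ hq'
  have c4 := FS_Q.mul _ hq _ nQ
  rw [← e2] at c4
  have c5 := cmpQ1 nQ n1
  have c6 := FS_1.mul _ n1 _ hr'
  rw [inv_mul_cancel_right] at c6
  refine Conn.trans (v := NP p ++ (NP (p⁻¹ * p') ++ (NQ q' ++ N1 r')))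
    ((c1.symm.right (NQ q' ++ N1 r') (by (try simp only [List.length_append, List.length_cons, List.length_nil, List.length_replicate, length_winv, Sym.length_w]); omega)).cast rfl (by simp)) ?_
  refine Conn.trans ((c2.right (NQ q' ++ N1 r') le_rfl).left (NP p) (by (try simp only [List.length_append, List.length_cons, List.length_nil, List.length_replicate, length_winv, Sym.length_w]); omega)) ?_
  refine Conn.trans (v := NP p ++ (NQ q ++ (NQ (r * r'⁻¹) ++ N1 r')))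
    (((((c3.mono (M := 5000000000 * (3 * m)) (by omega)).trans
      (c4.symm.mono (by omega))).right (N1 r') le_rfl).left (NP p) (by (try simp only [List.length_append, List.length_cons, List.length_nil, List.length_replicate, length_winv, Sym.length_w]); omega)).cast
      (by simp) (by simp)) ?_
  refine Conn.trans (((c5.right (N1 r') le_rfl).left (NQ q) le_rfl).left (NP p) (by (try simp only [List.length_append, List.length_cons, List.length_nil, List.length_replicate, length_winv, Sym.length_w]); omega)) ?_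
  exact (c6.left (NQ q) le_rfl).left (NP p) (by (try simp only [List.length_append, List.length_cons, List.length_nil, List.length_replicate, length_winv, Sym.length_w]); omega)

lemma uq {p q r p' q' r' : G} {m : ℕ} (hp : p ∈ P) (hq : q ∈ Q) (hr : r ∈ P1) (hp' : p' ∈ P)
    (hq' : q' ∈ Q) (hr' : r' ∈ P1) (e : p * q * r = p' * q' * r') (h0 : q'.1 0 0 ≠ 0)
    (l1 : ell p ≤ m) (l2 : ell q ≤ m) (l3 : ell r ≤ m) (l4 : ell p' ≤ m) (l5 : ell q' ≤ m)
    (l6 : ell r' ≤ m) :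
    Cn (100000000000000000 * m) (NP p' ++ (NQ q' ++ N1 r')) (NP p ++ (NQ q ++ N1 r)) := by
  have nP : p⁻¹ * p' ∈ P := P.mul_mem (P.inv_mem hp) hp'
  have n1 : r * r'⁻¹ ∈ P1 := P1.mul_mem hr (P1.inv_mem hr')
  have e2 : p⁻¹ * p' * q' = q * (r * r'⁻¹) := by
    rw [← mul_assoc q, eq_mul_inv_iff_mul_eq, mul_assoc, mul_assoc, inv_mul_eq_iff_eq_mul,
      ← mul_assoc, ← mul_assoc, e]
  obtain ⟨a1, a2, a3⟩ := mem_P.1 nP
  have a4 : (p⁻¹ * p').1 1 0 = 0 := by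
    have h := mul_ap (p⁻¹ * p') q' 1 0
    rw [e2, mul_ap, a2, (mem_Q.1 hq).1, (mem_Q.1 hq).2.1, (mem_Q.1 hq).2.2, (mem_P1.1 n1).2.1,
      (mem_Q.1 hq').1] at h
    simpa [h0] using h
  have hd := det3 (p⁻¹ * p')
  simp only [a1, a2, a3, a4, mul_zero, zero_mul, mul_one, sub_zero, add_zero] at hd
  rcases Int.eq_one_or_neg_one_of_mul_eq_one' hd with h | h
  · exact (uq0 hp hq hr hp' hq' hr' e (mem_Q.2 ⟨a4, h.2, a2⟩) l1 l2 l3 l4 l5 l6).mono (by omega)
  have m1 := one_le_ell p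
  have d2 : D2 ∈ P := by simp [mem_P, D2_val]
  have d1 : D1 ∈ Q := by simp [mem_Q, D1_val]
  have d0 : D0 ∈ P1 := by simp [mem_P1, D0_val]
  obtain ⟨qc, cc⟩ := NQ_conj hq'
  have b1 := ell_D0
  have b2 := ell_D1
  have b3 := ell_D2
  have k1 := ell_mul p' D2
  have k2 := ell_mul_inv (D0 * q') D0
  have k3 := ell_mul D0 q'
  have k4 := ell_mul D1 (D0 * q' * D0⁻¹)
  have k5 := ell_mul D0 r'
  have c := uq0 (m := 4 * m) hp hq hr (P.mul_mem hp' d2) (Q.mul_mem d1 qc) (P1.mul_mem d0 hr')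
    (by rw [e, show D1 = D2⁻¹ * D0⁻¹ by decide]; group)
    (by
      rw [← mul_assoc, mem_Q]
      generalize p⁻¹ * p' = n at a4 a2 h
      rw [mul_ap, mul_ap, mul_ap, a4, a2, h.2]
      simp [D2_val])
    (by omega) (by omega) (by omega) (by omega) (by omega) (by omega)
  refine Conn.trans ?_ (c.mono (by omega))
  have a5 := len_NP _ (P.mul_mem hp' d2)
  have a6 := FS_Q.len _ hq'
  have a7 := FS_1.len _ hr'
  have a8 := FS_Q.len _ qc
  have a9 := FS_Q.len _ (Q.mul_mem d1 qc)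
  have a10 := len_NP _ d2
  have c1 := FS_P.mul _ (P.mul_mem hp' d2) _ d2
  rw [mul_assoc, show D2 * D2 = 1 by decide, mul_one] at c1
  have c2 : Cn 1000 (NP D2) ([lt D1] ++ [lt D0]) :=
    small (by rw [ev_NP d2]; simp only [ev_append, ev_cons, ev_nil, lv_lt b1, lv_lt b2]; decide)
      (by omega) (by simp) (by omega) (by simp)
  have c3 := (FS_Q.absL (s := lt D1) (by rw [lv_lt b2]; exact d1) _ qc).2
  have c4 := (FS_1.absL (s := lt D0) (by rw [lv_lt b1]; exact d0) _ hr').2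
  simp only [ev_cons, ev_nil, lv_lt b1, lv_lt b2, mul_one] at c3 c4
  refine Conn.trans (v := NP (p' * D2) ++ (NP D2 ++ (NQ q' ++ N1 r')))
    ((c1.symm.right (NQ q' ++ N1 r') (by (try simp only [List.length_append, List.length_cons, List.length_nil, List.length_replicate, length_winv, Sym.length_w]); omega)).cast rfl (by simp)) ?_
  refine Conn.trans (v := NP (p' * D2) ++ ([lt D1] ++ ([lt D0] ++ NQ q' ++ N1 r')))
    (((c2.right (NQ q' ++ N1 r') le_rfl).left (NP (p' * D2)) (by (try simp only [List.length_append, List.length_cons, List.length_nil, List.length_replicate, length_winv, Sym.length_w]); omega)).cast rfl (by simp)) ?_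
  refine Conn.trans
    (((cc.right (N1 r') le_rfl).left [lt D1] le_rfl).left (NP (p' * D2)) (by (try simp only [List.length_append, List.length_cons, List.length_nil, List.length_replicate, length_winv, Sym.length_w]); omega)) ?_
  refine Conn.trans (v := NP (p' * D2) ++ (NQ (D1 * (D0 * q' * D0⁻¹)) ++ ([lt D0] ++ N1 r')))
    (((c3.right ([lt D0] ++ N1 r') le_rfl).left (NP (p' * D2)) (by (try simp only [List.length_append, List.length_cons, List.length_nil, List.length_replicate, length_winv, Sym.length_w]); omega)).cast (by simp) rfl) ?_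
  exact (c4.left (NQ (D1 * (D0 * q' * D0⁻¹))) le_rfl).left (NP (p' * D2)) (by (try simp only [List.length_append, List.length_cons, List.length_nil, List.length_replicate, length_winv, Sym.length_w]); omega)

end Pool.Agent.H412Z.FL
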