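import Pool.Agent.H412Z.FL8

set_option autoImplicit false
set_option linter.unusedSimpArgs false
set_option linter.unusedTactic false
set_option linter.unreachableTactic false

namespace Pool.Agent.H412Z.FL

lemma bez (a b : ℤ) : ∃ (M : G2) (d : ℤ), 0 ≤ d ∧ M.1 0 0 * d = a ∧ M.1 1 0 * d = b ∧
    d.natAbs ≤ a.natAbs + b.natAbs ∧ ∀ i j, (M.1 i j).natAbs ≤ a.natAbs + b.natAbs + 1 := by
  by_cases h0 : a = 0 ∧ b = 0
  · refine ⟨1, 0, le_rfl, by simp [h0.1], by simp [h0.2], by simp, fun i j => ?_⟩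
    fin_cases i <;> fin_cases j <;> simp
  have hg : 0 < Int.gcd a b := by
    rw [Int.gcd_pos_iff]; tauto
  obtain ⟨a', b', hc, ha, hb⟩ := Int.exists_gcd_one hg
  have hd : Int.gcd a b ≤ a.natAbs + b.natAbs := by
    by_cases c : a = 0
    · have := Int.gcd_le_natAbs_right a (b := b) (by tauto); omega
    · have := Int.gcd_le_natAbs_left b c; omega
  have ha' : a'.natAbs ≤ a.natAbs := by
    conv_rhs => rw [ha, Int.natAbs_mul]
    exact Nat.le_mul_of_pos_right _ (by simpa using hg)
  have hb' : b'.natAbs ≤ b.natAbs := by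
    conv_rhs => rw [hb, Int.natAbs_mul]
    exact Nat.le_mul_of_pos_right _ (by simpa using hg)
  obtain ⟨x, y, hxy⟩ := Int.isCoprime_iff_gcd_eq_one.2 hc
  obtain ⟨x, y, hxy, hx, hy⟩ : ∃ x y : ℤ, x * a' + y * b' = 1 ∧ x.natAbs ≤ b'.natAbs + 1 ∧
      y.natAbs ≤ a'.natAbs + 1 := by
    by_cases c : b' = 0
    · rw [c, mul_zero, add_zero] at hxy
      have := Int.eq_one_or_neg_one_of_mul_eq_one hxy
      exact ⟨x, 0, by simp [hxy], by omega, by simp⟩
    · have h1 := Int.emod_nonneg x c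
      have h2 := Int.emod_lt x c
      have h3 := Int.mul_ediv_add_emod x b'
      have e : x % b' * a' + (y + x / b' * a') * b' = 1 := by linear_combination hxy + a' * h3
      refine ⟨_, _, e, by omega, ?_⟩
      have e2 : (y + x / b' * a') * b' = 1 - x % b' * a' := by linear_combination e
      have h4 := congrArg Int.natAbs e2
      have h5 := Int.natAbs_sub_le 1 (x % b' * a')
      rw [Int.natAbs_mul] at h4 h5
      have h6 : (x % b').natAbs * a'.natAbs ≤ b'.natAbs * a'.natAbs :=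
        Nat.mul_le_mul_right _ (by omega)
      have h7 : 0 < b'.natAbs := by omega
      refine Nat.le_of_mul_le_mul_right ?_ h7
      rw [add_mul, mul_comm a'.natAbs]
      simp only [Int.natAbs_one] at h5
      omega
  refine ⟨⟨!![a', -y; b', x], by rw [Matrix.det_fin_two_of]; linear_combination hxy⟩, _,
    Int.natCast_nonneg _, ha.symm, hb.symm, by simpa using hd, fun i j => ?_⟩
  fin_cases i <;> fin_cases j <;> simp <;> omega

def sw2 (M : G2) : G2 := ⟨!![M.1 1 1, M.1 1 0; M.1 0 1, M.1 0 0], by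
  rw [Matrix.det_fin_two_of]; linear_combination det2 M⟩

def j13 (M : G2) : G := cs.φ (cs.φ (io (sw2 M)))

lemma j13_val (M : G2) :
    (j13 M).1 = !![M.1 0 0, 0, M.1 0 1; 0, 1, 0; M.1 1 0, 0, M.1 1 1] := by
  rw [j13, cs_val, cs_val]; rfl

lemma j13_mem (M : G2) : j13 M ∈ Q := by simp [mem_Q, j13_val]

lemma col_eq {x g : G} (h0 : x.1 0 0 = g.1 0 0) (h1 : x.1 1 0 = g.1 1 0)
    (h2 : x.1 2 0 = g.1 2 0) : x⁻¹ * g ∈ P1 := by
  have h := fun i => mul_ap x⁻¹ x i 0
  simp only [inv_mul_cancel, one_ap] at h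
  rw [mem_P1, mul_ap, mul_ap, mul_ap, ← h0, ← h1, ← h2]
  exact ⟨(h 0).symm, (h 1).symm, (h 2).symm⟩

lemma col_dvd {g : G} {d : ℤ} (h0 : d ∣ g.1 0 0) (h1 : d ∣ g.1 1 0) (h2 : d ∣ g.1 2 0) :
    d.natAbs = 1 := by
  have hd := det3 g
  obtain ⟨x, hx⟩ := h0
  obtain ⟨y, hy⟩ := h1
  obtain ⟨z, hz⟩ := h2
  rw [hx, hy, hz] at hd
  have : d * (x * g.1 1 1 * g.1 2 2 - x * g.1 1 2 * g.1 2 1 - g.1 0 1 * y * g.1 2 2 +
    g.1 0 1 * g.1 1 2 * z + g.1 0 2 * y * g.1 2 1 - g.1 0 2 * g.1 1 1 * z) = 1 := by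
    linear_combination hd
  have := Int.eq_one_or_neg_one_of_mul_eq_one this
  omega

lemma ell_j13 {M : G2} {n : ℕ} (h : ∀ i j, (M.1 i j).natAbs ≤ 64 ^ n) :
    ell (j13 M) ≤ 2 * n + 1 := by
  have : 1 ≤ 64 ^ n := Nat.one_le_pow _ _ (by norm_num)
  refine ell_of_entries fun i j => ?_
  rw [j13_val]
  fin_cases i <;> fin_cases j <;> simp [h, this]

lemma ell_io {M : G2} {n : ℕ} (h : ∀ i j, (M.1 i j).natAbs ≤ 64 ^ n) :
    ell (io M) ≤ 2 * n + 1 := by
  have : 1 ≤ 64 ^ n := Nat.one_le_pow _ _ (by norm_num)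
  refine ell_of_entries fun i j => ?_
  rw [io_val]
  fin_cases i <;> fin_cases j <;> simp [h, this]

def Col (g : G) (n : ℕ) : Prop :=
  (g.1 0 0).natAbs ≤ 64 ^ n ∧ (g.1 1 0).natAbs ≤ 64 ^ n ∧ (g.1 2 0).natAbs ≤ 64 ^ n

lemma Col_ell (g : G) : Col g (ell g) :=
  ⟨(entry_le_nu _ _ _).trans (nu_le g), (entry_le_nu _ _ _).trans (nu_le g),
    (entry_le_nu _ _ _).trans (nu_le g)⟩

lemma fact (g : G) : ∃ M : G2 × G2, (io M.1 * j13 M.2)⁻¹ * g ∈ P1 ∧
    ((j13 M.2).1 0 0 = 0 → g.1 0 0 = 0 ∧ g.1 1 0 = 0) ∧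
    ∀ n, Col g n → ell (io M.1) ≤ 2 * n + 3 ∧ ell (j13 M.2) ≤ 2 * n + 3 := by
  obtain ⟨M, d, -, a1, a2, a3, a4⟩ := bez (g.1 0 0) (g.1 1 0)
  obtain ⟨N, e, b0, b1, b2, -, b4⟩ := bez d (g.1 2 0)
  have he : e = 1 := by
    have := col_dvd (g := g) (d := e) ⟨M.1 0 0 * N.1 0 0, by rw [← a1, ← b1]; ring⟩
      ⟨M.1 1 0 * N.1 0 0, by rw [← a2, ← b1]; ring⟩ ⟨N.1 1 0, by rw [← b2]; ring⟩
    omega
  rw [he, mul_one] at b1 b2
  refine ⟨(M, N), col_eq ?_ ?_ ?_, fun h => ?_, fun n hn => ?_⟩
  · simp [mul_ap, io_val, j13_val, b1, a1, -Matrix.SpecialLinearGroup.coe_mul]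
  · simp [mul_ap, io_val, j13_val, b1, a2, -Matrix.SpecialLinearGroup.coe_mul]
  · simp [mul_ap, io_val, j13_val, b2, -Matrix.SpecialLinearGroup.coe_mul]
  · have : d = 0 := by simpa [j13_val, b1] using h
    rw [← a1, ← a2, this]; simp
  · obtain ⟨c1, c2, c3⟩ := hn
    have : 1 ≤ 64 ^ n := Nat.one_le_pow _ _ (by norm_num)
    exact ⟨ell_io (n := n + 1) fun i j => (a4 i j).trans (by omega),
      ell_j13 (n := n + 1) fun i j => (b4 i j).trans (by omega)⟩

noncomputable def fp (g : G) : G := io (fact g).choose.1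
noncomputable def fq (g : G) : G := j13 (fact g).choose.2
noncomputable def fr (g : G) : G := (fp g * fq g)⁻¹ * g

lemma fp_mem (g : G) : fp g ∈ P := io_mem _
lemma fq_mem (g : G) : fq g ∈ Q := j13_mem _
lemma fr_mem (g : G) : fr g ∈ P1 := (fact g).choose_spec.1
lemma f_mul (g : G) : fp g * fq g * fr g = g := mul_inv_cancel_left _ _
lemma fq_zero {g : G} (h : (fq g).1 0 0 = 0) : g.1 0 0 = 0 ∧ g.1 1 0 = 0 :=
  (fact g).choose_spec.2.1 h
lemma f_col {g : G} {n : ℕ} (h : Col g n) : ell (fp g) ≤ 2 * n + 3 ∧ ell (fq g) ≤ 2 * n + 3 :=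
  (fact g).choose_spec.2.2 n h
lemma fq_eq (g : G) : ∃ p ∈ P, fq g = cs.φ (cs.φ p) := ⟨_, io_mem _, rfl⟩
lemma ell_fr (g : G) : ell (fr g) ≤ ell (fp g) + ell (fq g) + ell g := by
  have := ell_inv_mul (fp g * fq g) g
  have := ell_mul (fp g) (fq g)
  rw [fr]; omega

attribute [irreducible] fp fq fr

lemma ell_f (g : G) : ell (fp g) ≤ 5 * ell g ∧ ell (fq g) ≤ 5 * ell g ∧ ell (fr g) ≤ 11 * ell g := by
  have := f_col (Col_ell g)
  have := ell_fr g
  have := one_le_ell g
  omega

/-- The normal form. -/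
noncomputable def NG (g : G) : Word := NP (fp g) ++ (NQ (fq g) ++ N1 (fr g))

lemma length_NG (g : G) : (NG g).length ≤ 21000 * ell g := by
  have := ell_f g
  have := len_NP _ (fp_mem g)
  have := FS_Q.len _ (fq_mem g)
  have := FS_1.len _ (fr_mem g)
  rw [NG]; (try simp only [List.length_append, List.length_cons, List.length_nil, List.length_replicate, length_winv, Sym.length_w]); omega

lemma NG_eq {g p q r : G} {m : ℕ} (hp : p ∈ P) (hq : q ∈ Q) (hr : r ∈ P1) (e : g = p * q * r)
    (h0 : q.1 0 0 ≠ 0) (l0 : ell g ≤ m) (l1 : ell p ≤ m) (l2 : ell q ≤ m) (l3 : ell r ≤ m) :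
    Cn (2000000000000000000 * m) (NP p ++ (NQ q ++ N1 r)) (NG g) := by
  have := ell_f g
  exact (uq (m := 11 * m) (fp_mem g) (fq_mem g) (fr_mem g) hp hq hr (by rw [f_mul, e]) h0
    (by omega) (by omega) (by omega) (by omega) (by omega) (by omega)).mono (by omega)

lemma NG_bc {g : G} (s : Letter) (h1 : Col g 0) (h2 : Col (lv s * g) 0)
    : Cn (1000000000000 * ell g) ([s] ++ NG g) (NG (lv s * g)) := by
  have a1 := f_col h1
  have a2 := f_col h2
  have a3 := ell_f g
  have a4 := ell_lv s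
  have a5 := one_le_ell g
  set z := fr (lv s * g) * (fr g)⁻¹ with hz
  have hz1 : z ∈ P1 := P1.mul_mem (fr_mem _) (P1.inv_mem (fr_mem _))
  have e : lv s * (fp g * fq g) = fp (lv s * g) * fq (lv s * g) * z := by
    rw [hz, ← mul_assoc (fp (lv s * g) * fq (lv s * g)), f_mul, eq_mul_inv_iff_mul_eq, mul_assoc,
      f_mul]
  have lz : ell z ≤ 13 := by
    rw [show z = (fp (lv s * g) * fq (lv s * g))⁻¹ * (lv s * (fp g * fq g)) by rw [e]; group]
    have := ell_inv_mul (fp (lv s * g) * fq (lv s * g)) (lv s * (fp g * fq g))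
    have := ell_mul (fp (lv s * g)) (fq (lv s * g))
    have := ell_mul (lv s) (fp g * fq g)
    have := ell_mul (fp g) (fq g)
    omega
  have b1 := len_NP _ (fp_mem g)
  have b2 := FS_Q.len _ (fq_mem g)
  have b3 := FS_1.len _ (fr_mem g)
  have b4 := len_NP _ (fp_mem (lv s * g))
  have b5 := FS_Q.len _ (fq_mem (lv s * g))
  have b6 := FS_1.len _ hz1
  have c1 : Cn 20000 ([s] ++ (NP (fp g) ++ NQ (fq g)))
      (NP (fp (lv s * g)) ++ (NQ (fq (lv s * g)) ++ N1 z)) :=
    small (by
      simp only [ev_append, ev_cons, ev_nil, mul_one, ev_NP (fp_mem _), FS_Q.ev _ (fq_mem _),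
        FS_1.ev _ hz1]
      rw [e, mul_assoc]) (by (try simp only [List.length_append, List.length_cons, List.length_nil, List.length_replicate, length_winv, Sym.length_w]); omega) (by (try simp only [List.length_append, List.length_cons, List.length_nil, List.length_replicate, length_winv, Sym.length_w]); omega) (by (try simp only [List.length_append, List.length_cons, List.length_nil, List.length_replicate, length_winv, Sym.length_w]); omega) (by (try simp only [List.length_append, List.length_cons, List.length_nil, List.length_replicate, length_winv, Sym.length_w]); omega)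
  have c2 := FS_1.mul _ hz1 _ (fr_mem g)
  rw [hz, inv_mul_cancel_right, ← hz] at c2
  unfold NG
  refine Conn.trans
    (v := NP (fp (lv s * g)) ++ (NQ (fq (lv s * g)) ++ (N1 z ++ N1 (fr g))))
    ((c1.right (N1 (fr g)) (by (try simp only [List.length_append, List.length_cons, List.length_nil, List.length_replicate, length_winv, Sym.length_w]); omega)).cast (by simp) (by simp)) ?_
  exact (c2.left _ le_rfl).left _ (by (try simp only [List.length_append, List.length_cons, List.length_nil, List.length_replicate, length_winv, Sym.length_w]); omega)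

lemma Col_zero {g : G} (h : (g.1 0 0 = 0 ∧ g.1 1 0 = 0) ∨ (g.1 0 0 = 0 ∧ g.1 2 0 = 0) ∨
    (g.1 1 0 = 0 ∧ g.1 2 0 = 0)) : Col g 0 := by
  rcases h with h | h | h
  · have := col_dvd (g := g) (d := g.1 2 0) (by simp [h.1]) (by simp [h.2]) dvd_rfl
    simp only [Col]; omega
  · have := col_dvd (g := g) (d := g.1 1 0) (by simp [h.1]) dvd_rfl (by simp [h.2])
    simp only [Col]; omega
  · have := col_dvd (g := g) (d := g.1 0 0) dvd_rfl (by simp [h.1]) (by simp [h.2])
    simp only [Col]; omega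

lemma NG_absP {s : Letter} (hs : lv s ∈ P) :
    Abs Set.univ NG 100000000000000000000 [s] := fun g _ => by
  have e : ev lv [s] = lv s := by simp
  rw [e]
  refine ⟨trivial, ?_⟩
  have a4 := ell_lv s
  have a5 := one_le_ell g
  by_cases c : (fq (lv s * g)).1 0 0 = 0
  · have h2 := fq_zero c
    have h1 : g.1 0 0 = 0 ∧ g.1 1 0 = 0 := by
      obtain ⟨i1, i2, i3⟩ := mem_P.1 (P.inv_mem hs)
      have h := fun i => mul_ap (lv s)⁻¹ (lv s * g) i 0
      simp only [inv_mul_cancel_left, h2.1, h2.2, mul_zero, zero_add] at h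
      rw [h 0, h 1, i1, i2]; simp
    exact (NG_bc s (Col_zero (Or.inl h1)) (Col_zero (Or.inl h2))).mono (by (try simp only [List.length_append, List.length_cons, List.length_nil, List.length_replicate, length_winv, Sym.length_w]); omega)
  · have a1 := ell_f g
    have a2 := ell_f (lv s * g)
    have a3 := ell_mul (lv s) g
    have a6 := ell_mul (lv s) (fp g)
    have c1 := (FS_P.absL hs _ (fp_mem g)).2
    rw [e] at c1
    have c2 := uq (m := 22 * ell g) (P.mul_mem hs (fp_mem g)) (fq_mem g) (fr_mem g)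
      (fp_mem (lv s * g)) (fq_mem _) (fr_mem _)
      (by rw [f_mul, mul_assoc, mul_assoc, ← mul_assoc (fp g), f_mul]) c
      (by omega) (by omega) (by omega) (by omega) (by omega) (by omega)
    have b2 := FS_Q.len _ (fq_mem g)
    have b3 := FS_1.len _ (fr_mem g)
    unfold NG
    exact ((c1.right (NQ (fq g) ++ N1 (fr g)) (by (try simp only [List.length_append, List.length_cons, List.length_nil, List.length_replicate, length_winv, Sym.length_w]); omega)).cast (by simp) rfl).trans
      (c2.symm.mono (by (try simp only [List.length_append, List.length_cons, List.length_nil, List.length_replicate, length_winv, Sym.length_w]); omega))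

attribute [irreducible] NG

noncomputable def NS (g : G) : Word := [lt sg] ++ NG (sg⁻¹ * g)

lemma ell_sg : ell sg ≤ 1 := ell_le le_rfl (by decide) (by decide)

lemma ell_sg_mul (g : G) : ell (sg⁻¹ * g) ≤ ell g + 1 := by
  have := ell_inv_mul sg g
  have := ell_sg
  omega

lemma length_NS (g : G) : (NS g).length ≤ 50000 * ell g := by
  have := length_NG (sg⁻¹ * g)
  have := ell_sg_mul g
  have := one_le_ell g
  rw [NS]; (try simp only [List.length_append, List.length_cons, List.length_nil, List.length_replicate, length_winv, Sym.length_w]); omega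

lemma NS_abs {s : G} (hs : s ∈ P) (hl : ell s ≤ 1) :
    Abs Set.univ NS 300000000000000000000 [lt (cs.φ s)] := fun g _ => by
  have hl' : ell (cs.φ s) ≤ 1 := by rwa [cs.ell_eq]
  refine ⟨trivial, ?_⟩
  have c1 : Cn 2 ([lt (cs.φ s)] ++ [lt sg]) ([lt sg] ++ [lt s]) :=
    small (by
      simp only [ev_append, ev_cons, ev_nil, lv_lt hl, lv_lt hl', lv_lt ell_sg]
      rw [cs_eq]; group) (by simp) (by simp) (by simp) (by simp)
  have c2 := (NG_absP (s := lt s) (by rw [lv_lt hl]; exact hs) (sg⁻¹ * g) trivial).2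
  have := length_NG (sg⁻¹ * g)
  have := ell_sg_mul g
  have := one_le_ell g
  simp only [ev_cons, ev_nil, lv_lt hl, lv_lt hl', mul_one] at c2 ⊢
  rw [NS, NS, show sg⁻¹ * (cs.φ s * g) = s * (sg⁻¹ * g) by rw [cs_eq]; group]
  exact ((c1.right (NG (sg⁻¹ * g)) (by (try simp only [List.length_append, List.length_cons, List.length_nil, List.length_replicate, length_winv, Sym.length_w]); omega)).cast (by simp) rfl).trans
    ((c2.left [lt sg] (by (try simp only [List.length_append, List.length_cons, List.length_nil, List.length_replicate, length_winv, Sym.length_w]); omega)).cast (by simp) rfl)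

lemma sg_inv_mul (g : G) : (sg⁻¹ * g).1 0 0 = g.1 1 0 ∧ (sg⁻¹ * g).1 1 0 = g.1 2 0 ∧
    (sg⁻¹ * g).1 2 0 = g.1 0 0 := by
  simp [mul_ap, sg_inv_val, -Matrix.SpecialLinearGroup.coe_mul,
    -Matrix.SpecialLinearGroup.coe_inv]

lemma base {g : G} (h : g.1 1 0 = 0) : Cn (100000000000000000000 * ell g) (NG g) (NS g) := by
  obtain ⟨s1, s2, s3⟩ := sg_inv_mul g
  have a1 := ell_sg_mul g
  have a5 := one_le_ell g
  by_cases c : g.1 0 0 = 0 ∨ g.1 2 0 = 0
  · have := NG_bc (g := sg⁻¹ * g) (lt sg) (Col_zero (by rw [s1, s2, s3]; tauto))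
      (by rw [lv_lt ell_sg, mul_inv_cancel_left]; exact Col_zero (by tauto))
    rw [lv_lt ell_sg, mul_inv_cancel_left] at this
    exact this.symm.mono (by omega)
  rw [not_or] at c
  obtain ⟨N, e, b0, b1, b2, -, b4⟩ := bez (g.1 0 0) (g.1 2 0)
  have he : e = 1 := by
    have := col_dvd (g := g) (d := e) ⟨N.1 0 0, by rw [← b1]; ring⟩ (by simp [h])
      ⟨N.1 1 0, by rw [← b2]; ring⟩
    omega
  rw [he, mul_one] at b1 b2
  set q := j13 N with hq
  have lq : ell q ≤ 2 * ell g + 3 := by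
    obtain ⟨c1, c2, c3⟩ := Col_ell g
    have : 1 ≤ 64 ^ ell g := Nat.one_le_pow _ _ (by norm_num)
    exact ell_j13 (n := ell g + 1) fun i j => (b4 i j).trans (by omega)
  have qQ : q ∈ Q := j13_mem N
  have q00 : q.1 0 0 = g.1 0 0 := by simp [hq, j13_val, b1]
  have q20 : q.1 2 0 = g.1 2 0 := by simp [hq, j13_val, b2]
  have r1 : q⁻¹ * g ∈ P1 := col_eq q00 (by simp [hq, j13_val, h]) q20
  have lr := ell_inv_mul q g
  set y : G := sg * (io Sw)⁻¹ with hy
  have yv : (y⁻¹).1 = !![0, 0, -1; 0, 1, 0; 1, 0, 0] := by decide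
  have yQ' : y⁻¹ ∈ Q := by rw [mem_Q, yv]; simp
  have yQ : y ∈ Q := by simpa using Q.inv_mem yQ'
  have ly : ell y ≤ 1 := ell_le le_rfl (by decide) (by decide)
  have lq1 := ell_inv_mul y q
  have lS : ell (io Sw)⁻¹ ≤ 1 := by rw [ell_inv]; exact ell_S
  have l1 := ell_one
  have c1 := NG_eq (m := 6 * ell g) P.one_mem qQ r1 (g := g) (by simp) (by rw [q00]; exact c.1)
    (by omega) (by omega) (by omega) (by omega)
  have c2 := NG_eq (m := 6 * ell g) (P.inv_mem (io_mem Sw)) (Q.mul_mem yQ' qQ) r1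
    (g := sg⁻¹ * g) (by rw [hy]; group)
    (by rw [mul_ap, yv, q20]; simpa using c.2) (by omega) (by omega) (by omega) (by omega)
  have c3 := FS_Q.mul _ yQ _ (Q.mul_mem yQ' qQ)
  rw [mul_inv_cancel_left] at c3
  have d1 := len_NP _ P.one_mem
  have d2 := len_NP _ (P.inv_mem (io_mem Sw))
  have d3 := FS_Q.len _ yQ
  have d4 := FS_Q.len _ (Q.mul_mem yQ' qQ)
  have d5 := FS_1.len _ r1
  have c4 : Cn 2000 (NP 1 ++ NQ y) ([lt sg] ++ NP (io Sw)⁻¹) :=
    small (by
      simp only [ev_append, ev_cons, ev_nil, mul_one, ev_NP P.one_mem, FS_Q.ev _ yQ,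
        ev_NP (P.inv_mem (io_mem Sw)), lv_lt ell_sg, one_mul]
      rfl) (by (try simp only [List.length_append, List.length_cons, List.length_nil, List.length_replicate, length_winv, Sym.length_w]); omega) (by (try simp only [List.length_append, List.length_cons, List.length_nil, List.length_replicate, length_winv, Sym.length_w]); omega) (by (try simp only [List.length_append, List.length_cons, List.length_nil, List.length_replicate, length_winv, Sym.length_w]); omega)
        (by (try simp only [List.length_append, List.length_cons, List.length_nil, List.length_replicate, length_winv, Sym.length_w]); omega)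
  refine (c1.symm.mono (by omega)).trans ?_
  refine Conn.trans (((c3.symm.right (N1 (q⁻¹ * g)) le_rfl).left (NP 1) (by (try simp only [List.length_append, List.length_cons, List.length_nil, List.length_replicate, length_winv, Sym.length_w]); omega))) ?_
  refine Conn.trans (v := [lt sg] ++ (NP (io Sw)⁻¹ ++ (NQ (y⁻¹ * q) ++ N1 (q⁻¹ * g))))
    ((c4.right (NQ (y⁻¹ * q) ++ N1 (q⁻¹ * g)) (by (try simp only [List.length_append, List.length_cons, List.length_nil, List.length_replicate, length_winv, Sym.length_w]); omega)).cast (by simp) (by simp)) ?_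
  exact c2.left _ (by (try simp only [List.length_append, List.length_cons, List.length_nil, List.length_replicate, length_winv, Sym.length_w]); omega)

end Pool.Agent.H412Z.FL
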