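import Mathlib

set_option autoImplicit false

namespace Pool.Agent.H412Z.Lerf

open Filter Topology

/-- A discrete group is amenable: it has a left-invariant finitely additive probability measure
defined on all subsets. -/
def Amenable (G : Type) [Group G] : Prop :=
  ∃ μ : Set G → ℝ, (∀ A, 0 ≤ μ A) ∧ μ Set.univ = 1 ∧
    (∀ A B : Set G, Disjoint A B → μ (A ∪ B) = μ A + μ B) ∧
    ∀ (g : G) (A : Set G), μ ((fun x => g * x) '' A) = μ A

/-- LERF: every finitely generated subgroup is an intersection of finite-index subgroups. -/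
def LERF (G : Type) [Group G] : Prop :=
  ∀ H : Subgroup G, H.FG → ∃ 𝒦 : Set (Subgroup G), (∀ K ∈ 𝒦, K.FiniteIndex) ∧ sInf 𝒦 = H

/-- The normalised Hamming distance of two permutations of a `k`-element set. -/
noncomputable def ham {k : ℕ} (σ τ : Equiv.Perm (Fin k)) : ℝ :=
  ((Finset.univ.filter (fun x : Fin k => σ x ≠ τ x)).card : ℝ) / (k : ℝ)

/-- Permutation stability of the presentation `G = F_S / N` given by a homomorphism
`π : F_S → G` with kernel `N`. -/
def StablePresentation {S G : Type} [Group G] (π : FreeGroup S →* G) : Prop :=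
  ∀ (k : ℕ → ℕ) (φ : ∀ n, FreeGroup S →* Equiv.Perm (Fin (k n))),
    (∀ w ∈ π.ker, Tendsto (fun n => ham (φ n w) 1) atTop (𝓝 0)) →
    ∃ ψ : ∀ n, FreeGroup S →* Equiv.Perm (Fin (k n)),
      (∀ n, π.ker ≤ (ψ n).ker) ∧
      ∀ s : S, Tendsto (fun n => ham (φ n (FreeGroup.of s)) (ψ n (FreeGroup.of s))) atTop (𝓝 0)

end Pool.Agent.H412Z.Lerf
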