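import Mathlib

set_option autoImplicit false

/-! A countable group stable in permutations with an automorphism of order two such that the
semidirect product is not stable in permutations. -/

namespace Pool.Agent.H412Z.PermStab

open Finset

/-- Stability in permutations, in the finitary form. -/
def Stable (K : Type) [Group K] : Prop :=
  ∀ (S : Finset K) (ε : ℝ), 0 < ε → ∃ (T : Finset K) (δ : ℝ), 0 < δ ∧
    ∀ (n : ℕ) (f : K → Equiv.Perm (Fin n)),
      (∀ g ∈ T, ∀ h ∈ T,
        ((Finset.univ.filter (fun i : Fin n => f (g * h) i ≠ (f g * f h) i)).card : ℝ)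
          / (n : ℝ) < δ) →
      ∃ ρ : K →* Equiv.Perm (Fin n), ∀ g ∈ S,
        ((Finset.univ.filter (fun i : Fin n => f g i ≠ ρ g i)).card : ℝ) / (n : ℝ) < ε

/-- A group in which every finite set is fixed by an endomorphism with finite image is stable. -/
theorem stable_of_retract (K : Type) [Group K]
    (hK : ∀ S : Finset K, ∃ e : K →* K, (Set.range e).Finite ∧ ∀ g ∈ S, e g = g) :
    Stable K := by
  classical
  intro S ε hε
  obtain ⟨e, hfin, he⟩ := hK S
  set T := hfin.toFinset with hT
  have hmem : ∀ g, e g ∈ T := fun g => by simp [hT]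
  have hmul : ∀ g ∈ T, ∀ h ∈ T, g * h ∈ T := by
    intro g hg h hh
    simp only [hT, Set.Finite.mem_toFinset] at hg hh ⊢
    obtain ⟨a, rfl⟩ := hg
    obtain ⟨b, rfl⟩ := hh
    exact ⟨a * b, map_mul _ _ _⟩
  have hone : (1 : K) ∈ T := by simpa using hmem 1
  refine ⟨T, ε / (((T ×ˢ T).card : ℝ) + 1), by positivity, ?_⟩
  intro n f hf
  let Y : Fin n → Prop := fun x => ∀ g ∈ T, ∀ h ∈ T, f (g * h) x = f g (f h x)
  have hY1 : ∀ x, Y x → f 1 x = x := by
    intro x hx
    have := hx 1 hone 1 hone
    rw [mul_one] at this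
    exact ((f 1).injective this).symm
  have hYinv : ∀ x, Y x → ∀ k ∈ T, Y (f k x) := by
    intro x hx k hk g hg h hh
    rw [← hx (g * h) (hmul g hg h hh) k hk, ← hx h hh k hk, ← hx g hg (h * k) (hmul h hh k hk),
      mul_assoc]
  let F : K →* Function.End (Fin n) :=
    { toFun := fun g x => if Y x then f (e g) x else x
      map_one' := by
        funext x
        by_cases hx : Y x
        · simp only [hx, if_true, map_one]
          exact hY1 x hx
        · simp only [hx, if_false]; rfl
      map_mul' := by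
        intro g h
        funext x
        show (if Y x then f (e (g * h)) x else x) =
          (fun y => if Y y then f (e g) y else y) (if Y x then f (e h) x else x)
        by_cases hx : Y x
        · have h2 := hYinv x hx _ (hmem h)
          simp only [hx, if_true, h2, map_mul]
          exact hx _ (hmem g) _ (hmem h)
        · simp only [hx, if_false] }
  refine ⟨F.toHomPerm, ?_⟩
  intro g hg
  have hsub : (Finset.univ.filter (fun i : Fin n => f g i ≠ F.toHomPerm g i)) ⊆
      (T ×ˢ T).biUnion (fun p =>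
        Finset.univ.filter (fun i : Fin n => f (p.1 * p.2) i ≠ (f p.1 * f p.2) i)) := by
    intro x hx
    rw [Finset.mem_filter] at hx
    have hnY : ¬ Y x := by
      intro hy
      apply hx.2
      show f g x = if Y x then f (e g) x else x
      rw [if_pos hy, he g hg]
    simp only [Y, not_forall] at hnY
    obtain ⟨a, ha, b, hb, hab⟩ := hnY
    rw [Finset.mem_biUnion]
    exact ⟨(a, b), Finset.mem_product.mpr ⟨ha, hb⟩, Finset.mem_filter.mpr ⟨mem_univ _, hab⟩⟩
  have h1 := (Finset.card_le_card hsub).trans Finset.card_biUnion_le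
  have h2 : ((Finset.univ.filter (fun i : Fin n => f g i ≠ F.toHomPerm g i)).card : ℝ) / n ≤
      ∑ p ∈ T ×ˢ T, ((Finset.univ.filter
        (fun i : Fin n => f (p.1 * p.2) i ≠ (f p.1 * f p.2) i)).card : ℝ) / n := by
    rw [← Finset.sum_div]
    apply div_le_div_of_nonneg_right _ (Nat.cast_nonneg n)
    exact_mod_cast h1
  have h3 : ∑ p ∈ T ×ˢ T, ((Finset.univ.filter
        (fun i : Fin n => f (p.1 * p.2) i ≠ (f p.1 * f p.2) i)).card : ℝ) / n ≤
      ∑ _p ∈ T ×ˢ T, ε / (((T ×ˢ T).card : ℝ) + 1) := by
    apply Finset.sum_le_sum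
    intro p hp
    rw [Finset.mem_product] at hp
    exact (hf p.1 hp.1 p.2 hp.2).le
  rw [Finset.sum_const, nsmul_eq_mul] at h3
  have h4 : ((T ×ˢ T).card : ℝ) * (ε / (((T ×ˢ T).card : ℝ) + 1)) < ε := by
    rw [mul_div_assoc', div_lt_iff₀ (by positivity)]
    nlinarith
  linarith

abbrev U : Type := AddCircle (1 : ℚ)

abbrev V : Type := ℕ →₀ U

/-- The sum of the coordinates. -/
noncomputable def tot : V →+ U := Finsupp.liftAddHom (fun _ => AddMonoidHom.id U)

@[simp] lemma tot_single (k : ℕ) (u : U) : tot (Finsupp.single k u) = u := by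
  simp [tot]

/-- The abelian group: a direct sum of finite cyclic groups. -/
def G0 : AddSubgroup (V × V) where
  carrier := {x | ∀ k : ℕ, (2 * (k + 1)) • x.1 k = 0 ∧ 2 • x.2 k = 0}
  add_mem' := by
    intro a b ha hb k
    simp only [Prod.fst_add, Prod.snd_add, Finsupp.add_apply, smul_add, (ha k).1, (ha k).2,
      (hb k).1, (hb k).2, add_zero, and_self]
  zero_mem' := by intro k; simp
  neg_mem' := by
    intro a ha k
    simp only [Prod.fst_neg, Prod.snd_neg, Finsupp.neg_apply, smul_neg, (ha k).1, (ha k).2,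
      neg_zero, and_self]

abbrev G : Type := Multiplicative G0

noncomputable def D : V →+ V := AddMonoidHom.id V - (Finsupp.singleAddHom 0).comp tot

lemma D_apply (c : V) : D c = c - Finsupp.single 0 (tot c) := rfl

lemma tot_D (c : V) : tot (D c) = 0 := by
  rw [D_apply, map_sub]; simp

lemma two_smul_snd (x : G0) : 2 • x.1.2 = 0 := by
  ext k
  simpa using (x.2 k).2

lemma two_smul_D (x : G0) : 2 • D x.1.2 = 0 := by
  rw [← map_nsmul, two_smul_snd, map_zero]

noncomputable def eta0 : G0 →+ G0 where
  toFun x := ⟨(x.1.1 + D x.1.2, x.1.2), fun k => ⟨by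
    have h1 : 2 • (D x.1.2) k = 0 := by
      have := congrArg (fun v : V => v k) (two_smul_D x)
      simpa using this
    have h2 : (2 * (k + 1)) • (D x.1.2) k = 0 := by
      rw [mul_comm, mul_nsmul', h1, smul_zero]
    simp only [Finsupp.add_apply, smul_add, (x.2 k).1, h2, add_zero], (x.2 k).2⟩⟩
  map_zero' := by ext <;> simp
  map_add' a b := by
    apply Subtype.ext
    apply Prod.ext
    · simp only [AddSubgroup.coe_add, Prod.fst_add, Prod.snd_add, map_add]; abel
    · simp

lemma eta0_eta0 (x : G0) : eta0 (eta0 x) = x := by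
  apply Subtype.ext
  apply Prod.ext
  · show x.1.1 + D x.1.2 + D x.1.2 = x.1.1
    rw [add_assoc, ← two_nsmul, two_smul_D, add_zero]
  · rfl

noncomputable def eta : MulAut G where
  toFun x := Multiplicative.ofAdd (eta0 x.toAdd)
  invFun x := Multiplicative.ofAdd (eta0 x.toAdd)
  left_inv x := by simp [eta0_eta0]
  right_inv x := by simp [eta0_eta0]
  map_mul' a b := by simp

lemma eta_sq : eta ^ 2 = 1 := by
  ext1 x
  rw [pow_two]
  show Multiplicative.ofAdd (eta0 (eta0 x.toAdd)) = x
  rw [eta0_eta0]; rfl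

abbrev H : Type := Subgroup.zpowers eta

instance : Finite H := by
  have : IsOfFinOrder eta := isOfFinOrder_iff_pow_eq_one.mpr ⟨2, by norm_num, eta_sq⟩
  exact (finite_zpowers.mpr this).to_subtype

noncomputable abbrev act : H →* MulAut G := (Subgroup.zpowers eta).subtype

abbrev Γ : Type := SemidirectProduct G H act

instance : Countable U := Quotient.countable

instance : Countable G := inferInstanceAs (Countable G0)

lemma finite_box (N M : ℕ) (hM : 0 < M) :
    {v : V | (∀ k, M • v k = 0) ∧ ∀ k, N ≤ k → v k = 0}.Finite := by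
  have h1 : {f : Fin N → U | ∀ i, f i ∈ {u : U | M • u = 0}}.Finite :=
    Set.Finite.pi' (fun _ => AddCircle.finite_torsion (1 : ℚ) hM)
  refine Set.Finite.of_finite_image (f := fun v : V => fun i : Fin N => v i) (h1.subset ?_) ?_
  · rintro _ ⟨v, hv, rfl⟩ i
    exact hv.1 i
  · intro v hv w hw hvw
    ext k
    by_cases hk : k < N
    · exact congrFun hvw ⟨k, hk⟩
    · rw [hv.2 k (not_lt.mp hk), hw.2 k (not_lt.mp hk)]

noncomputable def cut (N : ℕ) : G0 →+ G0 where
  toFun x := ⟨(x.1.1.filter (· < N), x.1.2.filter (· < N)), fun k => by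
    by_cases hk : k < N
    · simp only [Finsupp.filter_apply, hk, if_true]; exact x.2 k
    · simp [hk]⟩
  map_zero' := by ext <;> simp [Finsupp.filter_apply]
  map_add' a b := by
    apply Subtype.ext
    apply Prod.ext <;> simp [Finsupp.filter_add]

theorem stable_G : Stable G := by
  classical
  apply stable_of_retract
  intro S
  obtain ⟨N, hN⟩ : ∃ N : ℕ, ∀ g ∈ S, (∀ k ∈ g.toAdd.1.1.support, k < N) ∧
      ∀ k ∈ g.toAdd.1.2.support, k < N := by
    let B : Finset ℕ := S.biUnion (fun g => g.toAdd.1.1.support ∪ g.toAdd.1.2.support)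
    refine ⟨B.sup id + 1, fun g hg => ⟨fun k hk => ?_, fun k hk => ?_⟩⟩
    · have : k ∈ B := mem_biUnion.mpr ⟨g, hg, mem_union_left _ hk⟩
      exact Nat.lt_succ_of_le (Finset.le_sup (f := id) this)
    · have : k ∈ B := mem_biUnion.mpr ⟨g, hg, mem_union_right _ hk⟩
      exact Nat.lt_succ_of_le (Finset.le_sup (f := id) this)
  refine ⟨AddMonoidHom.toMultiplicative (cut N), ?_, ?_⟩
  · have hb := finite_box N (2 * N.factorial) (by positivity)
    refine Set.Finite.of_finite_image (f := fun g : G => g.toAdd.1) ((hb.prod hb).subset ?_) ?_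
    · rintro _ ⟨_, ⟨x, rfl⟩, rfl⟩
      refine ⟨⟨fun k => ?_, fun k hk => ?_⟩, ⟨fun k => ?_, fun k hk => ?_⟩⟩
      · show (2 * N.factorial) • (x.toAdd.1.1.filter (· < N)) k = 0
        by_cases hk : k < N
        · obtain ⟨c, hc⟩ : (k + 1) ∣ N.factorial := Nat.dvd_factorial (by omega) hk
          rw [Finsupp.filter_apply, if_pos hk, hc, ← mul_assoc, mul_comm, mul_nsmul',
            (x.toAdd.2 k).1, smul_zero]
        · simp [hk]
      · show (x.toAdd.1.1.filter (· < N)) k = 0
        rw [Finsupp.filter_apply, if_neg (by omega)]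
      · show (2 * N.factorial) • (x.toAdd.1.2.filter (· < N)) k = 0
        by_cases hk : k < N
        · rw [Finsupp.filter_apply, if_pos hk, mul_comm, mul_nsmul', (x.toAdd.2 k).2, smul_zero]
        · simp [hk]
      · show (x.toAdd.1.2.filter (· < N)) k = 0
        rw [Finsupp.filter_apply, if_neg (by omega)]
    · intro a _ b _ hab
      exact Multiplicative.toAdd.injective (Subtype.ext hab)
  · intro g hg
    apply Multiplicative.toAdd.injective
    apply Subtype.ext
    apply Prod.ext
    · show g.toAdd.1.1.filter (· < N) = g.toAdd.1.1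
      exact (Finsupp.filter_eq_self_iff _ _).mpr (fun k hk =>
        (hN g hg).1 k (Finsupp.mem_support_iff.mpr hk))
    · show g.toAdd.1.2.filter (· < N) = g.toAdd.1.2
      exact (Finsupp.filter_eq_self_iff _ _).mpr (fun k hk =>
        (hN g hg).2 k (Finsupp.mem_support_iff.mpr hk))

/-- The character of the abelian group. -/
noncomputable def chi (g : G) : U := tot g.toAdd.1.1

lemma chi_mul (a b : G) : chi (a * b) = chi a + chi b := by
  simp [chi]

lemma chi_act (h : H) (g : G) : chi (act h g) = chi g := by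
  let K : Subgroup (MulAut G) :=
    { carrier := {s | ∀ x, chi (s x) = chi x}
      mul_mem' := by
        intro a b ha hb x
        rw [MulAut.mul_apply, ha, hb]
      one_mem' := fun x => rfl
      inv_mem' := by
        intro a ha x
        have := ha (a⁻¹ x)
        rw [← this]
        simp }
  have h1 : Subgroup.zpowers eta ≤ K := by
    rw [Subgroup.zpowers_le]
    intro x
    show tot (x.toAdd.1.1 + D x.toAdd.1.2) = tot x.toAdd.1.1
    rw [map_add, tot_D, add_zero]
  exact h1 h.2 g

noncomputable def chiΓ (γ : Γ) : U := chi γ.left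

lemma chiΓ_mul (a b : Γ) : chiΓ (a * b) = chiΓ a + chiΓ b := by
  simp only [chiΓ, SemidirectProduct.mul_left, chi_mul, chi_act]

lemma torsion (u : U) : ∃ m : ℕ, 0 < m ∧ m • u = 0 := by
  induction u using QuotientAddGroup.induction_on with
  | H q =>
    refine ⟨q.den, q.den_pos, ?_⟩
    rw [← AddCircle.coe_nsmul, AddCircle.coe_eq_zero_iff]
    refine ⟨q.num, ?_⟩
    simp [mul_comm, Rat.mul_den_eq_num]

noncomputable def half : U := ((1 / 2 : ℚ) : U)

lemma half_ne : half ≠ 0 := by
  unfold half
  rw [Ne, AddCircle.coe_eq_zero_iff]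
  rintro ⟨n, hn⟩
  simp only [zsmul_eq_mul, mul_one] at hn
  have : ((2 * n : ℤ) : ℚ) = 1 := by push_cast; rw [hn]; norm_num
  have : (2 * n : ℤ) = 1 := by exact_mod_cast this
  omega

lemma two_half : 2 • half = 0 := by
  unfold half
  rw [← AddCircle.coe_nsmul, AddCircle.coe_eq_zero_iff]
  exact ⟨1, by norm_num⟩

noncomputable def root (k : ℕ) : U := ((1 / (2 * (k + 1)) : ℚ) : U)

lemma root_smul (k : ℕ) : (k + 1) • root k = half := by
  unfold root half
  rw [← AddCircle.coe_nsmul]
  congr 1
  simp only [nsmul_eq_mul]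
  push_cast
  field_simp

noncomputable def aa (k : ℕ) : G := Multiplicative.ofAdd ⟨(Finsupp.single k (root k), 0), fun j => by
  refine ⟨?_, by simp⟩
  by_cases hj : k = j
  · subst hj
    simp only [Finsupp.single_eq_same]
    rw [mul_nsmul', root_smul, two_half]
  · simp [hj]⟩

noncomputable def cc (k : ℕ) : G := Multiplicative.ofAdd ⟨(0, Finsupp.single k half), fun j => by
  refine ⟨by simp, ?_⟩
  by_cases hj : k = j
  · subst hj
    simp only [Finsupp.single_eq_same]
    exact two_half
  · simp [hj]⟩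

lemma root_zero : root 0 = half := by
  have := root_smul 0
  simpa using this

lemma relation (k : ℕ) : eta (cc k) * (cc k)⁻¹ * aa 0 = aa k ^ (k + 1) := by
  apply Multiplicative.toAdd.injective
  apply Subtype.ext
  apply Prod.ext
  · show (0 + D (Finsupp.single k half)) + -0 + Finsupp.single 0 (root 0) =
      (k + 1) • Finsupp.single k (root k)
    rw [D_apply, Finsupp.smul_single, root_smul, root_zero]
    simp
  · show Finsupp.single k half + -Finsupp.single k half + 0 = (k + 1) • (0 : V)
    simp

noncomputable def hh : H := ⟨eta, Subgroup.mem_zpowers eta⟩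

theorem support_bound {n : ℕ} (ρ : Γ →* Equiv.Perm (Fin n)) :
    (ρ (SemidirectProduct.inl (aa 0))).support.card ≤
      2 * (ρ (SemidirectProduct.inr hh)).support.card := by
  classical
  obtain ⟨k, hk⟩ : ∃ k, Fintype.card (Equiv.Perm (Fin n)) = k + 1 :=
    Nat.exists_eq_succ_of_ne_zero Fintype.card_ne_zero
  have h1 := congrArg (fun g => ρ (SemidirectProduct.inl g)) (relation k)
  simp only [map_mul, map_pow, map_inv] at h1
  rw [← hk, pow_card_eq_one] at h1
  have h2 : (SemidirectProduct.inl (eta (cc k)) : Γ) =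
      SemidirectProduct.inr hh * SemidirectProduct.inl (cc k) * SemidirectProduct.inr hh⁻¹ :=
    SemidirectProduct.inl_aut (φ := act) hh (cc k)
  rw [h2] at h1
  simp only [map_mul, map_inv] at h1
  set τ := ρ (SemidirectProduct.inr hh)
  set σ := ρ (SemidirectProduct.inl (cc k))
  have h3 : ρ (SemidirectProduct.inl (aa 0)) = (σ * τ * σ⁻¹) * τ⁻¹ := by
    rw [← mul_inv_eq_one]
    have : ρ (SemidirectProduct.inl (aa 0)) = (τ * σ * τ⁻¹ * σ⁻¹)⁻¹ :=
      eq_inv_of_mul_eq_one_right h1
    rw [this]; group
  rw [h3]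
  calc _ ≤ ((σ * τ * σ⁻¹).support ∪ (τ⁻¹).support).card :=
        Finset.card_le_card (Equiv.Perm.support_mul_le _ _)
    _ ≤ (σ * τ * σ⁻¹).support.card + (τ⁻¹).support.card := Finset.card_union_le _ _
    _ = 2 * τ.support.card := by
        rw [Equiv.Perm.card_support_conj, Equiv.Perm.support_inv]; ring

theorem not_stable : ¬ Stable Γ := by
  classical
  intro hs
  obtain ⟨T, δ, hδ, hT⟩ := hs {SemidirectProduct.inl (aa 0), SemidirectProduct.inr hh} (1 / 3)
    (by norm_num)
  choose m hm0 hm using torsion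
  let M : ℕ := 2 * ∏ g ∈ T, m (chiΓ g)
  have hM : 0 < M := by
    have : 0 < ∏ g ∈ T, m (chiΓ g) := Finset.prod_pos (fun g _ => hm0 _)
    positivity
  let X : AddSubgroup U :=
    { carrier := {u | M • u = 0}
      add_mem' := by
        intro a b ha hb
        simp only [Set.mem_ofPred_eq] at ha hb ⊢
        rw [smul_add, ha, hb, add_zero]
      zero_mem' := by simp
      neg_mem' := by
        intro a ha
        simp only [Set.mem_ofPred_eq] at ha ⊢
        rw [smul_neg, ha, neg_zero] }
  have hXfin : Finite X := (AddCircle.finite_torsion (1 : ℚ) hM).to_subtype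
  have hXT : ∀ g ∈ T, chiΓ g ∈ X := by
    intro g hg
    obtain ⟨c, hc⟩ : m (chiΓ g) ∣ M := Dvd.dvd.mul_left (Finset.dvd_prod_of_mem _ hg) 2
    show M • chiΓ g = 0
    rw [hc, mul_comm, mul_nsmul', hm, smul_zero]
  have hXh : half ∈ X := by
    show (2 * _) • half = 0
    rw [mul_comm, mul_nsmul', two_half, smul_zero]
  let n := Nat.card X
  have hn : 0 < n := Nat.card_pos
  let e : X ≃ Fin n := Finite.equivFin X
  let tr : X → Equiv.Perm (Fin n) := fun u => e.permCongr (Equiv.addLeft u)
  have htr : ∀ u i, tr u i = e (u + e.symm i) := fun u i => rfl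
  let f : Γ → Equiv.Perm (Fin n) := fun γ => if h : chiΓ γ ∈ X then tr ⟨_, h⟩ else 1
  obtain ⟨ρ, hρ⟩ := hT n f (by
    intro g hg h hh
    have hgh : chiΓ (g * h) ∈ X := by rw [chiΓ_mul]; exact X.add_mem (hXT g hg) (hXT h hh)
    have : (Finset.univ.filter (fun i : Fin n => f (g * h) i ≠ (f g * f h) i)) = ∅ := by
      apply Finset.filter_eq_empty_iff.mpr
      intro i _
      simp only [f, dif_pos hgh, dif_pos (hXT g hg), dif_pos (hXT h hh), Equiv.Perm.mul_apply, htr,
        Equiv.symm_apply_apply, ne_eq, not_not]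
      congr 1
      rw [← add_assoc]
      congr 1
      exact Subtype.ext (chiΓ_mul g h)
    rw [this]
    simpa using hδ)
  have h1 := hρ (SemidirectProduct.inl (aa 0)) (by simp)
  have h2 := hρ (SemidirectProduct.inr hh) (by simp)
  have hb := support_bound ρ
  have hca : chiΓ (SemidirectProduct.inl (aa 0)) = half := by
    show tot (Finsupp.single 0 (root 0)) = half
    rw [tot_single, root_zero]
  have hch : chiΓ (SemidirectProduct.inr hh) = 0 := by
    show tot 0 = 0
    simp
  have hfa : ∀ i, f (SemidirectProduct.inl (aa 0)) i ≠ i := by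
    intro i hi
    have hx : chiΓ (SemidirectProduct.inl (aa 0)) ∈ X := by rw [hca]; exact hXh
    simp only [f, dif_pos hx, htr] at hi
    have h3 : (⟨_, hx⟩ : X) + e.symm i = e.symm i := by
      apply e.injective; rw [hi]; simp
    have h4 : (⟨_, hx⟩ : X) = 0 := by simpa using h3
    have h5 := congrArg Subtype.val h4
    exact half_ne (hca ▸ h5)
  have hfh : ∀ i, f (SemidirectProduct.inr hh) i = i := by
    intro i
    have hx : chiΓ (SemidirectProduct.inr hh) ∈ X := by rw [hch]; exact X.zero_mem
    simp only [f, dif_pos hx, htr]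
    have h4 : (⟨_, hx⟩ : X) = 0 := Subtype.ext hch
    rw [h4]; simp
  have e2 : (Finset.univ.filter (fun i : Fin n => f (SemidirectProduct.inr hh) i ≠
      ρ (SemidirectProduct.inr hh) i)) = (ρ (SemidirectProduct.inr hh)).support := by
    ext i
    rw [Finset.mem_filter, Equiv.Perm.mem_support, hfh]
    exact ⟨fun h => h.2.symm, fun h => ⟨mem_univ _, h.symm⟩⟩
  rw [e2] at h2
  have e1 : (Finset.univ : Finset (Fin n)) ⊆ (Finset.univ.filter (fun i : Fin n =>
      f (SemidirectProduct.inl (aa 0)) i ≠ ρ (SemidirectProduct.inl (aa 0)) i)) ∪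
      (ρ (SemidirectProduct.inl (aa 0))).support := by
    intro i _
    rw [Finset.mem_union, Finset.mem_filter, Equiv.Perm.mem_support]
    by_contra hc
    push Not at hc
    exact hfa i ((hc.1 (mem_univ _)).trans hc.2)
  have e3 := (Finset.card_le_card e1).trans (Finset.card_union_le _ _)
  rw [Finset.card_univ, Fintype.card_fin] at e3
  have hnR : (0 : ℝ) < n := by exact_mod_cast hn
  rw [div_lt_iff₀ hnR] at h1 h2
  have e4 : (n : ℝ) ≤ ((Finset.univ.filter (fun i : Fin n =>
      f (SemidirectProduct.inl (aa 0)) i ≠ ρ (SemidirectProduct.inl (aa 0)) i)).card : ℝ) +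
      2 * ((ρ (SemidirectProduct.inr hh)).support.card : ℝ) := by
    exact_mod_cast e3.trans (Nat.add_le_add_left hb _)
  linarith

end Pool.Agent.H412Z.PermStab
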