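import Mathlib
import Pool.Agent.H412Z.PermStab
import Pool.Agent.H412Z.LerfDefs

set_option autoImplicit false

namespace Pool.Agent.H412Z.Lerf

open Filter Topology Finset Pool.Agent.H412Z.PermStab

theorem amenable_of_chain (G : Type) [Group G] (F : ℕ → Subgroup G)
    (hfin : ∀ n, (F n : Set G).Finite) (hex : ∀ g, ∀ᶠ n in atTop, g ∈ F n) : Amenable G := by
  classical
  let a : Set G → ℕ → ℝ := fun A n => ((A ∩ F n).ncard : ℝ) / ((F n : Set G).ncard : ℝ)
  have hpos : ∀ n, (0 : ℝ) < ((F n : Set G).ncard : ℝ) := by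
    intro n
    have : 0 < (F n : Set G).ncard := (Set.ncard_pos (hfin n)).mpr ⟨1, (F n).one_mem⟩
    exact_mod_cast this
  have ha : ∀ A n, a A n ∈ Set.Icc (0 : ℝ) 1 := by
    intro A n
    refine ⟨by positivity, ?_⟩
    rw [div_le_one (hpos n)]
    exact_mod_cast Set.ncard_le_ncard Set.inter_subset_right (hfin n)
  let 𝒰 : Ultrafilter ℕ := hyperfilter ℕ
  have hU : (𝒰 : Filter ℕ) ≤ atTop := by
    rw [← Nat.cofinite_eq_atTop]; exact hyperfilter_le_cofinite
  have hlim : ∀ A, ∃ x ∈ Set.Icc (0 : ℝ) 1, Tendsto (a A) 𝒰 (𝓝 x) := by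
    intro A
    have := (isCompact_Icc (a := (0 : ℝ)) (b := 1)).ultrafilter_le_nhds (𝒰.map (a A))
      (by
        rw [Ultrafilter.coe_map, le_principal_iff, Filter.mem_map]
        exact Eventually.of_forall (ha A))
    simpa [Tendsto] using this
  choose μ hμ0 hμ using hlim
  refine ⟨μ, fun A => (hμ0 A).1, ?_, ?_, ?_⟩
  · refine tendsto_nhds_unique (hμ _) ?_
    have : a Set.univ = fun _ => 1 := by
      funext n
      simp only [a, Set.univ_inter]
      exact div_self (hpos n).ne'
    rw [this]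
    exact tendsto_const_nhds
  · intro A B hAB
    refine tendsto_nhds_unique (hμ _) ?_
    have : a (A ∪ B) = fun n => a A n + a B n := by
      funext n
      simp only [a]
      rw [← add_div, Set.union_inter_distrib_right,
        Set.ncard_union_eq (hAB.mono Set.inter_subset_left Set.inter_subset_left)
          ((hfin n).subset Set.inter_subset_right) ((hfin n).subset Set.inter_subset_right)]
      push_cast; rfl
    rw [this]
    exact (hμ A).add (hμ B)
  · intro g A
    refine tendsto_nhds_unique (hμ _) ((hμ A).congr' ?_)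
    filter_upwards [hU (hex g)] with n hn
    simp only [a]
    congr 2
    have : (fun x => g * x) '' A ∩ (F n : Set G) = (fun x => g * x) '' (A ∩ F n) := by
      ext y
      constructor
      · rintro ⟨⟨x, hx, rfl⟩, hy⟩
        exact ⟨x, ⟨hx, by simpa using (F n).mul_mem ((F n).inv_mem hn) hy⟩, rfl⟩
      · rintro ⟨x, ⟨hx, hx'⟩, rfl⟩
        exact ⟨⟨x, hx, rfl⟩, (F n).mul_mem hn hx'⟩
    rw [this, Set.ncard_image_of_injective _ (mul_right_injective g)]

theorem lerf_of_sep (G : Type) [Group G]
    (h : ∀ S : Finset G, ∃ F K : Subgroup G, (S : Set G) ⊆ F ∧ K.FiniteIndex ∧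
      ∀ x ∈ F, x ∈ K → x = 1) : LERF G := by
  classical
  rintro H ⟨S, hS⟩
  refine ⟨{K | K.FiniteIndex ∧ H ≤ K}, fun K hK => hK.1, le_antisymm ?_ ?_⟩
  · intro g hg
    obtain ⟨F, K, hF, hK, hFK⟩ := h (insert g S)
    have hHF : H ≤ F := by
      rw [← hS, Subgroup.closure_le]
      intro x hx
      exact hF (by simp [Finset.mem_coe.mp hx])
    have hgF : g ∈ F := hF (by simp)
    have h1 : (H ⊔ K.normalCore).FiniteIndex := Subgroup.finiteIndex_of_le le_sup_right
    have h2 : g ∈ H ⊔ K.normalCore := (Subgroup.mem_sInf.mp hg) _ ⟨h1, le_sup_left⟩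
    rw [← SetLike.mem_coe, Subgroup.mul_normal] at h2
    obtain ⟨x, hx, y, hy, rfl⟩ := h2
    have hyF : y ∈ F := by simpa using F.mul_mem (F.inv_mem (hHF hx)) hgF
    have : y = 1 := hFK y hyF (K.normalCore_le hy)
    simpa [this] using hx
  · exact le_sInf (fun K hK => hK.2)

/-- Elements whose coordinates vanish from `N + 1` on. -/
def InBox (N : ℕ) (g : G) : Prop :=
  ∀ k, N < k → g.toAdd.1.1 k = 0 ∧ g.toAdd.1.2 k = 0

lemma inBox_act (N : ℕ) (h : H) (g : G) (hg : InBox N g) : InBox N (act h g) := by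
  have he : ∀ g, InBox N g → InBox N (eta g) := by
    intro g hg k hk
    refine ⟨?_, (hg k hk).2⟩
    show (g.toAdd.1.1 + D g.toAdd.1.2) k = 0
    rw [D_apply]
    have : k ≠ 0 := by omega
    simp [(hg k hk).1, (hg k hk).2, this]
  have hee : ∀ g, eta (eta g) = g := fun g => by
    have := congrArg (fun s : MulAut G => s g) eta_sq
    simpa [pow_two] using this
  let K : Subgroup (MulAut G) :=
    { carrier := {s | ∀ x, InBox N (s x) ↔ InBox N x}
      mul_mem' := by
        intro a b ha hb x
        rw [MulAut.mul_apply, ha, hb]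
      one_mem' := fun x => Iff.rfl
      inv_mem' := by
        intro a ha x
        have := ha (a⁻¹ x)
        rw [← this]
        simp }
  have h1 : Subgroup.zpowers eta ≤ K := by
    rw [Subgroup.zpowers_le]
    intro x
    exact ⟨fun hx => by simpa [hee] using he _ hx, he x⟩
  exact (h1 h.2 g).mpr hg

def box (N : ℕ) : Subgroup Γ where
  carrier := {γ | InBox N γ.left}
  mul_mem' := by
    intro a b ha hb k hk
    have h2 := inBox_act N a.right b.left hb k hk
    have h1 := ha k hk
    simp only [SemidirectProduct.mul_left, toAdd_mul, AddSubgroup.coe_add, Prod.fst_add,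
      Prod.snd_add, Finsupp.add_apply, h1.1, h1.2, h2.1, h2.2, add_zero, and_self]
  one_mem' := by intro k _; simp
  inv_mem' := by
    intro a ha
    show InBox N (a⁻¹).left
    rw [SemidirectProduct.inv_left]
    apply inBox_act
    intro k hk
    have h1 := ha k hk
    simp only [toAdd_inv, AddSubgroup.coe_neg, Prod.fst_neg, Prod.snd_neg, Finsupp.neg_apply,
      h1.1, h1.2, neg_zero, and_self]

lemma cut_of_inBox (N : ℕ) (g : G) (hg : InBox N g) : cut (N + 1) g.toAdd = g.toAdd := by
  apply Subtype.ext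
  apply Prod.ext
  · show g.toAdd.1.1.filter (· < N + 1) = g.toAdd.1.1
    refine (Finsupp.filter_eq_self_iff _ _).mpr (fun k hk => ?_)
    by_contra hc
    exact hk (hg k (by omega)).1
  · show g.toAdd.1.2.filter (· < N + 1) = g.toAdd.1.2
    refine (Finsupp.filter_eq_self_iff _ _).mpr (fun k hk => ?_)
    by_contra hc
    exact hk (hg k (by omega)).2

lemma finite_inBox (N : ℕ) : {g : G | InBox N g}.Finite := by
  have hb := finite_box (N + 1) (2 * (N + 1).factorial) (by positivity)
  refine Set.Finite.of_finite_image (f := fun g : G => g.toAdd.1) ((hb.prod hb).subset ?_) ?_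
  · rintro _ ⟨x, hx, rfl⟩
    refine ⟨⟨fun k => ?_, fun k hk => (hx k (by omega)).1⟩,
      ⟨fun k => ?_, fun k hk => (hx k (by omega)).2⟩⟩
    · show (2 * (N + 1).factorial) • x.toAdd.1.1 k = 0
      by_cases hk : k < N + 1
      · obtain ⟨c, hc⟩ : (k + 1) ∣ (N + 1).factorial := Nat.dvd_factorial (by omega) hk
        rw [hc, ← mul_assoc, mul_comm, mul_nsmul', (x.toAdd.2 k).1, smul_zero]
      · rw [(hx k (by omega)).1, smul_zero]
    · show (2 * (N + 1).factorial) • x.toAdd.1.2 k = 0
      rw [mul_comm, mul_nsmul', (x.toAdd.2 k).2, smul_zero]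
  · intro a _ b _ hab
    exact Multiplicative.toAdd.injective (Subtype.ext hab)

lemma finite_box' (N : ℕ) : (box N : Set Γ).Finite := by
  refine Set.Finite.of_finite_image (f := fun γ : Γ => (γ.left, γ.right))
    (((finite_inBox N).prod (Set.finite_univ (α := H))).subset ?_) ?_
  · rintro _ ⟨x, hx, rfl⟩
    exact ⟨hx, trivial⟩
  · intro a _ b _ hab
    rw [Prod.mk.injEq] at hab
    exact SemidirectProduct.ext hab.1 hab.2

lemma eventually_box (γ : Γ) : ∀ᶠ n in atTop, γ ∈ box n := by
  classical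
  let B : Finset ℕ := γ.left.toAdd.1.1.support ∪ γ.left.toAdd.1.2.support
  filter_upwards [eventually_ge_atTop (B.sup id)] with n hn k hk
  have : k ∉ B := by
    intro hB
    have : k ≤ B.sup id := Finset.le_sup (f := id) hB
    omega
  simp only [B, Finset.mem_union, Finsupp.mem_support_iff, not_or, not_not] at this
  exact this

theorem amenable_Γ : Amenable Γ := amenable_of_chain Γ box finite_box' eventually_box

theorem lerf_Γ : LERF Γ := by
  apply lerf_of_sep
  intro S
  obtain ⟨N, hN⟩ := ((eventually_all_finset S).mpr (fun γ _ => eventually_box γ)).exists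
  let e : G →* G := AddMonoidHom.toMultiplicative (cut (N + 1))
  have hfin : (Set.range e).Finite := by
    refine (finite_inBox N).subset ?_
    rintro _ ⟨x, rfl⟩ k hk
    constructor
    · show (x.toAdd.1.1.filter (· < N + 1)) k = 0
      rw [Finsupp.filter_apply, if_neg (by omega)]
    · show (x.toAdd.1.2.filter (· < N + 1)) k = 0
      rw [Finsupp.filter_apply, if_neg (by omega)]
  have : Finite e.range := hfin.to_subtype
  have h1 : e.ker.FiniteIndex := Subgroup.finiteIndex_ker e
  have h2 : (SemidirectProduct.inl : G →* Γ).range.FiniteIndex := by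
    rw [SemidirectProduct.range_inl_eq_ker_rightHom]
    exact Subgroup.finiteIndex_ker _
  refine ⟨box N, e.ker.map (SemidirectProduct.inl : G →* Γ), fun γ hγ => hN γ hγ, ⟨?_⟩, ?_⟩
  · rw [Subgroup.index_map_of_injective _ SemidirectProduct.inl_injective]
    exact mul_ne_zero h1.1 h2.1
  · rintro _ hx ⟨g, hg, rfl⟩
    have h3 := cut_of_inBox N g hx
    have h4 : cut (N + 1) g.toAdd = 0 := hg
    have : g = 1 := Multiplicative.toAdd.injective (h3.symm.trans h4)
    rw [this, map_one]

instance : Countable Γ := by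
  have : Function.Injective (fun γ : Γ => (γ.left, γ.right)) := by
    intro a b hab
    rw [Prod.mk.injEq] at hab
    exact SemidirectProduct.ext hab.1 hab.2
  exact this.countable

lemma ham_nonneg {k : ℕ} (σ τ : Equiv.Perm (Fin k)) : 0 ≤ ham σ τ := by
  unfold ham; positivity

lemma ham_self {k : ℕ} (σ : Equiv.Perm (Fin k)) : ham σ σ = 0 := by
  simp [ham]

lemma ham_inv {k : ℕ} (σ τ : Equiv.Perm (Fin k)) : ham σ⁻¹ τ⁻¹ = ham σ τ := by
  unfold ham
  congr 2
  symm
  apply Finset.card_bij (fun x _ => σ x)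
  · intro x hx
    simp only [mem_filter, mem_univ, true_and] at hx ⊢
    intro h
    apply hx
    have h2 : x = τ⁻¹ (σ x) := by simpa using h
    have := congrArg τ h2
    simpa using this.symm
  · intro a _ b _ h
    exact σ.injective h
  · intro y hy
    simp only [mem_filter, mem_univ, true_and] at hy
    refine ⟨σ⁻¹ y, ?_, by simp⟩
    simp only [mem_filter, mem_univ, true_and]
    intro h
    apply hy
    have h2 : y = τ (σ⁻¹ y) := by simpa using h
    have := congrArg (fun z => τ⁻¹ z) h2
    simpa using this.symm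

lemma ham_mul {k : ℕ} (σ τ σ' τ' : Equiv.Perm (Fin k)) :
    ham (σ * σ') (τ * τ') ≤ ham σ τ + ham σ' τ' := by
  unfold ham
  rw [← add_div]
  apply div_le_div_of_nonneg_right _ (Nat.cast_nonneg k)
  have h1 : (univ.filter (fun x : Fin k => (σ * σ') x ≠ (τ * τ') x)) ⊆
      (univ.filter (fun x : Fin k => σ (σ' x) ≠ τ (σ' x))) ∪
        (univ.filter (fun x : Fin k => σ' x ≠ τ' x)) := by
    intro x hx
    simp only [mem_filter, mem_univ, true_and, mem_union, Equiv.Perm.mul_apply] at hx ⊢
    by_contra hc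
    push Not at hc
    apply hx
    rw [hc.1, hc.2]
  have h2 : (univ.filter (fun x : Fin k => σ (σ' x) ≠ τ (σ' x))).card =
      (univ.filter (fun x : Fin k => σ x ≠ τ x)).card := by
    apply Finset.card_bij (fun x _ => σ' x)
    · intro x hx
      simpa using hx
    · intro a _ b _ h
      exact σ'.injective h
    · intro y hy
      exact ⟨σ'⁻¹ y, by simpa using hy, by simp⟩
  have h3 := (Finset.card_le_card h1).trans (Finset.card_union_le _ _)
  rw [h2] at h3
  exact_mod_cast h3

/-- The elements killed by `n!`. -/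
def X (n : ℕ) : AddSubgroup U where
  carrier := {u | n.factorial • u = 0}
  add_mem' := by
    intro a b ha hb
    simp only [Set.mem_ofPred_eq] at ha hb ⊢
    rw [smul_add, ha, hb, add_zero]
  zero_mem' := by simp
  neg_mem' := by
    intro a ha
    simp only [Set.mem_ofPred_eq] at ha ⊢
    rw [smul_neg, ha, neg_zero]

instance (n : ℕ) : Finite (X n) :=
  (AddCircle.finite_torsion (1 : ℚ) n.factorial_pos).to_subtype

lemma eventually_X (u : U) : ∀ᶠ n in atTop, u ∈ X n := by
  obtain ⟨m, hm0, hm⟩ := torsion u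
  filter_upwards [eventually_ge_atTop m] with n hn
  obtain ⟨c, hc⟩ : m ∣ n.factorial := Nat.dvd_factorial hm0 hn
  show n.factorial • u = 0
  rw [hc, mul_comm, mul_nsmul', hm, smul_zero]

noncomputable def tr (n : ℕ) (u : X n) : Equiv.Perm (Fin (Nat.card (X n))) :=
  (Finite.equivFin (X n)).permCongr (Equiv.addLeft u)

lemma tr_apply (n : ℕ) (u : X n) (i : Fin (Nat.card (X n))) :
    tr n u i = Finite.equivFin (X n) (u + (Finite.equivFin (X n)).symm i) := rfl

lemma tr_add (n : ℕ) (u v : X n) : tr n (u + v) = tr n u * tr n v := by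
  ext1 i
  simp only [Equiv.Perm.mul_apply, tr_apply, Equiv.symm_apply_apply, add_assoc]

lemma tr_zero (n : ℕ) : tr n 0 = 1 := by
  ext1 i
  simp [tr_apply]

lemma tr_neg (n : ℕ) (u : X n) : tr n (-u) = (tr n u)⁻¹ := by
  rw [eq_inv_iff_mul_eq_one, ← tr_add, neg_add_cancel, tr_zero]

lemma tr_ne (n : ℕ) (u : X n) (hu : u ≠ 0) (i : Fin (Nat.card (X n))) : tr n u i ≠ i := by
  intro hi
  rw [tr_apply] at hi
  have h3 : u + (Finite.equivFin (X n)).symm i = (Finite.equivFin (X n)).symm i := by
    apply (Finite.equivFin (X n)).injective; rw [hi]; simp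
  exact hu (by simpa using h3)

lemma chiΓ_one : chiΓ 1 = 0 := by
  have := chiΓ_mul 1 1
  simpa using this

lemma chiΓ_inv (a : Γ) : chiΓ a⁻¹ = - chiΓ a := by
  have := chiΓ_mul a⁻¹ a
  rw [inv_mul_cancel, chiΓ_one] at this
  exact eq_neg_of_add_eq_zero_left this.symm

theorem not_stable_pres (S : Type) (π : FreeGroup S →* Γ) (hπ : Function.Surjective π) :
    ¬ StablePresentation π := by
  classical
  intro hs
  let φ : ∀ n, FreeGroup S →* Equiv.Perm (Fin (Nat.card (X n))) := fun n =>
    FreeGroup.lift (fun s => if h : chiΓ (π (FreeGroup.of s)) ∈ X n then tr n ⟨_, h⟩ else 1)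
  have hφ : ∀ w, ∀ᶠ n in atTop, ∃ h : chiΓ (π w) ∈ X n, φ n w = tr n ⟨_, h⟩ := by
    intro w
    induction w using FreeGroup.induction_on with
    | C1 =>
      refine Eventually.of_forall (fun n => ⟨by rw [map_one, chiΓ_one]; exact (X n).zero_mem, ?_⟩)
      rw [map_one, ← tr_zero]
      congr 1
      apply Subtype.ext
      show (0 : U) = chiΓ (π 1)
      rw [map_one, chiΓ_one]
    | of s =>
      filter_upwards [eventually_X (chiΓ (π (FreeGroup.of s)))] with n hn
      exact ⟨hn, by simp only [φ, FreeGroup.lift_apply_of, dif_pos hn]⟩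
    | inv_of s ih =>
      filter_upwards [ih] with n hn
      obtain ⟨h1, h2⟩ := hn
      refine ⟨by rw [map_inv, chiΓ_inv]; exact (X n).neg_mem h1, ?_⟩
      rw [map_inv, h2, ← tr_neg]
      congr 1
      apply Subtype.ext
      show - chiΓ _ = chiΓ _
      rw [map_inv, chiΓ_inv]
    | mul a b iha ihb =>
      filter_upwards [iha, ihb] with n ha hb
      obtain ⟨h1, h2⟩ := ha
      obtain ⟨h3, h4⟩ := hb
      refine ⟨by rw [map_mul, chiΓ_mul]; exact (X n).add_mem h1 h3, ?_⟩
      rw [map_mul, h2, h4, ← tr_add]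
      congr 1
      apply Subtype.ext
      show chiΓ _ + chiΓ _ = chiΓ _
      rw [map_mul, chiΓ_mul]
  have hzero : ∀ w, chiΓ (π w) = 0 → ∀ᶠ n in atTop, φ n w = 1 := by
    intro w hw
    filter_upwards [hφ w] with n hn
    obtain ⟨h1, h2⟩ := hn
    rw [h2, ← tr_zero]
    congr 1
    exact Subtype.ext hw
  obtain ⟨ψ, hψ1, hψ2⟩ := hs (fun n => Nat.card (X n)) φ (by
    intro w hw
    have hw' : chiΓ (π w) = 0 := by rw [MonoidHom.mem_ker.mp hw, chiΓ_one]
    refine tendsto_const_nhds.congr' ?_
    filter_upwards [hzero w hw'] with n hn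
    rw [hn, ham_self])
  have hall : ∀ w, Tendsto (fun n => ham (φ n w) (ψ n w)) atTop (𝓝 0) := by
    intro w
    induction w using FreeGroup.induction_on with
    | C1 => simp [ham_self]
    | of s => exact hψ2 s
    | inv_of s ih => simpa only [map_inv, ham_inv] using ih
    | mul a b iha ihb =>
      have := iha.add ihb
      rw [add_zero] at this
      refine squeeze_zero (fun n => ham_nonneg _ _) (fun n => ?_) this
      rw [map_mul, map_mul]
      exact ham_mul _ _ _ _
  obtain ⟨wb, hwb⟩ := hπ (SemidirectProduct.inl (aa 0))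
  obtain ⟨wh, hwh⟩ := hπ (SemidirectProduct.inr hh)
  have hca : chiΓ (π wb) = half := by
    rw [hwb]
    show tot (Finsupp.single 0 (root 0)) = half
    rw [tot_single, root_zero]
  have hch : chiΓ (π wh) = 0 := by
    rw [hwh]
    show tot 0 = 0
    simp
  have e1 := (hall wb).eventually (gt_mem_nhds (show (0 : ℝ) < 1 / 3 by norm_num))
  have e2 := (hall wh).eventually (gt_mem_nhds (show (0 : ℝ) < 1 / 3 by norm_num))
  obtain ⟨n, h1, h2, ⟨hx, h3⟩, h4⟩ := (e1.and (e2.and ((hφ wb).and (hzero wh hch)))).exists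
  let ρ : Γ →* Equiv.Perm (Fin (Nat.card (X n))) :=
    π.liftOfSurjective hπ ⟨ψ n, hψ1 n⟩
  have hρ : ∀ w, ρ (π w) = ψ n w := fun w => π.liftOfRightInverse_comp_apply _ _ _ w
  have hb := support_bound ρ
  rw [← hwb, ← hwh, hρ, hρ] at hb
  have hne : (⟨_, hx⟩ : X n) ≠ 0 := by
    intro h
    exact half_ne (hca ▸ congrArg Subtype.val h)
  have hfa : ∀ i, φ n wb i ≠ i := by
    intro i
    rw [h3]
    exact tr_ne n _ hne i
  unfold ham at h1 h2
  have e2 : (Finset.univ.filter (fun i => φ n wh i ≠ ψ n wh i)) = (ψ n wh).support := by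
    ext i
    rw [Finset.mem_filter, Equiv.Perm.mem_support, h4]
    exact ⟨fun h => h.2.symm, fun h => ⟨mem_univ _, h.symm⟩⟩
  rw [e2] at h2
  have e1 : (Finset.univ : Finset (Fin (Nat.card (X n)))) ⊆
      (Finset.univ.filter (fun i => φ n wb i ≠ ψ n wb i)) ∪ (ψ n wb).support := by
    intro i _
    rw [Finset.mem_union, Finset.mem_filter, Equiv.Perm.mem_support]
    by_contra hc
    push Not at hc
    exact hfa i ((hc.1 (mem_univ _)).trans hc.2)
  have e3 := (Finset.card_le_card e1).trans (Finset.card_union_le _ _)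
  rw [Finset.card_univ, Fintype.card_fin] at e3
  have hn : 0 < Nat.card (X n) := Nat.card_pos
  have hnR : (0 : ℝ) < Nat.card (X n) := by exact_mod_cast hn
  rw [div_lt_iff₀ hnR] at h1 h2
  have e4 : (Nat.card (X n) : ℝ) ≤
      ((Finset.univ.filter (fun i => φ n wb i ≠ ψ n wb i)).card : ℝ) +
      2 * ((ψ n wh).support.card : ℝ) := by
    exact_mod_cast e3.trans (Nat.add_le_add_left hb _)
  linarith

end Pool.Agent.H412Z.Lerf
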