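import Pool.Agent.H412Z.Signs2

set_option autoImplicit false

namespace Pool.Agent.H412Z.Signs

open Finset Filter Topology

lemma summable_c {r : ℝ} (hr : 1 < r) :
    Summable fun k : ℕ => 112 * ((k : ℝ) + 1) ^ 2 / r ^ k := by
  have hr0 : 0 < r := by linarith
  have h := summable_pow_mul_geometric_of_norm_lt_one (R := ℝ) 2 (r := r⁻¹)
    (by rw [Real.norm_of_nonneg (by positivity)]; exact inv_lt_one_of_one_lt₀ hr)
  have h1 := ((summable_nat_add_iff 1).2 h).mul_left (112 * r)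
  refine h1.congr fun k => ?_
  push_cast
  rw [inv_pow]
  field_simp
  ring

lemma sum_range_pow (f : ℕ → ℂ) (k0 : ℕ) (h0 : ∀ n, n < 2 ^ k0 → f n = 0) (K : ℕ) :
    ∑ n ∈ range (2 ^ (K + k0)), f n =
      ∑ k ∈ range K, ∑ n ∈ Ico (2 ^ (k + k0)) (2 * 2 ^ (k + k0)), f n := by
  induction K with
  | zero =>
    simp only [zero_add, range_zero, sum_empty]
    exact Finset.sum_eq_zero fun n hn => h0 n (Finset.mem_range.1 hn)
  | succ K ih =>
    rw [Finset.sum_range_succ, ← ih, show 2 ^ (K + 1 + k0) = 2 * 2 ^ (K + k0) by ring,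
      Finset.sum_range_add_sum_Ico f (by omega : 2 ^ (K + k0) ≤ 2 * 2 ^ (K + k0))]

end Pool.Agent.H412Z.Signs

namespace Pool.Agent.H520Z.Sel

open MeasureTheory Set

open Pool.Agent.H412Z.Signs Filter Topology in
theorem exists_signs (u : ℕ → ℝ) (hu : ∀ n : ℕ, |u n| ≤ Real.log n) :
    ∃ (N0 : ℕ) (z : ℕ → ℝ) (D : ℂ → ℂ), (∀ n, n < N0 → z n = 0) ∧ (∀ n, N0 ≤ n → |z n| = |u n|) ∧
      DifferentiableOn ℂ D {s : ℂ | 3 / 4 < s.re} ∧
      (∀ s : ℂ, 2 ≤ s.re → HasSum (fun n : ℕ => (z n : ℂ) * (n : ℂ) ^ (-s)) (D s)) ∧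
      ∀ s : ℂ, 3 / 4 < s.re → ‖D s‖ ≤ 1 + Real.log (2 + |s.im|) := by
  obtain ⟨r, hr1, hr4⟩ : ∃ r : ℝ, 1 < r ∧ r ^ 4 = 2 := by
    refine ⟨Real.sqrt (Real.sqrt 2), ?_, ?_⟩
    · rw [Real.lt_sqrt (by norm_num), Real.lt_sqrt (by norm_num)]; norm_num
    · rw [show (4 : ℕ) = 2 * 2 from rfl, pow_mul, Real.sq_sqrt (Real.sqrt_nonneg _),
        Real.sq_sqrt (by norm_num)]
  have hlog : ∀ k : ℕ, ∀ n ∈ Finset.Ico (2 ^ k) (2 * 2 ^ k), Real.log (n : ℕ) ≤ (k : ℝ) + 1 := by
    intro k n hn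
    obtain ⟨h1, h2⟩ := Finset.mem_Ico.1 hn
    have hn0 : (0 : ℝ) < n := by exact_mod_cast (lt_of_lt_of_le (by positivity) h1)
    have h3 : (n : ℝ) ≤ 2 ^ (k + 1) := by
      have : n ≤ 2 ^ (k + 1) := by rw [pow_succ]; omega
      exact_mod_cast this
    have h4 := Real.log_le_log hn0 h3
    rw [Real.log_pow] at h4
    have h5 : Real.log 2 ≤ 2 - 1 := Real.log_le_sub_one_of_pos (by norm_num)
    push_cast at h4
    nlinarith [Nat.cast_nonneg (α := ℝ) k]
  have hb : ∀ k : ℕ, ∃ e : ℕ → ℝ, (∀ n, |e n| = 1) ∧ ∀ s : ℂ, 3 / 4 ≤ s.re →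
      ‖blk (fun n => e n * u n) (2 ^ k) s‖ ≤
        112 * ((k : ℝ) + 1) ^ 2 / r ^ k * (1 + Real.log (2 + |s.im|)) := fun k =>
    block u (2 ^ k) (r ^ k) ((k : ℝ) + 1) (one_le_pow₀ hr1.le)
      (by rw [← pow_mul, mul_comm, pow_mul, hr4]; push_cast; rfl)
      (by linarith [Nat.cast_nonneg (α := ℝ) k])
      (fun n hn => ⟨(hu n).trans (hlog k n hn), hlog k n hn⟩)
  choose e he hE using hb
  set c : ℕ → ℝ := fun k => 112 * ((k : ℝ) + 1) ^ 2 / r ^ k with hc
  have hcs : Summable c := summable_c hr1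
  have hc0 : ∀ k, 0 ≤ c k := fun k => by simp only [hc]; positivity
  obtain ⟨k0, hk0⟩ : ∃ k0 : ℕ, ∑' k, c (k + k0) ≤ 1 :=
    ((tendsto_sum_nat_add c).eventually (ge_mem_nhds zero_lt_one)).exists
  have hcs0 : Summable fun k => c (k + k0) := (summable_nat_add_iff k0).2 hcs
  set F : ℕ → ℂ → ℂ := fun k s => blk (fun n => e (k + k0) n * u n) (2 ^ (k + k0)) s with hF
  have hFb : ∀ k s, 3 / 4 ≤ s.re → ‖F k s‖ ≤ c (k + k0) * (1 + Real.log (2 + |s.im|)) :=
    fun k s hs => hE (k + k0) s hs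
  have hΛ : ∀ s : ℂ, 0 ≤ Real.log (2 + |s.im|) := fun s =>
    Real.log_nonneg (by linarith [abs_nonneg s.im])
  set z : ℕ → ℝ := fun n => if n < 2 ^ k0 then 0 else e (Nat.log 2 n) n * u n with hz
  have hz0 : ∀ n, n < 2 ^ k0 → z n = 0 := fun n hn => by simp only [hz, if_pos hn]
  have hz1 : ∀ n, 2 ^ k0 ≤ n → |z n| = |u n| := fun n hn => by
    simp only [hz, if_neg (not_lt.2 hn)]
    rw [abs_mul, he, one_mul]
  refine ⟨2 ^ k0, z, fun s => ∑' k, F k s, hz0, hz1, ?_, ?_, ?_⟩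
  · intro s hs
    have hU : IsOpen {w : ℂ | 3 / 4 < w.re ∧ |w.im| < |s.im| + 1} :=
      (isOpen_lt continuous_const Complex.continuous_re).inter
        (isOpen_lt Complex.continuous_im.abs continuous_const)
    have hd := Complex.differentiableOn_tsum_of_summable_norm (F := F)
      (hcs0.mul_right (1 + Real.log (2 + (|s.im| + 1))))
      (fun k => (blk_diff _ _).differentiableOn) hU (fun k w hw => by
        refine (hFb k w hw.1.le).trans ?_
        have := hc0 (k + k0)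
        gcongr
        exact hw.2.le)
    exact (hd.differentiableAt (hU.mem_nhds ⟨hs, by linarith⟩)).differentiableWithinAt
  · intro s hs
    have hzu : ∀ n, |z n| ≤ Real.log n := fun n => by
      by_cases hn : n < 2 ^ k0
      · rw [hz0 n hn, abs_zero]; exact Real.log_natCast_nonneg n
      · rw [hz1 n (not_lt.1 hn)]; exact hu n
    have hsum : Summable fun n : ℕ => (z n : ℂ) * (n : ℂ) ^ (-s) := by
      refine Summable.of_norm_bounded
        ((Real.summable_nat_rpow.2 (by norm_num : (-3 / 2 : ℝ) < -1)).mul_left 2) fun n => ?_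
      rcases Nat.eq_zero_or_pos n with rfl | hn
      · rw [hz0 0 (by positivity)]; simp
      have hn' : (0 : ℝ) < n := by exact_mod_cast hn
      have hn1 : (1 : ℝ) ≤ n := by exact_mod_cast hn
      rw [norm_mul, Complex.norm_real, Real.norm_eq_abs, Complex.norm_natCast_cpow_of_pos hn]
      have h1 : Real.log n ≤ (n : ℝ) ^ (1 / 2 : ℝ) / (1 / 2) :=
        Real.log_le_rpow_div hn'.le (by norm_num)
      have h2 : (n : ℝ) ^ (-s).re ≤ (n : ℝ) ^ (-2 : ℝ) :=
        Real.rpow_le_rpow_of_exponent_le hn1 (by simpa using hs)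
      calc _ ≤ (n : ℝ) ^ (1 / 2 : ℝ) / (1 / 2) * (n : ℝ) ^ (-2 : ℝ) :=
            mul_le_mul ((hzu n).trans h1) h2 (by positivity) (by positivity)
        _ = 2 * ((n : ℝ) ^ (1 / 2 : ℝ) * (n : ℝ) ^ (-2 : ℝ)) := by ring
        _ = _ := by rw [← Real.rpow_add hn']; norm_num
    have hFs : Summable fun k => F k s :=
      Summable.of_norm_bounded (hcs0.mul_right _) fun k => hFb k s (by linarith)
    have t1 := hFs.hasSum.tendsto_sum_nat
    have t2 := hsum.hasSum.tendsto_sum_nat.comp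
      ((tendsto_pow_atTop_atTop_of_one_lt (by norm_num : 1 < 2)).comp (tendsto_add_atTop_nat k0))
    have heq : ∀ K, ∑ n ∈ Finset.range (2 ^ (K + k0)), (z n : ℂ) * (n : ℂ) ^ (-s) =
        ∑ k ∈ Finset.range K, F k s := by
      intro K
      rw [sum_range_pow _ k0 (fun n hn => by rw [hz0 n hn]; simp)]
      refine Finset.sum_congr rfl fun k _ => ?_
      simp only [hF, blk]
      refine Finset.sum_congr rfl fun n hn => ?_
      obtain ⟨h1, h2⟩ := Finset.mem_Ico.1 hn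
      have h3 : 2 ^ k0 ≤ n := (Nat.pow_le_pow_right (by norm_num) (by omega)).trans h1
      have h4 : Nat.log 2 n = k + k0 :=
        Nat.log_eq_of_pow_le_of_lt_pow h1 (by rw [pow_succ]; omega)
      have h5 : n ≠ 0 := by
        have : 0 < 2 ^ k0 := by positivity
        omega
      rw [T_eq h5]
      simp only [hz, if_neg (not_lt.2 h3), h4]
    have := tendsto_nhds_unique (t2.congr fun K => heq K) t1
    simp only
    rw [← this]
    exact hsum.hasSum
  · intro s hs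
    have h1 := tsum_of_norm_bounded (hcs0.mul_right (1 + Real.log (2 + |s.im|))).hasSum
      fun k => hFb k s hs.le
    rw [tsum_mul_right] at h1
    have h2 := hΛ s
    nlinarith

end Pool.Agent.H520Z.Sel

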