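import Mathlib

set_option autoImplicit false

namespace Pool.Agent.H412Z.Signs

open Finset

/-- Derandomised choice of signs. -/
lemma sign_choice {ι κ : Type} [DecidableEq ι] (B : Finset ι) (P : Finset κ) (a : κ → ι → ℝ) :
    ∀ w : κ → ℝ, (∀ p, 0 ≤ w p) → ∃ e : ι → ℝ, (∀ n, |e n| = 1) ∧
      ∑ p ∈ P, w p * Real.exp (∑ n ∈ B, e n * a p n) ≤
        ∑ p ∈ P, w p * Real.exp (∑ n ∈ B, (a p n) ^ 2 / 2) := by
  induction B using Finset.induction_on with
  | empty => intro w _; exact ⟨fun _ => 1, by simp, by simp⟩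
  | insert m B hm ih =>
    intro w hw
    obtain ⟨e, he, h⟩ := ih (fun p => w p * Real.exp ((a p m) ^ 2 / 2))
      (fun p => mul_nonneg (hw p) (Real.exp_pos _).le)
    have key : ∀ c : ℝ,
        ∑ p ∈ P, w p * Real.exp (∑ n ∈ insert m B, (Function.update e m c) n * a p n) =
          ∑ p ∈ P, w p * (Real.exp (c * a p m) * Real.exp (∑ n ∈ B, e n * a p n)) := by
      intro c
      refine Finset.sum_congr rfl fun p _ => ?_
      rw [Finset.sum_insert hm, Real.exp_add, Function.update_self]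
      congr 3
      refine Finset.sum_congr rfl fun n hn => ?_
      rw [Function.update_of_ne (by rintro rfl; exact hm hn)]
    have habs : ∀ c : ℝ, |c| = 1 → ∀ n, |(Function.update e m c) n| = 1 := by
      intro c hc n
      by_cases hn : n = m
      · subst hn; simpa using hc
      · rw [Function.update_of_ne hn]; exact he n
    have hR : ∑ p ∈ P, w p * Real.exp (∑ n ∈ insert m B, (a p n) ^ 2 / 2) =
        ∑ p ∈ P, w p * Real.exp ((a p m) ^ 2 / 2) * Real.exp (∑ n ∈ B, (a p n) ^ 2 / 2) := by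
      refine Finset.sum_congr rfl fun p _ => ?_
      rw [Finset.sum_insert hm, Real.exp_add, mul_assoc]
    have hsum : ∑ p ∈ P, w p * (Real.exp (1 * a p m) * Real.exp (∑ n ∈ B, e n * a p n)) +
        ∑ p ∈ P, w p * (Real.exp (-1 * a p m) * Real.exp (∑ n ∈ B, e n * a p n)) ≤
        2 * ∑ p ∈ P, w p * Real.exp ((a p m) ^ 2 / 2) * Real.exp (∑ n ∈ B, e n * a p n) := by
      rw [← Finset.sum_add_distrib, Finset.mul_sum]
      refine Finset.sum_le_sum fun p _ => ?_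
      have h1 := Real.cosh_le_exp_half_sq (a p m)
      rw [Real.cosh_eq] at h1
      have h2 : 0 ≤ w p * Real.exp (∑ n ∈ B, e n * a p n) :=
        mul_nonneg (hw p) (Real.exp_pos _).le
      rw [one_mul, neg_one_mul]
      nlinarith
    by_cases hc : ∑ p ∈ P, w p * (Real.exp (1 * a p m) * Real.exp (∑ n ∈ B, e n * a p n)) ≤
        ∑ p ∈ P, w p * (Real.exp (-1 * a p m) * Real.exp (∑ n ∈ B, e n * a p n))
    · refine ⟨Function.update e m 1, habs 1 (by simp), ?_⟩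
      rw [key, hR]; linarith
    · refine ⟨Function.update e m (-1), habs (-1) (by simp), ?_⟩
      rw [key, hR]; linarith [not_le.1 hc]

lemma exp_lip {a b : ℂ} (ha : a.re ≤ 0) (hb : b.re ≤ 0) :
    ‖Complex.exp a - Complex.exp b‖ ≤ ‖a - b‖ := by
  have h := Convex.norm_image_sub_le_of_norm_hasDerivWithin_le (𝕜 := ℂ) (f := Complex.exp)
    (f' := Complex.exp) (C := 1) (s := {z : ℂ | z.re ≤ 0})
    (fun x _ => (Complex.hasDerivAt_exp x).hasDerivWithinAt)
    (fun x hx => by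
      rw [Complex.norm_exp]
      exact Real.exp_le_one_iff.2 hx)
    (convex_halfSpace_re_le 0) hb ha
  simpa using h

/-- `n ^ (-s)` in exponential form. -/
noncomputable def T (n : ℕ) (s : ℂ) : ℂ := Complex.exp (-(s * (Real.log n : ℝ)))

lemma norm_T (n : ℕ) (s : ℂ) : ‖T n s‖ = Real.exp (-(s.re * Real.log n)) := by
  unfold T
  rw [Complex.norm_exp]
  simp only [Complex.neg_re, Complex.re_mul_ofReal]

lemma T_lip (n : ℕ) {s s' : ℂ} (hs : 0 ≤ s.re) (hs' : 0 ≤ s'.re) :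
    ‖T n s - T n s'‖ ≤ Real.log n * ‖s - s'‖ := by
  have hl : 0 ≤ Real.log n := Real.log_natCast_nonneg n
  unfold T
  refine (exp_lip ?_ ?_).trans (le_of_eq ?_)
  · simp only [Complex.neg_re, Complex.re_mul_ofReal]; nlinarith [mul_nonneg hs hl]
  · simp only [Complex.neg_re, Complex.re_mul_ofReal]; nlinarith [mul_nonneg hs' hl]
  · rw [show -(s * (Real.log n : ℝ)) - -(s' * (Real.log n : ℝ)) =
      -(((Real.log n : ℝ) : ℂ) * (s - s')) by ring, norm_neg, norm_mul, Complex.norm_real,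
      Real.norm_of_nonneg hl]

lemma T_eq {n : ℕ} (hn : n ≠ 0) (s : ℂ) : (n : ℂ) ^ (-s) = T n s := by
  unfold T
  rw [Complex.cpow_def_of_ne_zero (by exact_mod_cast hn), Complex.natCast_log]
  congr 1; ring

lemma T_diff (n : ℕ) : Differentiable ℂ (T n) := by
  unfold T
  fun_prop

lemma sum_w (J : ℕ) : ∑ j ∈ range J, 1 / ((j : ℝ) + 1) ^ 2 ≤ 2 - 2 / ((J : ℝ) + 1) := by
  induction J with
  | zero => simp
  | succ J ih =>
    rw [Finset.sum_range_succ]
    have h : 1 / ((J : ℝ) + 1) ^ 2 ≤ 2 / ((J : ℝ) + 1) - 2 / (((J + 1 : ℕ) : ℝ) + 1) := by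
      push_cast
      have hJ : (0 : ℝ) ≤ J := Nat.cast_nonneg J
      rw [div_sub_div _ _ (by positivity) (by positivity), div_le_div_iff₀ (by positivity)
        (by positivity)]
      nlinarith [mul_nonneg hJ hJ, mul_nonneg hJ (mul_nonneg hJ hJ)]
    linarith

/-- Net points. -/
noncomputable def pt (N : ℕ) (τ : ℝ) (i j : ℕ) : ℂ :=
  ((3 / 4 + (i : ℝ) / N : ℝ) : ℂ) + ((τ * j / N : ℝ) : ℂ) * Complex.I

lemma pt_re (N : ℕ) (τ : ℝ) (i j : ℕ) : (pt N τ i j).re = 3 / 4 + (i : ℝ) / N := by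
  unfold pt
  simp only [Complex.add_re, Complex.ofReal_re, Complex.mul_re, Complex.I_re, Complex.ofReal_im,
    Complex.I_im]
  ring

lemma pt_im (N : ℕ) (τ : ℝ) (i j : ℕ) : (pt N τ i j).im = τ * j / N := by
  unfold pt
  simp only [Complex.add_im, Complex.ofReal_re, Complex.mul_im, Complex.I_re, Complex.ofReal_im,
    Complex.I_im]
  ring

lemma floor_near {N : ℕ} (hN : 0 < N) {x : ℝ} (hx : 0 ≤ x) :
    |x - (⌊(N : ℝ) * x⌋₊ : ℝ) / N| ≤ 1 / N := by
  have hN' : (0 : ℝ) < N := by exact_mod_cast hN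
  have h1 := Nat.floor_le (mul_nonneg hN'.le hx)
  have h2 := Nat.lt_floor_add_one ((N : ℝ) * x)
  have : x - (⌊(N : ℝ) * x⌋₊ : ℝ) / N = ((N : ℝ) * x - ⌊(N : ℝ) * x⌋₊) / N := by
    field_simp
  rw [this, abs_div, abs_of_pos hN', abs_of_nonneg (by linarith)]
  gcongr
  linarith

lemma near_pt {N : ℕ} (hN : 0 < N) (s : ℂ) (hs : 3 / 4 ≤ s.re) :
    ∃ τ ∈ ({1, -1} : Finset ℝ),
      ‖s - pt N τ ⌊(N : ℝ) * (s.re - 3 / 4)⌋₊ ⌊(N : ℝ) * |s.im|⌋₊‖ ≤ 2 / N := by
  have h1 := floor_near hN (sub_nonneg.2 hs)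
  have h2 := floor_near hN (abs_nonneg s.im)
  have key : ∀ τ : ℝ, |s.im - τ * ⌊(N : ℝ) * |s.im|⌋₊ / N| ≤ 1 / N →
      ‖s - pt N τ ⌊(N : ℝ) * (s.re - 3 / 4)⌋₊ ⌊(N : ℝ) * |s.im|⌋₊‖ ≤ 2 / N := by
    intro τ h
    refine (Complex.norm_le_abs_re_add_abs_im _).trans ?_
    rw [Complex.sub_re, Complex.sub_im, pt_re, pt_im, ← sub_sub]
    have : (2 : ℝ) / N = 1 / N + 1 / N := by ring
    linarith
  rcases le_total 0 s.im with h | h
  · refine ⟨1, by simp, key 1 ?_⟩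
    rw [one_mul]
    have h3 := abs_of_nonneg h
    calc _ = |(|s.im|) - (⌊(N : ℝ) * |s.im|⌋₊ : ℝ) / N| := by congr 2; exact h3.symm
      _ ≤ _ := h2
  · refine ⟨-1, by simp, key (-1) ?_⟩
    have h3 := abs_of_nonpos h
    calc _ = |(|s.im|) - (⌊(N : ℝ) * |s.im|⌋₊ : ℝ) / N| := by
          rw [← abs_neg]; congr 1; linear_combination (-1 : ℝ) * h3
      _ ≤ _ := h2

end Pool.Agent.H412Z.Signs
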