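import Pool.Agent.H412Z.Signs1

set_option autoImplicit false

namespace Pool.Agent.H412Z.Signs

open Finset

/-- The block polynomial. -/
noncomputable def blk (c : ℕ → ℝ) (M : ℕ) (s : ℂ) : ℂ := ∑ n ∈ Ico M (2 * M), (c n : ℂ) * T n s

lemma blk_diff (c : ℕ → ℝ) (M : ℕ) : Differentiable ℂ (blk c M) := by
  unfold blk
  refine Differentiable.fun_sum fun n _ => ?_
  exact (T_diff n).const_mul _

lemma card_blk (M : ℕ) : ((Ico M (2 * M)).card : ℝ) = M := by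
  rw [Nat.card_Ico]
  congr 1; omega

lemma norm_T_le {M n : ℕ} (hM : 0 < M) (hn : n ∈ Ico M (2 * M)) {s : ℂ} {σ : ℝ} (hσ : 0 ≤ σ)
    (hs : σ ≤ s.re) : ‖T n s‖ ≤ Real.exp (-(σ * Real.log M)) := by
  rw [norm_T, Real.exp_le_exp]
  have h1 : Real.log M ≤ Real.log n :=
    Real.log_le_log (by exact_mod_cast hM) (by exact_mod_cast (Finset.mem_Ico.1 hn).1)
  have h0 : 0 ≤ Real.log M := Real.log_natCast_nonneg M
  nlinarith [mul_le_mul hs h1 h0 (hσ.trans hs)]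

lemma blk_triv {c : ℕ → ℝ} {M : ℕ} (hM : 0 < M) {L : ℝ} (hc : ∀ n ∈ Ico M (2 * M), |c n| ≤ L)
    {s : ℂ} {σ : ℝ} (hσ : 0 ≤ σ) (hs : σ ≤ s.re) :
    ‖blk c M s‖ ≤ M * (L * Real.exp (-(σ * Real.log M))) := by
  unfold blk
  refine (norm_sum_le _ _).trans ?_
  refine (Finset.sum_le_card_nsmul _ _ (L * Real.exp (-(σ * Real.log M))) fun n hn => ?_).trans ?_
  · rw [norm_mul, Complex.norm_real, Real.norm_eq_abs]
    exact mul_le_mul (hc n hn) (norm_T_le hM hn hσ hs) (norm_nonneg _)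
      ((abs_nonneg _).trans (hc n hn))
  · rw [nsmul_eq_mul, card_blk]

lemma blk_lip {c : ℕ → ℝ} {M : ℕ} {L : ℝ}
    (hc : ∀ n ∈ Ico M (2 * M), |c n| ≤ L ∧ Real.log n ≤ L)
    {s s' : ℂ} (hs : 0 ≤ s.re) (hs' : 0 ≤ s'.re) :
    ‖blk c M s - blk c M s'‖ ≤ M * (L * (L * ‖s - s'‖)) := by
  unfold blk
  rw [← Finset.sum_sub_distrib]
  refine (norm_sum_le _ _).trans ?_
  refine (Finset.sum_le_card_nsmul _ _ (L * (L * ‖s - s'‖)) fun n hn => ?_).trans ?_
  · rw [← mul_sub, norm_mul, Complex.norm_real, Real.norm_eq_abs]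
    refine mul_le_mul (hc n hn).1 ((T_lip n hs hs').trans ?_) (norm_nonneg _)
      ((abs_nonneg _).trans (hc n hn).1)
    exact mul_le_mul_of_nonneg_right (hc n hn).2 (norm_nonneg _)
  · rw [nsmul_eq_mul, card_blk]

lemma norm_le_of_four {z : ℂ} {A : ℝ}
    (h : ∀ θ ∈ ({1, -1, Complex.I, -Complex.I} : Finset ℂ), (θ * z).re ≤ A) : ‖z‖ ≤ 2 * A := by
  have h1 := h 1 (by simp)
  have h2 := h (-1) (by simp)
  have h3 := h Complex.I (by simp)
  have h4 := h (-Complex.I) (by simp)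
  simp at h1 h2 h3 h4
  refine (Complex.norm_le_abs_re_add_abs_im _).trans ?_
  have a1 : |z.re| ≤ A := abs_le.2 ⟨by linarith, h1⟩
  have a2 : |z.im| ≤ A := abs_le.2 ⟨by linarith, h4⟩
  linarith

/-- Signs making the block polynomial small on the net. -/
lemma net_bound (u : ℕ → ℝ) (M : ℕ) (q L : ℝ) (hq : 1 ≤ q) (hqM : q ^ 4 = M) (hL : 1 ≤ L)
    (hu : ∀ n ∈ Ico M (2 * M), |u n| ≤ L ∧ Real.log n ≤ L) (N J : ℕ) (hN : 0 < N) :
    ∃ e : ℕ → ℝ, (∀ n, |e n| = 1) ∧ ∀ τ ∈ ({1, -1} : Finset ℝ), ∀ i ≤ 2 * N, ∀ j < J,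
      ‖blk (fun n => e n * u n) M (pt N τ i j)‖ ≤
        2 * (L / q * (49 + Real.log N + 2 * Real.log ((j : ℝ) + 1))) := by
  have hq0 : 0 < q := by linarith
  have hL0 : 0 < L := by linarith
  have hM : 0 < M := by
    have : (0 : ℝ) < M := by rw [← hqM]; positivity
    exact_mod_cast this
  have hN1 : (1 : ℝ) ≤ N := by exact_mod_cast hN
  set P : Finset (ℂ × ℝ × ℕ × ℕ) := ({1, -1, Complex.I, -Complex.I} : Finset ℂ) ×ˢ
    (({1, -1} : Finset ℝ) ×ˢ (range (2 * N + 1) ×ˢ range J)) with hP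
  set a : ℂ × ℝ × ℕ × ℕ → ℕ → ℝ := fun p n =>
    q / L * (p.1 * ((u n : ℂ) * T n (pt N p.2.1 p.2.2.1 p.2.2.2))).re with ha
  set w : ℂ × ℝ × ℕ × ℕ → ℝ := fun p => 1 / ((p.2.2.2 : ℝ) + 1) ^ 2 with hw
  have hw0 : ∀ p, 0 < w p := fun p => by simp only [hw]; positivity
  obtain ⟨e, he, h⟩ := sign_choice (Ico M (2 * M)) P a w fun p => (hw0 p).le
  refine ⟨e, he, ?_⟩
  -- variance bound
  have hvar : ∀ p ∈ P, ∑ n ∈ Ico M (2 * M), (a p n) ^ 2 / 2 ≤ 1 := by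
    intro p hp
    have hθ : ‖p.1‖ = 1 := by
      have := (Finset.mem_product.1 hp).1
      simp only [Finset.mem_insert, Finset.mem_singleton] at this
      rcases this with h | h | h | h <;> simp [h]
    have hexp : Real.exp (-(3 / 4 * Real.log M)) = 1 / q ^ 3 := by
      rw [← hqM, Real.log_pow, show -(3 / 4 * (((4 : ℕ) : ℝ) * Real.log q)) =
        -(((3 : ℕ) : ℝ) * Real.log q) by push_cast; ring, ← Real.log_pow, Real.exp_neg,
        Real.exp_log (by positivity), one_div]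
    refine (Finset.sum_le_card_nsmul _ _ (1 / q ^ 4) fun n hn => ?_).trans ?_
    · have hT : ‖T n (pt N p.2.1 p.2.2.1 p.2.2.2)‖ ≤ 1 / q ^ 3 := by
        rw [← hexp]
        refine norm_T_le hM hn (by norm_num) ?_
        rw [pt_re]
        have : (0 : ℝ) ≤ (p.2.2.1 : ℝ) / N := by positivity
        linarith
      have h1 : |(p.1 * ((u n : ℂ) * T n (pt N p.2.1 p.2.2.1 p.2.2.2))).re| ≤ L * (1 / q ^ 3) := by
        refine (Complex.abs_re_le_norm _).trans ?_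
        rw [norm_mul, hθ, one_mul, norm_mul, Complex.norm_real, Real.norm_eq_abs]
        exact mul_le_mul (hu n hn).1 hT (norm_nonneg _) hL0.le
      have h2 : |a p n| ≤ 1 / q ^ 2 := by
        simp only [ha]
        rw [abs_mul, abs_of_pos (by positivity : 0 < q / L)]
        calc _ ≤ q / L * (L * (1 / q ^ 3)) := by gcongr
          _ = 1 / q ^ 2 := by field_simp
      have h3 : (a p n) ^ 2 ≤ (1 / q ^ 2) ^ 2 := by
        rw [← sq_abs]; gcongr
      have h4 : (1 / q ^ 2) ^ 2 = 1 / q ^ 4 := by field_simp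
      nlinarith [sq_nonneg (a p n)]
    · rw [nsmul_eq_mul, card_blk, ← hqM]
      field_simp
      exact le_rfl
  have hW : ∑ p ∈ P, w p ≤ 48 * N := by
    have hJ := sum_w J
    have hJ' : (0 : ℝ) ≤ 2 / ((J : ℝ) + 1) := by positivity
    have hS : ∑ j ∈ range J, 1 / ((j : ℝ) + 1) ^ 2 ≤ 2 := by linarith
    have hS0 : 0 ≤ ∑ j ∈ range J, 1 / ((j : ℝ) + 1) ^ 2 := by positivity
    simp only [hP, hw, Finset.sum_product, Finset.sum_const, nsmul_eq_mul, Finset.card_range]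
    have c1 : ((({1, -1, Complex.I, -Complex.I} : Finset ℂ).card : ℕ) : ℝ) ≤ 4 := by
      exact_mod_cast Finset.card_le_four
    have c2 : ((({1, -1} : Finset ℝ).card : ℕ) : ℝ) ≤ 2 := by
      exact_mod_cast Finset.card_le_two
    calc _ ≤ 4 * (2 * (((2 * N + 1 : ℕ) : ℝ) * 2)) := by gcongr
      _ ≤ 48 * N := by push_cast; linarith
  have hR : ∑ p ∈ P, w p * Real.exp (∑ n ∈ Ico M (2 * M), (a p n) ^ 2 / 2) ≤
      48 * N * Real.exp 1 := by
    calc _ ≤ ∑ p ∈ P, w p * Real.exp 1 := Finset.sum_le_sum fun p hp =>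
          mul_le_mul_of_nonneg_left (Real.exp_le_exp.2 (hvar p hp)) (hw0 p).le
      _ = (∑ p ∈ P, w p) * Real.exp 1 := by rw [Finset.sum_mul]
      _ ≤ _ := by gcongr
  intro τ hτ i hi j hj
  refine norm_le_of_four fun θ hθ => ?_
  have hp : (θ, τ, i, j) ∈ P := by
    simp only [hP, Finset.mem_product, Finset.mem_range]
    exact ⟨hθ, hτ, by omega, hj⟩
  have h1 := Finset.single_le_sum (f := fun p => w p * Real.exp (∑ n ∈ Ico M (2 * M), e n * a p n))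
    (fun p _ => mul_nonneg (hw0 p).le (Real.exp_pos _).le) hp
  have h2 : ∑ n ∈ Ico M (2 * M), e n * a (θ, τ, i, j) n =
      q / L * (θ * blk (fun n => e n * u n) M (pt N τ i j)).re := by
    unfold blk
    rw [Finset.mul_sum, Complex.re_sum, Finset.mul_sum]
    refine Finset.sum_congr rfl fun n _ => ?_
    simp only [ha]
    rw [show θ * (((e n * u n : ℝ) : ℂ) * T n (pt N τ i j)) =
      (e n : ℂ) * (θ * ((u n : ℂ) * T n (pt N τ i j))) by push_cast; ring,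
      Complex.re_ofReal_mul]
    ring
  simp only [h2] at h1
  set X := (θ * blk (fun n => e n * u n) M (pt N τ i j)).re
  have h3 : Real.exp (q / L * X) ≤ 48 * N * Real.exp 1 * ((j : ℝ) + 1) ^ 2 := by
    have h4 := (h1.trans h).trans hR
    simp only [hw] at h4
    rw [one_div, inv_mul_le_iff₀ (by positivity)] at h4
    linarith
  have h5 : q / L * X ≤ 49 + Real.log N + 2 * Real.log ((j : ℝ) + 1) := by
    have h6 := Real.log_le_log (Real.exp_pos _) h3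
    rw [Real.log_exp, Real.log_mul (by positivity) (by positivity),
      Real.log_mul (by positivity) (by positivity), Real.log_mul (by positivity) (by positivity),
      Real.log_exp, Real.log_pow] at h6
    have h7 : Real.log 48 ≤ 48 - 1 := Real.log_le_sub_one_of_pos (by norm_num)
    push_cast at h6
    linarith
  calc X = L / q * (q / L * X) := by field_simp
    _ ≤ _ := by gcongr

lemma block (u : ℕ → ℝ) (M : ℕ) (q L : ℝ) (hq : 1 ≤ q) (hqM : q ^ 4 = M) (hL : 1 ≤ L)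
    (hu : ∀ n ∈ Ico M (2 * M), |u n| ≤ L ∧ Real.log n ≤ L) :
    ∃ e : ℕ → ℝ, (∀ n, |e n| = 1) ∧ ∀ s : ℂ, 3 / 4 ≤ s.re →
      ‖blk (fun n => e n * u n) M s‖ ≤ 112 * L ^ 2 / q * (1 + Real.log (2 + |s.im|)) := by
  have hq0 : 0 < q := by linarith
  have hL0 : 0 < L := by linarith
  have hqM' : q ≤ M := by
    rw [← hqM]; nlinarith [one_le_pow₀ (n := 3) hq]
  have hM1 : (1 : ℝ) ≤ M := hq.trans hqM'
  have hM : 0 < M := by exact_mod_cast (zero_lt_one.trans_le hM1)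
  have hN : 0 < M ^ 2 := by positivity
  obtain ⟨e, he, h⟩ := net_bound u M q L hq hqM hL hu (M ^ 2)
    (⌊((M ^ 2 : ℕ) : ℝ) * Real.exp (M * q)⌋₊ + 1) hN
  refine ⟨e, he, fun s hs => ?_⟩
  have hc : ∀ n ∈ Ico M (2 * M), |e n * u n| ≤ L ∧ Real.log n ≤ L := fun n hn => by
    rw [abs_mul, he, one_mul]; exact hu n hn
  have hΛ : 0 ≤ Real.log (2 + |s.im|) := Real.log_nonneg (by linarith [abs_nonneg s.im])
  set Λ := Real.log (2 + |s.im|) with hΛdef
  have hA : 0 < L ^ 2 / q := by positivity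
  have hLA : L / q ≤ L ^ 2 / q := by gcongr; nlinarith
  have hgoal : 112 * L ^ 2 / q * (1 + Λ) = 112 * (L ^ 2 / q) * (1 + Λ) := by ring
  rw [hgoal]
  by_cases h2 : 2 ≤ s.re
  · have h3 := blk_triv hM (fun n hn => (hc n hn).1) (by norm_num : (0 : ℝ) ≤ 2) h2
    have h4 : Real.exp (-(2 * Real.log M)) = 1 / (M : ℝ) ^ 2 := by
      rw [show (2 : ℝ) * Real.log M = ((2 : ℕ) : ℝ) * Real.log M by norm_num, ← Real.log_pow,
        Real.exp_neg, Real.exp_log (by positivity), one_div]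
    rw [h4] at h3
    have h5 : (M : ℝ) * (L * (1 / (M : ℝ) ^ 2)) = L / M := by field_simp
    have h6 : L / M ≤ L / q := by gcongr
    nlinarith [mul_nonneg hA.le hΛ]
  by_cases h3 : Real.exp (M * q) ≤ |s.im|
  · have h4 := blk_triv hM (fun n hn => (hc n hn).1) (le_refl (0 : ℝ)) (by linarith : 0 ≤ s.re)
    simp only [zero_mul, neg_zero, Real.exp_zero, mul_one] at h4
    have h5 : M * q ≤ Λ := by
      rw [hΛdef, Real.le_log_iff_exp_le (by positivity)]; linarith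
    have h6 : (M : ℝ) * L = L / q * (M * q) := by field_simp
    have h7 : L / q * (M * q) ≤ L ^ 2 / q * Λ := by gcongr
    nlinarith [mul_nonneg hA.le hΛ]
  obtain ⟨τ, hτ, hnear⟩ := near_pt hN s hs
  have hNr : (((M ^ 2 : ℕ)) : ℝ) = (M : ℝ) ^ 2 := by push_cast; rfl
  have hi : ⌊((M ^ 2 : ℕ) : ℝ) * (s.re - 3 / 4)⌋₊ ≤ 2 * M ^ 2 := by
    refine Nat.floor_le_of_le ?_
    push_cast
    nlinarith [not_le.1 h2, sq_nonneg (M : ℝ)]
  have hj : ⌊((M ^ 2 : ℕ) : ℝ) * |s.im|⌋₊ < ⌊((M ^ 2 : ℕ) : ℝ) * Real.exp (M * q)⌋₊ + 1 := by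
    refine Nat.lt_succ_of_le (Nat.floor_le_floor ?_)
    gcongr
    exact (not_le.1 h3).le
  have h4 := h τ hτ _ hi _ hj
  set j := ⌊((M ^ 2 : ℕ) : ℝ) * |s.im|⌋₊ with hjdef
  set p := pt (M ^ 2) τ ⌊((M ^ 2 : ℕ) : ℝ) * (s.re - 3 / 4)⌋₊ j with hpdef
  have hp0 : 0 ≤ p.re := by rw [hpdef, pt_re]; positivity
  have h5 := blk_lip hc (by linarith : 0 ≤ s.re) hp0
  have hlogM : Real.log M ≤ L := (hu M (Finset.mem_Ico.2 ⟨le_rfl, by omega⟩)).2
  have hlogN : Real.log ((M ^ 2 : ℕ) : ℝ) ≤ 2 * L := by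
    rw [hNr, Real.log_pow]; push_cast; linarith
  have hM2 : (1 : ℝ) ≤ ((M ^ 2 : ℕ) : ℝ) := by exact_mod_cast hN
  have hlogj : Real.log ((j : ℝ) + 1) ≤ 2 * L + Λ := by
    have hj1 : (j : ℝ) ≤ ((M ^ 2 : ℕ) : ℝ) * |s.im| := Nat.floor_le (by positivity)
    have hj2 : (j : ℝ) + 1 ≤ ((M ^ 2 : ℕ) : ℝ) * (2 + |s.im|) := by nlinarith
    have := Real.log_le_log (by positivity) hj2
    rw [Real.log_mul (by positivity) (by positivity)] at this
    linarith
  have h6 : (M : ℝ) * (L * (L * ‖s - p‖)) ≤ 2 * (L ^ 2 / q) := by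
    calc _ ≤ (M : ℝ) * (L * (L * (2 / ((M ^ 2 : ℕ) : ℝ)))) := by gcongr
      _ = 2 * (L ^ 2 / M) := by rw [hNr]; field_simp
      _ ≤ _ := by gcongr
  have h7 : L / q * (49 + Real.log ((M ^ 2 : ℕ) : ℝ) + 2 * Real.log ((j : ℝ) + 1)) ≤
      55 * (L ^ 2 / q) * (1 + Λ) := by
    calc _ ≤ L / q * (55 * L * (1 + Λ)) := by
          gcongr
          nlinarith [mul_nonneg hL0.le hΛ, mul_nonneg (sub_nonneg.2 hL) hΛ]
      _ = _ := by ring
  have h8 := norm_le_norm_add_norm_sub' (blk (fun n => e n * u n) M s)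
    (blk (fun n => e n * u n) M p)
  nlinarith [mul_nonneg hA.le hΛ]

end Pool.Agent.H412Z.Signs
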