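import Mathlib

set_option autoImplicit false

/-! A nilpotent group of class three whose semigroup variety contains an infinite two-generated
nil semigroup: factors of a Sturmian word are isoterms. -/

namespace Pool.Agent.H412Z.Sturm

/-- The four-dimensional filiform group over the reals. -/
@[ext] structure Fil where
  s : ℝ
  n : ℝ
  m : ℝ
  q : ℝ

instance : Mul Fil :=
  ⟨fun a b => ⟨a.s + b.s, a.n + b.n, a.m + b.m + a.s * b.n,
    a.q + b.q + 2 * a.s * b.m + a.s ^ 2 * b.n⟩⟩

instance : One Fil := ⟨⟨0, 0, 0, 0⟩⟩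

instance : Inv Fil :=
  ⟨fun a => ⟨-a.s, -a.n, -a.m + a.s * a.n, -a.q + 2 * a.s * a.m - a.s ^ 2 * a.n⟩⟩

@[simp] lemma mul_s (a b : Fil) : (a * b).s = a.s + b.s := rfl
@[simp] lemma mul_n (a b : Fil) : (a * b).n = a.n + b.n := rfl
@[simp] lemma mul_m (a b : Fil) : (a * b).m = a.m + b.m + a.s * b.n := rfl
@[simp] lemma mul_q (a b : Fil) :
    (a * b).q = a.q + b.q + 2 * a.s * b.m + a.s ^ 2 * b.n := rfl
@[simp] lemma one_s : (1 : Fil).s = 0 := rfl
@[simp] lemma one_n : (1 : Fil).n = 0 := rfl
@[simp] lemma one_m : (1 : Fil).m = 0 := rfl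
@[simp] lemma one_q : (1 : Fil).q = 0 := rfl
@[simp] lemma inv_s (a : Fil) : (a⁻¹).s = -a.s := rfl
@[simp] lemma inv_n (a : Fil) : (a⁻¹).n = -a.n := rfl
@[simp] lemma inv_m (a : Fil) : (a⁻¹).m = -a.m + a.s * a.n := rfl
@[simp] lemma inv_q (a : Fil) : (a⁻¹).q = -a.q + 2 * a.s * a.m - a.s ^ 2 * a.n := rfl

instance : Group Fil :=
  Group.ofLeftAxioms
    (fun a b c => by ext <;> simp <;> ring)
    (fun a => by ext <;> simp)
    (fun a => by ext <;> simp <;> ring)

def H1 : Subgroup Fil where
  carrier := {a | a.s = 0 ∧ a.n = 0 ∧ a.m = 0}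
  mul_mem' := by
    rintro a b ⟨h1, h2, h3⟩ ⟨h4, h5, h6⟩
    simp [h1, h2, h3, h4, h5, h6]
  one_mem' := by simp
  inv_mem' := by
    rintro a ⟨h1, h2, h3⟩
    simp [h1, h2, h3]

def H2 : Subgroup Fil where
  carrier := {a | a.s = 0 ∧ a.n = 0}
  mul_mem' := by
    rintro a b ⟨h1, h2⟩ ⟨h4, h5⟩
    simp [h1, h2, h4, h5]
  one_mem' := by simp
  inv_mem' := by
    rintro a ⟨h1, h2⟩
    simp [h1, h2]

def ser : ℕ → Subgroup Fil
  | 0 => ⊥
  | 1 => H1
  | 2 => H2
  | _ => ⊤

theorem nilpotent : Group.IsNilpotent Fil := by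
  rw [Subgroup.nilpotent_iff_finite_ascending_central_series]
  refine ⟨3, ser, ⟨rfl, ?_⟩, rfl⟩
  intro x n hx g
  rw [commutatorElement_def]
  match n with
  | 0 =>
    obtain ⟨h1, h2, h3⟩ := hx
    show _ ∈ (⊥ : Subgroup Fil)
    rw [Subgroup.mem_bot]
    ext <;> simp [h1, h2, h3] <;> ring
  | 1 =>
    obtain ⟨h1, h2⟩ := hx
    refine ⟨?_, ?_, ?_⟩ <;> simp [h1, h2] <;> ring
  | 2 =>
    refine ⟨?_, ?_⟩ <;> simp
  | n + 3 => exact Subgroup.mem_top _

/-- The slope. -/
noncomputable def θ : ℝ := Real.sqrt 2 - 1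

lemma θ_irr : Irrational θ := by
  have := irrational_sqrt_two.sub_intCast 1
  simpa [θ] using this

lemma θ_pos : 0 < θ := by
  have : (1 : ℝ) < Real.sqrt 2 := by
    rw [Real.lt_sqrt (by norm_num)]; norm_num
  unfold θ; linarith

lemma θ_lt : θ < 1 := by
  have : Real.sqrt 2 < 2 := by
    rw [Real.sqrt_lt' (by norm_num)]; norm_num
  unfold θ; linarith

def bit (b : Bool) : ℤ := if b then 1 else 0

noncomputable def step (b : Bool) : ℝ := (bit b : ℝ) - θ

noncomputable def gen (b : Bool) : Fil := ⟨step b, 1, step b, step b ^ 2⟩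

noncomputable def evL (w : List Bool) : Fil := (w.map gen).prod

noncomputable def energy : ℝ → List Bool → ℝ
  | _, [] => 0
  | t, b :: w => (t + step b) ^ 2 + energy (t + step b) w

def good : ℝ → List Bool → Prop
  | t, [] => |t| < 1 / 2
  | t, b :: w => |t| < 1 / 2 ∧ good (t + step b) w

lemma evL_cons (b : Bool) (w : List Bool) : evL (b :: w) = gen b * evL w := by
  simp [evL]

lemma evL_append (u v : List Bool) : evL (u ++ v) = evL u * evL v := by
  simp [evL]

lemma evL_n (w : List Bool) : (evL w).n = w.length := by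
  induction w with
  | nil => simp [evL]
  | cons b w ih => rw [evL_cons]; simp [gen, ih]; ring

lemma energy_eq (w : List Bool) : ∀ t : ℝ,
    energy t w = (evL w).q + 2 * t * (evL w).m + t ^ 2 * (evL w).n := by
  induction w with
  | nil => intro t; simp [evL, energy]
  | cons b w ih =>
    intro t
    rw [evL_cons, energy, ih]
    simp [gen]; ring

lemma good_start {t : ℝ} {w : List Bool} (h : good t w) : |t| < 1 / 2 := by
  cases w with
  | nil => exact h
  | cons b w => exact h.1

lemma good_append (u v : List Bool) : ∀ t : ℝ, good t (u ++ v) →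
    good t u ∧ good (t + (evL u).s) v := by
  induction u with
  | nil => intro t h; simpa [evL, good, good_start h] using ⟨by simpa using good_start h, h⟩
  | cons b u ih =>
    intro t h
    obtain ⟨h1, h2⟩ := h
    obtain ⟨h3, h4⟩ := ih _ h2
    refine ⟨⟨h1, h3⟩, ?_⟩
    rw [evL_cons]
    simpa [gen, add_assoc] using h4

lemma sq_le_shift {u : ℝ} (hu : |u| < 1 / 2) (k : ℤ) :
    u ^ 2 ≤ (u + k) ^ 2 ∧ (u ^ 2 = (u + k) ^ 2 → k = 0) := by
  rw [abs_lt] at hu
  rcases lt_trichotomy k 0 with hk | hk | hk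
  · have : (k : ℝ) ≤ -1 := by exact_mod_cast (by omega : k ≤ -1)
    constructor
    · nlinarith
    · intro h; exfalso; nlinarith
  · subst hk; simp
  · have : (1 : ℝ) ≤ k := by exact_mod_cast (by omega : 1 ≤ k)
    constructor
    · nlinarith
    · intro h; exfalso; nlinarith

lemma key (w : List Bool) : ∀ (w' : List Bool) (t : ℝ) (k : ℤ), good t w → w'.length = w.length →
    energy t w ≤ energy (t + k) w' ∧ (energy t w = energy (t + k) w' → k = 0 → w' = w) := by
  induction w with
  | nil =>
    intro w' t k _ hl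
    have : w' = [] := List.length_eq_zero_iff.mp hl
    subst this
    simp [energy]
  | cons b w ih =>
    intro w' t k hg hl
    cases w' with
    | nil => simp at hl
    | cons b' w' =>
      have hl' : w'.length = w.length := by simpa using hl
      obtain ⟨_, hg2⟩ := hg
      have e : t + k + step b' = (t + step b) + ((k + bit b' - bit b : ℤ) : ℝ) := by
        simp [step]; ring
      obtain ⟨i1, i2⟩ := ih w' (t + step b) (k + bit b' - bit b) hg2 hl'
      obtain ⟨j1, j2⟩ := sq_le_shift (good_start hg2) (k + bit b' - bit b)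
      simp only [energy]
      rw [e]
      refine ⟨by linarith, fun h hk => ?_⟩
      have h0 : k + bit b' - bit b = 0 := j2 (by linarith)
      have hb : b' = b := by
        subst hk
        cases b <;> cases b' <;> simp [bit] at h0 ⊢
      rw [hb, i2 (by linarith) h0]

/-- A good word is determined by its value in the group. -/
lemma isoterm {w w' : List Bool} {t : ℝ} (h : good t w) (he : evL w' = evL w) : w' = w := by
  have hl : w'.length = w.length := by
    have := congrArg Fil.n he
    rw [evL_n, evL_n] at this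
    exact_mod_cast this
  have := (key w w' t 0 h hl).2
  apply this _ rfl
  rw [energy_eq, energy_eq, he]
  simp

lemma evL_s (w : List Bool) : ∃ A : ℤ, (evL w).s = A - w.length * θ := by
  induction w with
  | nil => exact ⟨0, by simp [evL]⟩
  | cons b w ih =>
    obtain ⟨A, hA⟩ := ih
    refine ⟨A + bit b, ?_⟩
    rw [evL_cons]
    simp [gen, hA, step]; ring

lemma evL_s_ne {w : List Bool} (hw : w ≠ []) : (evL w).s ≠ 0 := by
  obtain ⟨A, hA⟩ := evL_s w
  rw [hA]
  intro h
  have hl : (w.length : ℤ) ≠ 0 := by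
    have := List.length_pos_iff.mpr hw
    omega
  have h1 : Irrational (((w.length : ℤ) : ℝ) * θ) := θ_irr.intCast_mul hl
  apply h1.ne_int A
  push_cast
  linarith

lemma good_s {t : ℝ} {w : List Bool} (h : good t w) : |(evL w).s| < 1 := by
  have h1 := good_start h
  have h2 := (good_append w [] t (by simpa using h)).2
  have h3 := good_start h2
  rw [abs_lt] at *
  constructor <;> linarith [h1.1, h1.2, h3.1, h3.2]

lemma exists_good (n : ℕ) : ∀ t : ℝ, |t| < 1 / 2 → (∃ A k : ℤ, t = A - k * θ) →
    ∃ w : List Bool, w.length = n ∧ good t w := by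
  induction n with
  | zero => intro t ht _; exact ⟨[], rfl, ht⟩
  | succ n ih =>
    rintro t ht ⟨A, k, hA⟩
    have ht' := abs_lt.mp ht
    have h0 := θ_pos
    have h1 := θ_lt
    rcases lt_trichotomy t (θ - 1 / 2) with h | h | h
    · obtain ⟨w, hw, hg⟩ := ih (t + step true) (by
        rw [abs_lt]; simp only [step, bit]; push_cast; constructor <;> simp <;> linarith [ht'.1])
        ⟨A + 1, k + 1, by simp [step, bit, hA]; ring⟩
      exact ⟨true :: w, by simp [hw], ht, hg⟩
    · exfalso
      by_cases hk : k + 1 = 0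
      · have hk' : (k : ℝ) = -1 := by exact_mod_cast (by omega : k = -1)
        rw [hk'] at hA
        have : (2 * A + 1 : ℝ) = 0 := by linarith
        have : (2 * A + 1 : ℤ) = 0 := by exact_mod_cast this
        omega
      · have h2 : Irrational (((2 * (k + 1) : ℤ) : ℝ) * θ) := θ_irr.intCast_mul (by omega)
        apply h2.ne_int (2 * A + 1)
        push_cast
        linarith
    · obtain ⟨w, hw, hg⟩ := ih (t + step false) (by
        rw [abs_lt]; simp only [step, bit]; push_cast; constructor <;> simp <;> linarith [ht'.2])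
        ⟨A, k + 1, by simp [step, bit, hA]; ring⟩
      exact ⟨false :: w, by simp [hw], ht, hg⟩

def toL (u : FreeSemigroup Bool) : List Bool := u.head :: u.tail

lemma toL_mul (u v : FreeSemigroup Bool) : toL (u * v) = toL u ++ toL v := by
  simp [toL]

lemma toL_inj {u v : FreeSemigroup Bool} (h : toL u = toL v) : u = v := by
  cases u; cases v
  simp [toL] at h
  simp [h.1, h.2]

def Good (u : FreeSemigroup Bool) : Prop := ∃ t, good t (toL u)

lemma Good_mul {u v : FreeSemigroup Bool} (h : Good (u * v)) : Good u ∧ Good v := by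
  obtain ⟨t, ht⟩ := h
  rw [toL_mul] at ht
  obtain ⟨h1, h2⟩ := good_append _ _ t ht
  exact ⟨⟨_, h1⟩, ⟨_, h2⟩⟩

/-- The Rees congruence of the ideal of words that are not good. -/
def rees : Con (FreeSemigroup Bool) where
  r u v := u = v ∨ (¬ Good u ∧ ¬ Good v)
  iseqv :=
    ⟨fun _ => Or.inl rfl,
     fun h => h.elim (fun h => Or.inl h.symm) (fun h => Or.inr ⟨h.2, h.1⟩),
     fun h1 h2 => by
      rcases h1 with rfl | h1
      · exact h2
      · rcases h2 with rfl | h2
        · exact Or.inr h1
        · exact Or.inr ⟨h1.1, h2.2⟩⟩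
  mul' := by
    intro a b c d h1 h2
    rcases h1 with rfl | h1
    · rcases h2 with rfl | h2
      · exact Or.inl rfl
      · exact Or.inr ⟨fun h => h2.1 (Good_mul h).2, fun h => h2.2 (Good_mul h).2⟩
    · exact Or.inr ⟨fun h => h1.1 (Good_mul h).1, fun h => h1.2 (Good_mul h).1⟩

abbrev S : Type := rees.Quotient

def mk : FreeSemigroup Bool →ₙ* S where
  toFun u := (u : rees.Quotient)
  map_mul' _ _ := rfl

lemma mk_surj : Function.Surjective mk := fun s => Quotient.exists_rep s

lemma mk_eq {u v : FreeSemigroup Bool} : mk u = mk v ↔ (u = v ∨ (¬ Good u ∧ ¬ Good v)) :=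
  rees.eq

noncomputable def ev : FreeSemigroup Bool →ₙ* Fil where
  toFun u := evL (toL u)
  map_mul' u v := by rw [toL_mul, evL_append]

lemma mk_eq_of_ev {u v : FreeSemigroup Bool} (h : ev u = ev v) : mk u = mk v := by
  rw [mk_eq]
  by_cases hu : Good u
  · obtain ⟨t, ht⟩ := hu
    exact Or.inl (toL_inj (isoterm ht h.symm)).symm
  · by_cases hv : Good v
    · obtain ⟨t, ht⟩ := hv
      exact Or.inl (toL_inj (isoterm ht h))
    · exact Or.inr ⟨hu, hv⟩

theorem identities (n : ℕ) (u v : FreeSemigroup (Fin n))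
    (h : ∀ f : Fin n → Fil, FreeSemigroup.lift f u = FreeSemigroup.lift f v)
    (g : Fin n → S) : FreeSemigroup.lift g u = FreeSemigroup.lift g v := by
  choose g' hg' using fun i => mk_surj (g i)
  have e1 : FreeSemigroup.lift g = mk.comp (FreeSemigroup.lift g') := by
    apply FreeSemigroup.hom_ext
    funext i
    simp [hg']
  have e2 : FreeSemigroup.lift (fun i => ev (g' i)) = ev.comp (FreeSemigroup.lift g') := by
    apply FreeSemigroup.hom_ext
    funext i
    simp
  have := h (fun i => ev (g' i))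
  rw [e2] at this
  rw [e1]
  exact mk_eq_of_ev this

lemma finite_len (L : ℕ) : {u : FreeSemigroup Bool | (toL u).length ≤ L}.Finite := by
  have h : {l : List Bool | l.length ≤ L}.Finite := List.finite_length_le Bool L
  exact (h.preimage (f := toL) (fun _ _ _ _ h => toL_inj h))

theorem periodic (s : S) : (Subsemigroup.closure ({s} : Set S) : Set S).Finite := by
  obtain ⟨w, rfl⟩ := mk_surj s
  have hne : (evL (toL w)).s ≠ 0 := evL_s_ne (by simp [toL])
  have hpos : 0 < |(evL (toL w)).s| := abs_pos.mpr hne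
  obtain ⟨K, hK⟩ := exists_nat_gt (1 / |(evL (toL w)).s|)
  have hcl : ∀ y ∈ Subsemigroup.closure ({mk w} : Set S), ∃ x : FreeSemigroup Bool, mk x = y ∧
      ∃ k : ℕ, (evL (toL x)).s = k * (evL (toL w)).s ∧ (toL x).length = k * (toL w).length := by
    intro y hy
    induction hy using Subsemigroup.closure_induction with
    | mem y hy =>
      rw [Set.mem_singleton_iff] at hy
      exact ⟨w, hy.symm, 1, by simp, by simp⟩
    | mul a b _ _ ha hb =>
      obtain ⟨x, rfl, k, h1, h2⟩ := ha
      obtain ⟨x', rfl, k', h1', h2'⟩ := hb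
      refine ⟨x * x', map_mul _ _ _, k + k', ?_, ?_⟩
      · rw [toL_mul, evL_append, mul_s, h1, h1']; push_cast; ring
      · rw [toL_mul, List.length_append, h2, h2']; ring
  have hz : {y : S | ∃ x, mk x = y ∧ ¬ Good x}.Subsingleton := by
    rintro _ ⟨x, rfl, hx⟩ _ ⟨x', rfl, hx'⟩
    exact mk_eq.mpr (Or.inr ⟨hx, hx'⟩)
  refine (((finite_len (K * (toL w).length)).image mk).union hz.finite).subset ?_
  intro y hy
  obtain ⟨x, rfl, k, h1, h2⟩ := hcl y hy
  by_cases hx : Good x
  · left
    refine ⟨x, ?_, rfl⟩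
    obtain ⟨t, ht⟩ := hx
    have h3 := good_s ht
    rw [h1, abs_mul, Nat.abs_cast] at h3
    have h4 : (k : ℝ) < K := by
      rw [div_lt_iff₀ hpos] at hK
      by_contra hc
      push Not at hc
      nlinarith
    have h5 : k ≤ K := by exact_mod_cast h4.le
    show (toL x).length ≤ _
    rw [h2]
    exact Nat.mul_le_mul_right _ h5
  · right
    exact ⟨x, rfl, hx⟩

lemma exists_Good (n : ℕ) : ∃ u : FreeSemigroup Bool, (toL u).length = n + 1 ∧ Good u := by
  obtain ⟨w, hw, hg⟩ := exists_good (n + 1) 0 (by simp) ⟨0, 0, by simp⟩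
  cases w with
  | nil => simp at hw
  | cons b w => exact ⟨⟨b, w⟩, hw, 0, hg⟩

theorem infinite_S : (Set.univ : Set S).Infinite := by
  choose u hu hg using exists_Good
  refine Set.infinite_of_injective_forall_mem (f := fun n => mk (u n)) ?_ (fun _ => trivial)
  intro a b hab
  rcases mk_eq.mp hab with h | h
  · have := hu a
    rw [h, hu b] at this
    omega
  · exact absurd (hg a) h.1

theorem generated (T : Finset S) (h : ∀ b, mk (FreeSemigroup.of b) ∈ T) (y : S) :
    y ∈ Subsemigroup.closure (T : Set S) := by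
  obtain ⟨x, rfl⟩ := mk_surj y
  induction x using FreeSemigroup.recOnMul with
  | ih1 b => exact Subsemigroup.subset_closure (h b)
  | ih2 b x h1 h2 =>
    rw [map_mul]
    exact Subsemigroup.mul_mem _ h1 h2

end Pool.Agent.H412Z.Sturm
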